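import Pool.Agent.H41R2.OP.Defs

set_option autoImplicit false

noncomputable section

open MeasureTheory Set
open scoped ENNReal Topology

namespace Pool.Agent.H41R2.OP

theorem AN (h1 : S_AN1) (h2 : S_POS) : S_AN :=
  fun d r hd hr hr2 => h2 d _ (by omega) (fun xs hl hp hx => h1 d r xs hd hr hr2 hl hp hx)

end Pool.Agent.H41R2.OP
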