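import Pool.Agent.H41R2.OP.Defs

set_option autoImplicit false

noncomputable section

open MeasureTheory Set
open scoped ENNReal Topology

namespace Pool.Agent.H41R2.OP

lemma AN1_ideal_mono {i j : ℕ} (h : i ≤ j) : ideal i ≤ ideal j := by
  unfold ideal
  have hi : (0:ℝ) ≤ i := Nat.cast_nonneg i
  have hj : (0:ℝ) ≤ j := Nat.cast_nonneg j
  have hij : (i:ℝ) ≤ j := by exact_mod_cast h
  rw [div_le_div_iff₀ (by positivity) (by positivity)]
  nlinarith

lemma AN1_one_le (j : ℕ) (h : 1 ≤ j) : 1 ≤ ideal j := by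
  have : ideal 1 = 1 := by unfold ideal; norm_num
  rw [← this]; exact AN1_ideal_mono h

lemma AN1_smul (zs : List ℝ) : ∀ (k : ℕ) (c : ℝ) (F : ℝ → ℝ),
    fo zs k (fun v => c * F v) = fun v => c * fo zs k F v := by
  induction zs with
  | nil => intro k c F; rfl
  | cons z zs ih =>
    intro k c F
    simp only [fo]
    have : op k z (fun v => c * F v) = fun v => c * op k z F v := by
      funext v
      unfold op
      rw [← intervalIntegral.integral_const_mul]
      congr 1
      funext t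
      ring
    rw [this, ih]

lemma AN1_ind_meas (ρ : ℝ) : Measurable (ind ρ) := by
  unfold ind
  exact Measurable.ite measurableSet_Iic measurable_const measurable_const

lemma AN1_ind_bd (ρ v : ℝ) : |ind ρ v| ≤ 1 := by
  unfold ind; split_ifs <;> simp

theorem AN1 (h1 : S_LAP0) (h2 : S_ML) (h3 : S_PAD) (h4 : S_CONG) (h5 : S_P1) (h6 : S_FOL)
    (h7 : S_WPOS) (h8 : S_FOP) (h9 : S_LAPE) : S_AN1 := by
  intro d r xs hd hr hrd hlen hsort hidx
  obtain ⟨m, rfl⟩ : ∃ m, d = m + 1 := ⟨d - 1, by omega⟩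
  have hm : 1 ≤ m := by omega
  set U := ideal (m + 1) with hU
  have hU1 : 1 ≤ U := AN1_one_le _ (by omega)
  set τ := tau (m + 1) r with hτ
  set F0 : ℝ → ℝ := fun v =>
    (min (v ^ (((m + 1 : ℕ) : ℝ) / 2)) (r ^ (m + 1)) - τ) * v ^ (-(((m + 1 : ℕ) : ℝ) / 2)) with hF0
  set E0 : ℝ → ℝ := fun v => v ^ (-(((m + 1 : ℕ) : ℝ) / 2)) with hE0
  obtain ⟨c0, hc0⟩ := h1 (m + 1) hd
  simp only [Nat.add_sub_cancel] at hc0
  have hE0pos : ∀ v : ℝ, 0 < v → 0 < E0 v := fun v hv => Real.rpow_pos_of_pos hv _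
  have hE0cont : ContinuousOn E0 (Ioi 0) := by
    intro v hv
    exact (Real.continuousAt_rpow_const _ _ (Or.inl (ne_of_gt hv))).continuousWithinAt
  have hF0cont : ContinuousOn F0 (Ioi 0) := by
    apply ContinuousOn.mul _ hE0cont
    apply ContinuousOn.sub _ continuousOn_const
    intro v hv
    have hca : ContinuousAt (fun v : ℝ => min (v ^ (((m + 1 : ℕ) : ℝ) / 2)) (r ^ (m + 1))) v :=
      (Real.continuousAt_rpow_const _ _ (Or.inl (ne_of_gt hv))).min continuousAt_const
    exact hca.continuousWithinAt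
  have hmono : MonotoneOn (fun v => F0 v / E0 v) (Ici 1) := by
    have hq : ∀ v : ℝ, 1 ≤ v → F0 v / E0 v = min (v ^ (((m + 1 : ℕ) : ℝ) / 2)) (r ^ (m + 1)) - τ := by
      intro v hv
      have : E0 v ≠ 0 := (hE0pos v (by linarith)).ne'
      simp only [hF0]
      exact mul_div_cancel_right₀ _ this
    intro v hv w hw hvw
    simp only [mem_Ici] at hv hw
    simp only
    rw [hq v hv, hq w hw]
    have : v ^ (((m + 1 : ℕ) : ℝ) / 2) ≤ w ^ (((m + 1 : ℕ) : ℝ) / 2) :=
      Real.rpow_le_rpow (by linarith) hvw (by positivity)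
    have := min_le_min_right (r ^ (m + 1)) this
    linarith
  -- the first operator
  have hop : ∀ v : ℝ, 1 ≤ v → op (m + 1) 0 (Phi0 (m + 1) r) v = (1 / ((m + 1 : ℕ) : ℝ)) * F0 v := by
    intro v hv
    have e1 := h6 [0] (m + 1) (ind r) (ind 1) 1 τ v (by simp) (AN1_ind_meas r) (AN1_ind_meas 1)
      (AN1_ind_bd r) (AN1_ind_bd 1)
    simp only [fo] at e1
    have e2 : op (m + 1) 0 (Phi0 (m + 1) r) v =
        op (m + 1) 0 (ind r) v - τ * op (m + 1) 0 (ind 1) v := e1
    rw [e2, h5 (m + 1) r v (by omega) hr.le hv, h5 (m + 1) 1 v (by omega) le_rfl hv]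
    have e3 : min (v ^ (((m + 1 : ℕ) : ℝ) / 2)) ((1:ℝ) ^ (m + 1)) = 1 := by
      rw [one_pow]
      apply min_eq_right
      exact Real.one_le_rpow hv (by positivity)
    rw [e3]
    simp only [hF0]
    ring
  have hfo : ∀ zs : List ℝ, (∀ z ∈ zs, 1 ≤ z) → fo (0 :: zs) (m + 1) (Phi0 (m + 1) r) U =
      (1 / ((m + 1 : ℕ) : ℝ)) * fo zs m F0 U := by
    intro zs hzs
    have e1 : fo (0 :: zs) (m + 1) (Phi0 (m + 1) r) U = fo zs m (op (m + 1) 0 (Phi0 (m + 1) r)) U := rfl
    rw [e1, h4 zs m _ (fun v => (1 / ((m + 1 : ℕ) : ℝ)) * F0 v) 1 U hzs hU1 hop, AN1_smul]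
  -- ideal chain
  set ids : List ℝ := (List.range m).map (fun i => ideal (i + 1)) with hids
  have hids1 : ∀ z ∈ ids, 1 ≤ z := by
    intro z hz
    simp only [hids, List.mem_map, List.mem_range] at hz
    obtain ⟨i, -, rfl⟩ := hz
    exact AN1_one_le _ (by omega)
  have hrange : (List.range (m + 1)).map ideal = 0 :: ids := by
    rw [List.range_succ_eq_map, List.map_cons, List.map_map]
    have : ideal 0 = 0 := by simp [ideal]
    rw [this]
    rfl
  have hWpos : 0 < W (m + 1) 1 := h7 (m + 1) 1 (by omega) le_rfl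
  have hz : fo (0 :: ids) (m + 1) (Phi0 (m + 1) r) U = 0 := by
    have e1 := h6 (0 :: ids) (m + 1) (ind r) (ind 1) 1 τ U (by simp [hids]) (AN1_ind_meas r)
      (AN1_ind_meas 1) (AN1_ind_bd r) (AN1_ind_bd 1)
    have e2 : fo (0 :: ids) (m + 1) (Phi0 (m + 1) r) U =
        fo (0 :: ids) (m + 1) (ind r) U - τ * fo (0 :: ids) (m + 1) (ind 1) U := e1
    rw [e2, ← hrange]
    have e3 : fo ((List.range (m + 1)).map ideal) (m + 1) (ind r) U = W (m + 1) r := rfl
    have e4 : fo ((List.range (m + 1)).map ideal) (m + 1) (ind 1) U = W (m + 1) 1 := rfl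
    rw [e3, e4, hτ, tau, div_mul_cancel₀ _ hWpos.ne']
    ring
  have hids0 : fo ids m F0 U = 0 := by
    rw [hfo ids hids1] at hz
    rcases mul_eq_zero.1 hz with h | h
    · exfalso
      have : (0:ℝ) < 1 / ((m + 1 : ℕ) : ℝ) := by positivity
      linarith
    · exact h
  have hidspos : 0 < fo ids m E0 U :=
    (h8 ids m E0 (fun y hy => by linarith [hids1 y hy]) hE0cont).2 hE0pos U (by linarith)
  -- the given chain
  have hxs1 : ∀ x ∈ xs, 1 ≤ x := by
    intro x hx
    obtain ⟨j, hj, rfl⟩ := List.getElem_of_mem hx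
    exact le_trans (AN1_one_le (j + 1) (by omega)) (hidx j hj).1
  have hxsU : ∀ x ∈ xs, x ≤ U := by
    intro x hx
    obtain ⟨j, hj, rfl⟩ := List.getElem_of_mem hx
    exact (hidx j hj).2.le
  obtain ⟨c, hc, hpad⟩ := h3 xs m (m - xs.length) U (by omega)
  have hlen' : (xs ++ List.replicate (m - xs.length) U).length = m := by
    simp; omega
  have hML := h2 m ids (xs ++ List.replicate (m - xs.length) U) U F0 E0 c0 1 (by simp [hids])
    one_pos hU1
    (by
      rw [List.forall₂_iff_get]
      refine ⟨by rw [hlen']; simp [hids], ?_⟩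
      intro j hj1 hj2
      simp only [List.get_eq_getElem]
      have e1 : ids[j] = ideal (j + 1) := by simp [hids]
      rw [e1]
      by_cases hjl : j < xs.length
      · rw [List.getElem_append_left hjl]
        exact (hidx j hjl).1
      · rw [List.getElem_append_right (by omega)]
        simp only [List.getElem_replicate]
        apply AN1_ideal_mono
        simp [hids] at hj1
        omega)
    hids1
    (by
      intro y hy
      rw [List.mem_append] at hy
      rcases hy with hy | hy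
      · exact hxsU y hy
      · rw [List.mem_replicate] at hy
        exact hy.2.le)
    (by
      rw [hids, List.pairwise_map]
      exact List.pairwise_lt_range.imp (fun h => AN1_ideal_mono (by omega)))
    (by
      rw [List.pairwise_append]
      refine ⟨hsort, ?_, ?_⟩
      · rw [List.pairwise_replicate]
        right; exact le_rfl
      · intro a ha b hb
        rw [List.mem_replicate] at hb
        rw [hb.2]
        exact hxsU a ha)
    hc0 hF0cont hmono
  rw [hids0, zero_mul, hpad] at hML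
  have hfin : 0 ≤ fo xs m F0 U := by
    have h10 : 0 ≤ c * fo xs m F0 U := by
      by_contra hneg
      rw [not_le] at hneg
      nlinarith [mul_neg_of_neg_of_pos hneg hidspos]
    by_contra hneg
    rw [not_le] at hneg
    nlinarith [mul_neg_of_pos_of_neg hc hneg]
  rw [hfo xs hxs1]
  positivity

end Pool.Agent.H41R2.OP
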