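import Pool.Agent.H41R2.OP.Defs

set_option autoImplicit false

noncomputable section

open MeasureTheory Set
open scoped ENNReal Topology

namespace Pool.Agent.H41R2.OP

theorem BAR_aux {d : ℕ} (t : Fin (d + 1) → E d) (ht : Reg t) (γ : Fin (d + 1) → ℝ)
    (h0 : ∑ i, γ i = 0) : ‖∑ i, γ i • t i‖ ^ 2 = 2 * ∑ i, γ i ^ 2 := by
  have h := inner_sum_smul_sum_smul_of_sum_eq_zero (s₁ := Finset.univ) (s₂ := Finset.univ)
    (w₁ := γ) (w₂ := γ) t h0 t h0
  rw [real_inner_self_eq_norm_sq] at h
  rw [h]
  have h1 : ∀ i l : Fin (d + 1), γ i * γ l * (‖t i - t l‖ * ‖t i - t l‖) =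
      4 * (γ i * γ l) - (if i = l then 4 * γ i ^ 2 else 0) := by
    intro i l
    split_ifs with hil
    · subst hil
      simp
      ring
    · have := ht i l hil
      rw [dist_eq_norm] at this
      rw [this]
      ring
  simp only [h1, Finset.sum_sub_distrib, Finset.sum_ite_eq, Finset.mem_univ, if_true,
    ← Finset.mul_sum]
  rw [← Finset.sum_mul, h0]
  ring

theorem BAR : S_BAR := by
  intro d t ht β hβ j
  have h := BAR_aux t ht (fun i => β i - if i = j then 1 else 0) (by
    rw [Finset.sum_sub_distrib, hβ]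
    simp)
  have h1 : ∑ i, (β i - if i = j then (1:ℝ) else 0) • t i = ∑ i, β i • t i - t j := by
    simp only [sub_smul, Finset.sum_sub_distrib, ite_smul, one_smul, zero_smul]
    simp
  have h2 : ∑ i, (β i - if i = j then (1:ℝ) else 0) ^ 2 = ∑ i, β i ^ 2 - 2 * β j + 1 := by
    have : ∀ i, (β i - if i = j then (1:ℝ) else 0) ^ 2 =
        β i ^ 2 - (if i = j then 2 * β i else 0) + (if i = j then 1 else 0) := by
      intro i
      split_ifs <;> ring
    simp only [this, Finset.sum_add_distrib, Finset.sum_sub_distrib]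
    simp
  rw [h1, h2] at h
  exact h

end Pool.Agent.H41R2.OP
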