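import Pool.Agent.H41R2.OP.Defs

set_option autoImplicit false

noncomputable section

open MeasureTheory Set
open scoped ENNReal Topology

namespace Pool.Agent.H41R2.OP

theorem CDL_cell {n : ℕ} {ι : Type} (a : ι → E n) (b : ι → ℝ) : MeasurableSet (cell a b) := by
  have : cell a b = ⋂ j, {z | inner ℝ (a j) z ≤ b j} := by
    ext z
    simp [cell]
  rw [this]
  apply IsClosed.measurableSet
  apply isClosed_iInter
  intro j
  exact isClosed_le (by fun_prop) continuous_const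

theorem CDL (h1 : S_NUL) (h2 : S_DIS) (h3 : S_SUB) (h4 : S_DEC) (h5 : S_CPC) (h6 : S_RAD) :
    S_CDL := by
  intro n ι hι a b φ G U x F M hS hF hM hop
  have hR : 0 < U - x := sub_pos.2 hS.lt
  set C : Set (E (n + 1)) := {z | z ∈ cell a b ∧ x + ‖z‖ ^ 2 < U} with hC
  obtain ⟨hT1, hT2⟩ := h1 (n + 1) ι hι a b G hS.ndup
  have hCm : MeasurableSet C := by
    have h7 : Measurable (fun z : E (n + 1) => x + ‖z‖ ^ 2) := by fun_prop
    exact (CDL_cell a b).inter (measurableSet_lt h7 measurable_const)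
  have hCb : C ⊆ Metric.ball 0 (Real.sqrt (U - x)) := by
    intro z hz
    rw [mem_ball_zero_iff]
    apply Real.lt_sqrt_of_sq_lt
    have := hz.2
    linarith
  have hCv : volume C < ∞ := lt_of_le_of_lt (measure_mono hCb) measure_ball_lt_top
  have hfm : Measurable (fun z : E (n + 1) => F (x + ‖z‖ ^ 2)) :=
    hF.comp (by fun_prop)
  have hint : IntegrableOn (fun z : E (n + 1) => F (x + ‖z‖ ^ 2)) C := by
    apply Measure.integrableOn_of_bounded (M := M) hCv.ne hfm.aestronglyMeasurable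
    exact Filter.Eventually.of_forall fun z => by
      rw [Real.norm_eq_abs]
      exact hM _
  have hRg : ∀ j ∈ G, MeasurableSet (Rg a b φ U x j) := fun j hj =>
    (h5 n ι hι a b φ G U x F M hS hF hM j hj).1
  have hRs : ∀ j ∈ G, Rg a b φ U x j ⊆ C := h3 n ι hι a b φ G U x hS
  set B : Set (E (n + 1)) := ⋃ j ∈ G, Rg a b φ U x j with hB
  have hBm : MeasurableSet B := Finset.measurableSet_biUnion G hRg
  have hBC : B ⊆ C := by
    apply iUnion₂_subset
    exact hRs
  have e1 : ∫ z in B, F (x + ‖z‖ ^ 2) = ∑ j ∈ G, hh (a j) (b j) *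
      J n U (x + hh (a j) (b j) ^ 2) {w | foot (a j) (b j) + φ j w ∈ cell a b}
        (op (n + 1) x F) := by
    rw [hB, integral_biUnion_finset G hRg]
    · apply Finset.sum_congr rfl
      intro j hj
      exact (h5 n ι hι a b φ G U x F M hS hF hM j hj).2
    · intro j hj l hl hjl
      exact h2 n ι hι a b φ G U x hS j hj l hl hjl
    · intro j hj
      exact hint.mono_set (hRs j hj)
  have e2 : ∫ z in C \ B, F (x + ‖z‖ ^ 2) = (∫ z in C, F (x + ‖z‖ ^ 2)) -
      ∫ z in B, F (x + ‖z‖ ^ 2) := integral_diff hBm hint hBC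
  have e3 : ∫ z in C \ B, F (x + ‖z‖ ^ 2) = ∫ z in (C \ B) \ Tie a b G, F (x + ‖z‖ ^ 2) :=
    setIntegral_congr_set (diff_null_ae_eq_self hT2).symm
  have e4 : 0 ≤ ∫ z in (C \ B) \ Tie a b G, F (x + ‖z‖ ^ 2) := by
    have hgm : Measurable (fun r : ℝ => F (x + r ^ 2)) := hF.comp (by fun_prop)
    obtain ⟨A, hA, hA'⟩ := h6 n (Real.sqrt (U - x)) ((C \ B) \ Tie a b G)
      (fun r => F (x + r ^ 2)) M (Real.sqrt_pos.2 hR) ((hCm.diff hBm).diff hT1)
      (fun z hz => mem_ball_zero_iff.1 (hCb hz.1.1))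
      (by
        intro z hz c hc hcz
        have hcz' : x + ‖c • z‖ ^ 2 < U := by
          have h7 : ‖c • z‖ ^ 2 < Real.sqrt (U - x) ^ 2 := by
            gcongr
          rw [Real.sq_sqrt hR.le] at h7
          linarith
        obtain ⟨d1, d2, d3⟩ := h4 n ι hι a b φ G U x hS z hz.1.1.1 hz.1.1.2 hz.2
          (fun j hj hz' => hz.1.2 (mem_iUnion₂.2 ⟨j, hj, hz'⟩)) c hc hcz'
        refine ⟨⟨⟨d1, hcz'⟩, fun hb => ?_⟩, d2⟩
        obtain ⟨j, hj, hj'⟩ := mem_iUnion₂.1 hb
        exact d3 j hj hj')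
      hgm (fun v => hM _)
    rw [hA']
    apply mul_nonneg hA
    have e5 : ∫ t in (0 : ℝ)..1, t ^ n * (fun r => F (x + r ^ 2)) (t * Real.sqrt (U - x)) =
        op (n + 1) x F U := by
      unfold op
      apply intervalIntegral.integral_congr
      intro t _
      show t ^ n * F (x + (t * Real.sqrt (U - x)) ^ 2) = t ^ (n + 1 - 1) * F (x + t ^ 2 * (U - x))
      rw [mul_pow, Real.sq_sqrt hR.le, Nat.add_sub_cancel]
    rw [e5]
    exact hop
  rw [← e1]
  show ∫ z in B, F (x + ‖z‖ ^ 2) ≤ ∫ z in C, F (x + ‖z‖ ^ 2)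
  rw [e3] at e2
  linarith

end Pool.Agent.H41R2.OP
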