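import Pool.Agent.H41R2.OP.Defs

/-! CEL (helper778 for helper41). -/

set_option autoImplicit false

noncomputable section

open MeasureTheory Set
open scoped ENNReal Topology

namespace Pool.Agent.H41R2.OP

theorem CEL (h : S_PR) : S_CEL := by
  intro d k X S c0 m L x hF
  ext z
  show (∀ c ∈ X, c ∉ S → ‖m + L z - c0‖ ≤ ‖m + L z - c‖) ↔
    ∀ c ∈ X, c ∉ S → inner ℝ (av L m c) z ≤ bv m x c
  refine forall_congr' fun c => forall_congr' fun _ => forall_congr' fun _ => ?_
  have hinner : inner ℝ (av L m c) z = 2 * inner ℝ (c - m) (L z) := by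
    rw [av, real_inner_smul_left, (h _ _ L (c - m)).1 z]
  have e : ∀ c', m + L z - c' = -((c' - m) - L z) := by intro c'; abel
  rw [e c0, e c, norm_neg, norm_neg, ← sq_le_sq₀ (norm_nonneg _) (norm_nonneg _),
    norm_sub_sq_real (c0 - m), norm_sub_sq_real (c - m), hF.rad c0 hF.mem, hF.orth c0 hF.mem, hinner, bv]
  constructor
  · intro h1; linarith
  · intro h1; linarith

end Pool.Agent.H41R2.OP
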