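import Pool.Agent.H41R2.OP.Defs

set_option autoImplicit false

noncomputable section

open MeasureTheory Set
open scoped ENNReal Topology

namespace Pool.Agent.H41R2.OP

theorem CEQ (h : S_ORT) : S_CEQ := by
  intro d n X S c0 m L x c φ hPk hF hcX hcS hav hφ hx
  have hO := h d n X S c0 m L x c φ hF hcX hcS hav hφ
  set f := foot (av L m c) (bv m x c) with hf
  have hpt : ∀ w, m + L f + (L.comp φ) w = m + L (f + φ w) := by
    intro w
    rw [map_add]
    show m + L f + L (φ w) = _
    abel
  ext w
  simp only [fcell, mem_setOf_eq]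
  constructor
  · intro hw c' hc' hc'S
    by_cases hcc : c' = c
    · subst hcc
      have hn : ∀ e ∈ insert c' S, ‖m + L (f + φ w) - e‖ ^ 2
          = x + hh (av L m c') (bv m x c') ^ 2 + ‖(L.comp φ) w‖ ^ 2 := by
        intro e he
        have h1 := (hO e he).1
        have h2 := (hO e he).2 w
        have h3 : m + L (f + φ w) - e = (L.comp φ) w - (e - (m + L f)) := by
          rw [← hpt w]; abel
        rw [h3, norm_sub_sq_real, real_inner_comm, h2, h1]
        ring
      have h1 := hn c0 (Finset.mem_insert_of_mem hF.mem)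
      have h2 := hn c' (Finset.mem_insert_self _ _)
      have h3 : ‖m + L (f + φ w) - c0‖ ^ 2 ≤ ‖m + L (f + φ w) - c'‖ ^ 2 := by rw [h1, h2]
      exact (sq_le_sq₀ (norm_nonneg _) (norm_nonneg _)).mp h3
    · have h1 := hw c' hc' (by rw [Finset.mem_insert, not_or]; exact ⟨hcc, hc'S⟩)
      rw [hpt w] at h1
      exact h1
  · intro hw c' hc' hc'S
    rw [Finset.mem_insert, not_or] at hc'S
    rw [hpt w]
    exact hw c' hc' hc'S.2

end Pool.Agent.H41R2.OP
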