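import Pool.Agent.H41R2.OP.Defs

set_option autoImplicit false

noncomputable section

open MeasureTheory Set
open scoped ENNReal Topology

namespace Pool.Agent.H41R2.OP

theorem CHE : S_CHE := by
  intro S w g h hS hw hg hh iw igw ihw ighw
  set μ : Measure ℝ := volume.restrict S with hμ
  have iw' : Integrable w μ := iw
  have igw' : Integrable (fun p => g p * w p) μ := igw
  have ihw' : Integrable (fun p => h p * w p) μ := ihw
  have ighw' : Integrable (fun p => g p * h p * w p) μ := ighw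
  have hpos : 0 ≤ ∫ z : ℝ × ℝ, (g z.1 - g z.2) * (h z.1 - h z.2) * (w z.1 * w z.2) ∂(μ.prod μ) := by
    apply integral_nonneg_of_ae
    have h1 : ∀ᵐ z : ℝ × ℝ ∂(μ.prod μ), z.1 ∈ S ∧ z.2 ∈ S := by
      rw [hμ, Measure.prod_restrict]
      have : ∀ᵐ z : ℝ × ℝ ∂((volume.prod volume).restrict (S ×ˢ S)), z ∈ S ×ˢ S :=
        ae_restrict_mem (hS.prod hS)
      filter_upwards [this] with z hz using ⟨hz.1, hz.2⟩
    filter_upwards [h1] with z hz
    obtain ⟨ha, hb⟩ := hz
    have hww : 0 ≤ w z.1 * w z.2 := mul_nonneg (hw _ ha) (hw _ hb)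
    refine mul_nonneg ?_ hww
    rcases le_total z.1 z.2 with hle | hle
    · have e1 := hg ha hb hle
      have e2 := hh ha hb hle
      nlinarith
    · have e1 := hg hb ha hle
      have e2 := hh hb ha hle
      nlinarith
  have i1 : Integrable (fun z : ℝ × ℝ => (g z.1 * h z.1 * w z.1) * w z.2) (μ.prod μ) :=
    ighw'.mul_prod iw'
  have i2 : Integrable (fun z : ℝ × ℝ => (g z.1 * w z.1) * (h z.2 * w z.2)) (μ.prod μ) :=
    igw'.mul_prod ihw'
  have i3 : Integrable (fun z : ℝ × ℝ => (h z.1 * w z.1) * (g z.2 * w z.2)) (μ.prod μ) :=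
    ihw'.mul_prod igw'
  have i4 : Integrable (fun z : ℝ × ℝ => w z.1 * (g z.2 * h z.2 * w z.2)) (μ.prod μ) :=
    iw'.mul_prod ighw'
  have hexp : ∫ z : ℝ × ℝ, (g z.1 - g z.2) * (h z.1 - h z.2) * (w z.1 * w z.2) ∂(μ.prod μ)
      = (∫ p, g p * h p * w p ∂μ) * (∫ p, w p ∂μ)
        - (∫ p, g p * w p ∂μ) * (∫ p, h p * w p ∂μ)
        - (∫ p, h p * w p ∂μ) * (∫ p, g p * w p ∂μ)
        + (∫ p, w p ∂μ) * (∫ p, g p * h p * w p ∂μ) := by
    rw [← integral_prod_mul (μ := μ) (ν := μ) (fun p => g p * h p * w p) w,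
      ← integral_prod_mul (μ := μ) (ν := μ) (fun p => g p * w p) (fun p => h p * w p),
      ← integral_prod_mul (μ := μ) (ν := μ) (fun p => h p * w p) (fun p => g p * w p),
      ← integral_prod_mul (μ := μ) (ν := μ) w (fun p => g p * h p * w p)]
    have j1 : Integrable (fun z : ℝ × ℝ => (g z.1 * h z.1 * w z.1) * w z.2
        - (g z.1 * w z.1) * (h z.2 * w z.2)) (μ.prod μ) := i1.sub i2
    have j2 : Integrable (fun z : ℝ × ℝ => (g z.1 * h z.1 * w z.1) * w z.2
        - (g z.1 * w z.1) * (h z.2 * w z.2) - (h z.1 * w z.1) * (g z.2 * w z.2)) (μ.prod μ) :=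
      j1.sub i3
    rw [← integral_sub i1 i2, ← integral_sub j1 i3, ← integral_add j2 i4]
    apply integral_congr_ae
    filter_upwards with z
    ring
  rw [hexp] at hpos
  nlinarith [hpos]

end Pool.Agent.H41R2.OP
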