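import Pool.Agent.H41R2.OP.Defs

set_option autoImplicit false

namespace Pool.Agent.H41R2.OP

open Set MeasureTheory intervalIntegral

theorem CNT : S_CNT := by
  intro k x F hx hF v0 hv0
  rw [mem_Ioi] at hv0
  apply ContinuousAt.continuousWithinAt
  set e : ℝ := min x v0 / 2 with he
  have he0 : 0 < e := by
    have := lt_min hx hv0
    positivity
  have hex : e ≤ x := by
    have := min_le_left x v0
    linarith
  have hev : e < v0 := by
    have := min_le_right x v0
    have := lt_min hx hv0
    linarith
  have hG : Continuous (fun u => F (max e u)) := by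
    rw [← continuousOn_univ]
    exact hF.comp (by fun_prop) (fun u _ => lt_of_lt_of_le he0 (le_max_left _ _))
  have hc : Continuous (op k x (fun u => F (max e u))) := by
    unfold op
    apply intervalIntegral.continuous_parametric_intervalIntegral_of_continuous'
    simp only [Function.uncurry_def]
    exact (continuous_snd.pow _).mul (hG.comp (continuous_const.add
      ((continuous_snd.pow _).mul (continuous_fst.sub continuous_const))))
  refine hc.continuousAt.congr ?_
  filter_upwards [Ioi_mem_nhds hev] with v hv
  rw [mem_Ioi] at hv
  unfold op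
  apply intervalIntegral.integral_congr
  intro t ht
  rw [uIcc_of_le zero_le_one] at ht
  have h1 : t ^ 2 ≤ 1 := by
    have := ht.1; have := ht.2
    nlinarith
  have h2 : e ≤ x + t ^ 2 * (v - x) := by
    have h3 : 0 ≤ t ^ 2 := sq_nonneg t
    have h4 : 0 ≤ (1 - t ^ 2) * (x - e) := mul_nonneg (by linarith) (by linarith)
    have h5 : 0 ≤ t ^ 2 * (v - e) := mul_nonneg h3 (by linarith)
    nlinarith
  simp only [max_eq_right h2]

end Pool.Agent.H41R2.OP
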