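import Pool.Agent.H41R2.OP.Defs

/-! Task CNV (by helper403): the volume in barycentric coordinates. -/

set_option autoImplicit false

noncomputable section

open MeasureTheory Set
open scoped ENNReal Topology

namespace Pool.Agent.H41R2.OP

theorem CNV_hull {d : ℕ} (t : Fin (d + 1) → E d) {x : E d} (hx : x ∈ convexHull ℝ (range t)) :
    ∃ β : Fin (d + 1) → ℝ, (∀ i, 0 ≤ β i) ∧ ∑ i, β i = 1 ∧ ∑ i, β i • t i = x := by
  have h : convexHull ℝ (range t) ⊆
      {x | ∃ β : Fin (d + 1) → ℝ, (∀ i, 0 ≤ β i) ∧ ∑ i, β i = 1 ∧ ∑ i, β i • t i = x} := by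
    refine convexHull_min ?_ ?_
    · rintro _ ⟨i, rfl⟩
      refine ⟨Pi.single i 1, ?_, ?_, ?_⟩
      · intro j
        by_cases h : j = i
        · subst h; simp
        · rw [Pi.single_eq_of_ne h]
      · simp
      · rw [Finset.sum_eq_single i]
        · simp
        · intro j _ hj
          rw [Pi.single_eq_of_ne hj, zero_smul]
        · simp
    · rintro _ ⟨β, h0, h1, rfl⟩ _ ⟨β', h0', h1', rfl⟩ a b ha hb hab
      refine ⟨fun i => a * β i + b * β' i, fun i => ?_, ?_, ?_⟩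
      · exact add_nonneg (mul_nonneg ha (h0 i)) (mul_nonneg hb (h0' i))
      · rw [Finset.sum_add_distrib, ← Finset.mul_sum, ← Finset.mul_sum, h1, h1', mul_one, mul_one,
          hab]
      · simp only [add_smul, mul_smul]
        rw [Finset.sum_add_distrib, ← Finset.smul_sum, ← Finset.smul_sum]
  exact h hx

/-- barycentric coordinates -/
def CNV_T {d : ℕ} (t : Fin (d + 1) → E d) : (Fin (d + 1) → ℝ) →ₗ[ℝ] E d × ℝ where
  toFun y := (∑ i, y i • t i, ∑ i, y i)
  map_add' y z := by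
    ext1
    · simp only [Pi.add_apply, add_smul, Finset.sum_add_distrib, Prod.fst_add]
    · simp only [Pi.add_apply, Finset.sum_add_distrib, Prod.snd_add]
  map_smul' c y := by
    ext1
    · simp only [Pi.smul_apply, smul_eq_mul, mul_smul, Finset.smul_sum, RingHom.id_apply,
        Prod.smul_fst]
    · simp only [Pi.smul_apply, smul_eq_mul, Finset.mul_sum, RingHom.id_apply, Prod.smul_snd]

theorem CNV_T_apply {d : ℕ} (t : Fin (d + 1) → E d) (y : Fin (d + 1) → ℝ) :
    CNV_T t y = (∑ i, y i • t i, ∑ i, y i) := rfl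

theorem CNV_inj (h : S_BAR) {d : ℕ} (t : Fin (d + 1) → E d) (ht : Reg t) :
    Function.Injective (CNV_T t) := by
  rw [injective_iff_map_eq_zero]
  intro y hy
  rw [CNV_T_apply, Prod.mk_eq_zero] at hy
  obtain ⟨h1, h2⟩ := hy
  have h3 := h d t ht (fun i => (Pi.single 0 1 : Fin (d + 1) → ℝ) i + y i) (by
    rw [Finset.sum_add_distrib, h2]; simp) 0
  have h4 : ∑ i, ((Pi.single 0 1 : Fin (d + 1) → ℝ) i + y i) • t i = t 0 := by
    simp only [add_smul]
    rw [Finset.sum_add_distrib, h1, add_zero, Finset.sum_eq_single 0]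
    · simp
    · intro j _ hj
      rw [Pi.single_eq_of_ne hj, zero_smul]
    · simp
  rw [h4, sub_self, norm_zero] at h3
  have h5 : ∑ i, ((Pi.single 0 1 : Fin (d + 1) → ℝ) i + y i) ^ 2 =
      1 + 2 * y 0 + ∑ i, y i ^ 2 := by
    have e : ∀ i, ((Pi.single 0 1 : Fin (d + 1) → ℝ) i + y i) ^ 2 =
        (Pi.single 0 (1 + 2 * y 0) : Fin (d + 1) → ℝ) i + y i ^ 2 := by
      intro i
      by_cases hi : i = 0
      · subst hi; simp only [Pi.single_eq_same]; ring
      · simp only [Pi.single_eq_of_ne hi]; ring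
    simp only [e]
    rw [Finset.sum_add_distrib, Finset.sum_pi_single' 0 (1 + 2 * y 0) Finset.univ]
    simp
  rw [h5] at h3
  simp only [Pi.single_eq_same] at h3
  have h6 : ∑ i, y i ^ 2 = 0 := by linarith
  rw [Finset.sum_eq_zero_iff_of_nonneg (fun i _ => sq_nonneg _)] at h6
  funext i
  exact pow_eq_zero_iff two_ne_zero |>.1 (h6 i (Finset.mem_univ i))

/-- the cone over a set -/
def CNV_C {d : ℕ} (A : Set (E d)) : Set (E d × ℝ) := {p | 0 < p.2 ∧ p.2 ≤ 1 ∧ p.2⁻¹ • p.1 ∈ A}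

theorem CNV_C_meas {d : ℕ} {A : Set (E d)} (hA : MeasurableSet A) : MeasurableSet (CNV_C A) := by
  have h1 : MeasurableSet {p : E d × ℝ | 0 < p.2} := measurableSet_lt measurable_const measurable_snd
  have h2 : MeasurableSet {p : E d × ℝ | p.2 ≤ 1} := measurableSet_le measurable_snd measurable_const
  have h3 : Measurable (fun p : E d × ℝ => p.2⁻¹ • p.1) := measurable_snd.inv.smul measurable_fst
  exact h1.inter (h2.inter (h3 hA))

theorem CNV_pre (h : S_BAR) {d : ℕ} (t : Fin (d + 1) → E d) (ht : Reg t) {A : Set (E d)}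
    (hA : A ⊆ convexHull ℝ (range t)) : CNV_T t ⁻¹' CNV_C A = yreg t A := by
  ext y
  simp only [mem_preimage, CNV_C, yreg, mem_ofPred_eq, CNV_T_apply]
  constructor
  · rintro ⟨h1, h2, h3⟩
    refine ⟨?_, h1, h2, h3⟩
    obtain ⟨β, h4, h5, h6⟩ := CNV_hull t (hA h3)
    have h7 : CNV_T t y = CNV_T t ((∑ i, y i) • β) := by
      rw [map_smul, CNV_T_apply, CNV_T_apply, h5, h6]
      ext1
      · simp only [Prod.smul_mk]
        rw [smul_smul, mul_inv_cancel₀ h1.ne', one_smul]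
      · simp
    have h8 := CNV_inj h t ht h7
    intro i
    rw [h8]
    exact mul_nonneg h1.le (h4 i)
  · rintro ⟨-, h1, h2, h3⟩
    exact ⟨h1, h2, h3⟩

theorem CNV_lint (d : ℕ) : ∫⁻ s in Ioc (0 : ℝ) 1, ENNReal.ofReal (s ^ d) =
    ENNReal.ofReal (1 / ((d : ℝ) + 1)) := by
  rw [← ofReal_integral_eq_lintegral_ofReal]
  · rw [← intervalIntegral.integral_of_le zero_le_one, integral_pow]
    simp
  · exact ((continuous_pow d).integrableOn_Icc).mono_set Ioc_subset_Icc_self
  · filter_upwards [ae_restrict_mem measurableSet_Ioc] with s hs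
    exact pow_nonneg hs.1.le d

theorem CNV_vol {d : ℕ} {A : Set (E d)} (hA : MeasurableSet A) :
    (volume : Measure (E d × ℝ)) (CNV_C A) = ENNReal.ofReal (1 / ((d : ℝ) + 1)) * volume A := by
  rw [Measure.volume_eq_prod, Measure.prod_apply_symm (CNV_C_meas hA)]
  have h1 : ∀ s : ℝ, volume ((fun x : E d => (x, s)) ⁻¹' CNV_C A) =
      (Ioc (0 : ℝ) 1).indicator (fun s => ENNReal.ofReal (s ^ d) * volume A) s := by
    intro s
    by_cases hs : s ∈ Ioc (0 : ℝ) 1
    · rw [indicator_of_mem hs]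
      have e : (fun x : E d => (x, s)) ⁻¹' CNV_C A = (fun x : E d => s⁻¹ • x) ⁻¹' A := by
        ext x
        simp only [mem_preimage, CNV_C, mem_ofPred_eq]
        exact ⟨fun h => h.2.2, fun h => ⟨hs.1, hs.2, h⟩⟩
      rw [e, Measure.addHaar_preimage_smul volume (inv_ne_zero hs.1.ne')]
      congr 2
      rw [inv_pow, inv_inv, finrank_euclideanSpace_fin, abs_of_nonneg (pow_nonneg hs.1.le d)]
    · rw [indicator_of_notMem hs]
      have e : (fun x : E d => (x, s)) ⁻¹' CNV_C A = ∅ := by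
        ext x
        simp only [mem_preimage, CNV_C, mem_ofPred_eq, mem_empty_iff_false, iff_false]
        intro h
        exact hs ⟨h.1, h.2.1⟩
      rw [e, measure_empty]
  simp only [h1]
  rw [lintegral_indicator measurableSet_Ioc, lintegral_mul_const _ (by fun_prop), CNV_lint]

theorem CNV (h : S_BAR) : S_CNV := by
  intro d t hd ht
  have hinj := CNV_inj h t ht
  have hfr : Module.finrank ℝ (Fin (d + 1) → ℝ) = Module.finrank ℝ (E d × ℝ) := by
    rw [Module.finrank_prod, finrank_euclideanSpace_fin, Module.finrank_self,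
      Module.finrank_fin_fun]
  obtain ⟨L, hL⟩ : ∃ L : (Fin (d + 1) → ℝ) ≃L[ℝ] E d × ℝ, ∀ y, L y = CNV_T t y :=
    ⟨((CNV_T t).linearEquivOfInjective hinj hfr).toContinuousLinearEquiv, fun y => rfl⟩
  have hH : (Measure.map L (volume : Measure (Fin (d + 1) → ℝ))).IsAddHaarMeasure :=
    ContinuousLinearEquiv.isAddHaarMeasure_map L volume
  have hV : (volume : Measure (E d × ℝ)).IsAddHaarMeasure := by
    rw [Measure.volume_eq_prod]
    infer_instance
  have hsm := Measure.isAddLeftInvariant_eq_smul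
    (Measure.map L (volume : Measure (Fin (d + 1) → ℝ))) (volume : Measure (E d × ℝ))
  obtain ⟨c, hc⟩ : ∃ c, c = Measure.addHaarScalarFactor
    (Measure.map L (volume : Measure (Fin (d + 1) → ℝ))) (volume : Measure (E d × ℝ)) := ⟨_, rfl⟩
  have hc0 : 0 < c := by
    rw [hc]
    exact Measure.addHaarScalarFactor_pos_of_isAddHaarMeasure _ _
  rw [← hc] at hsm
  obtain ⟨K, hK⟩ : ∃ K : ℝ≥0∞, K = (c : ℝ≥0∞) * ENNReal.ofReal (1 / ((d : ℝ) + 1)) := ⟨_, rfl⟩
  have hc0' : (c : ℝ≥0∞) ≠ 0 := ENNReal.coe_ne_zero.2 hc0.ne'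
  have hd0 : ENNReal.ofReal (1 / ((d : ℝ) + 1)) ≠ 0 := by
    rw [Ne, ENNReal.ofReal_eq_zero, not_le]
    positivity
  have hK0 : K ≠ 0 := by rw [hK]; exact mul_ne_zero hc0' hd0
  have hKt : K ≠ ∞ := by rw [hK]; exact ENNReal.mul_ne_top ENNReal.coe_ne_top ENNReal.ofReal_ne_top
  refine ⟨K⁻¹, ENNReal.inv_ne_top.2 hK0, ?_⟩
  intro A hA hAm
  have h1 : volume (yreg t A) = K * volume A := by
    rw [← CNV_pre h t ht hA]
    have e1 : CNV_T t ⁻¹' CNV_C A = L ⁻¹' CNV_C A := by
      ext y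
      simp only [mem_preimage, hL]
    rw [e1, ← Measure.map_apply L.continuous.measurable (CNV_C_meas hAm), hsm,
      Measure.smul_apply, CNV_vol hAm, hK, ENNReal.smul_def, smul_eq_mul, mul_assoc]
  rw [h1, ← mul_assoc, ENNReal.inv_mul_cancel hK0 hKt, one_mul]

end Pool.Agent.H41R2.OP
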