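import Pool.Agent.H41R2.OP.Defs

/-! Task CONE: integration over a cone. -/

set_option autoImplicit false

noncomputable section

open MeasureTheory Set
open scoped ENNReal Topology Pointwise

namespace Pool.Agent.H41R2.OP

theorem CONE (hMP : S_MP) : S_CONE := by
  intro n u φ h K F M hu hort hh hK hKb hF hM
  obtain ⟨hmp, hbij⟩ := hMP n u φ hu hort
  set Ψ : ℝ × E n → E (n + 1) := fun p => p.1 • u + φ p.2 with hΨ
  have hΨc : Continuous Ψ := by
    have : Continuous fun p : ℝ × E n => φ p.2 := φ.continuous.comp continuous_snd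
    exact (continuous_fst.smul continuous_const).add this
  have hΨe : MeasurableEmbedding Ψ := hΨc.measurableEmbedding hbij.injective
  have hM0 : 0 ≤ M := (abs_nonneg _).trans (hM 0)
  -- the cone in coordinates
  set S : Set (ℝ × E n) := {p | p.1 ∈ Ioc 0 h ∧ (h / p.1) • p.2 ∈ K} with hS
  have hpre : Ψ ⁻¹' (coneOver (h • u) φ K) = S := by
    ext ⟨r, w'⟩
    constructor
    · rintro ⟨t, ht, w, hw, he⟩
      have e1 : Ψ (r, w') = Ψ (t * h, t • w) := by
        rw [he]
        show t • (h • u + φ w) = (t * h) • u + φ (t • w)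
        rw [smul_add, smul_smul, map_smul]
      have e2 := hbij.injective e1
      rw [Prod.mk.injEq] at e2
      obtain ⟨rfl, rfl⟩ := e2
      refine ⟨⟨mul_pos ht.1 hh, ?_⟩, ?_⟩
      · show t * h ≤ h
        nlinarith [ht.2]
      · show (h / (t * h)) • (t • w) ∈ K
        have ht0 : t ≠ 0 := ht.1.ne'
        have : h / (t * h) * t = 1 := by field_simp
        rw [smul_smul, this, one_smul]
        exact hw
    · rintro ⟨⟨h1, h2⟩, h3⟩
      have h1' : 0 < r := h1
      have h2' : r ≤ h := h2
      refine ⟨r / h, ⟨div_pos h1' hh, (div_le_one hh).2 h2'⟩, (h / r) • w', h3, ?_⟩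
      show r • u + φ w' = (r / h) • (h • u + φ ((h / r) • w'))
      have e1 : r / h * h = r := by field_simp
      have e2 : r / h * (h / r) = 1 := by field_simp
      rw [smul_add, smul_smul, map_smul, smul_smul, e1, e2, one_smul]
  have hSm : MeasurableSet S := by
    have h1 : MeasurableSet {p : ℝ × E n | p.1 ∈ Ioc 0 h} := measurable_fst measurableSet_Ioc
    have h2 : Measurable fun p : ℝ × E n => (h / p.1) • p.2 := by
      exact (measurable_const.div measurable_fst).smul measurable_snd
    exact h1.inter (h2 hK)
  have hcm : MeasurableSet (coneOver (h • u) φ K) := by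
    have e : coneOver (h • u) φ K = Ψ '' S := by
      rw [← hpre, Set.image_preimage_eq _ hbij.surjective]
    rw [e]
    exact hΨe.measurableSet_image.2 hSm
  refine ⟨hcm, ?_⟩
  -- boundedness
  obtain ⟨C, hC⟩ := hKb.exists_norm_le
  have hSfin : (volume : Measure (ℝ × E n)) S ≠ ∞ := by
    have hsub : S ⊆ Icc 0 h ×ˢ Metric.closedBall (0 : E n) C := by
      rintro ⟨r, w'⟩ ⟨⟨h1, h2⟩, h3⟩
      have h1' : 0 < r := h1
      have h2' : r ≤ h := h2
      refine ⟨⟨h1'.le, h2'⟩, ?_⟩
      rw [mem_closedBall_zero_iff]
      have h4 := hC _ h3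
      rw [norm_smul, Real.norm_eq_abs, abs_of_pos (div_pos hh h1')] at h4
      have h5 : ‖w'‖ ≤ h / r * ‖w'‖ := by
        have : 1 ≤ h / r := (one_le_div h1').2 h2'
        nlinarith [norm_nonneg w']
      exact h5.trans h4
    refine ((measure_mono hsub).trans_lt ?_).ne
    rw [Measure.volume_eq_prod, Measure.prod_prod]
    exact ENNReal.mul_lt_top measure_Icc_lt_top measure_closedBall_lt_top
  set G : ℝ × E n → ℝ := fun p => F (Ψ p) with hG
  have hGm : Measurable G := hF.comp hΨc.measurable
  have hstep1 : ∫ z in coneOver (h • u) φ K, F z = ∫ p in S, G p := by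
    rw [← hmp.setIntegral_preimage_emb hΨe F (coneOver (h • u) φ K), hpre]
  have hGint : Integrable (S.indicator G) (volume.prod volume) := by
    rw [integrable_indicator_iff hSm]
    haveI : IsFiniteMeasure ((volume : Measure (ℝ × E n)).restrict S) :=
      ⟨by rw [Measure.restrict_apply_univ]; exact lt_top_iff_ne_top.2 hSfin⟩
    refine Integrable.of_bound hGm.aestronglyMeasurable M (Filter.Eventually.of_forall fun p => ?_)
    rw [Real.norm_eq_abs]
    exact hM _
  set H : ℝ → ℝ := fun t => ∫ w in K, F (t • (h • u + φ w)) with hH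
  have hinner : ∀ r : ℝ, ∫ w' : E n, S.indicator G (r, w') =
      (Ioc 0 h).indicator (fun r => (r / h) ^ n * H (r / h)) r := by
    intro r
    by_cases hr : r ∈ Ioc 0 h
    · have hr0 : 0 < r := hr.1
      rw [Set.indicator_of_mem hr]
      have e1 : ∀ w' : E n, S.indicator G (r, w') =
          (fun w => K.indicator (fun w => F ((r / h) • (h • u + φ w))) w) ((h / r) • w') := by
        intro w'
        by_cases hw : (h / r) • w' ∈ K
        · have hmem : (r, w') ∈ S := ⟨hr, hw⟩
          show S.indicator G (r, w') = K.indicator _ ((h / r) • w')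
          rw [Set.indicator_of_mem hmem, Set.indicator_of_mem hw]
          show F (r • u + φ w') = F ((r / h) • (h • u + φ ((h / r) • w')))
          congr 1
          have e1 : r / h * h = r := by field_simp
          have e2 : r / h * (h / r) = 1 := by field_simp
          rw [smul_add, smul_smul, map_smul, smul_smul, e1, e2, one_smul]
        · have hmem : (r, w') ∉ S := fun h' => hw h'.2
          show S.indicator G (r, w') = K.indicator _ ((h / r) • w')
          rw [Set.indicator_of_notMem hmem, Set.indicator_of_notMem hw]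
      simp only [e1]
      rw [Measure.integral_comp_smul, integral_indicator hK, finrank_euclideanSpace_fin,
        smul_eq_mul]
      congr 1
      rw [← inv_pow, inv_div, abs_of_nonneg (by positivity)]
    · rw [Set.indicator_of_notMem hr]
      have : ∀ w' : E n, S.indicator G (r, w') = 0 := fun w' =>
        Set.indicator_of_notMem (fun h' => hr h'.1) _
      simp only [this, integral_zero]
  have hstep2 : ∫ p in S, G p = h * ∫ t in (0 : ℝ)..1, t ^ n * H t := by
    rw [← integral_indicator hSm, Measure.volume_eq_prod, integral_prod _ hGint]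
    simp only [hinner]
    rw [integral_indicator measurableSet_Ioc, ← intervalIntegral.integral_of_le hh.le,
      intervalIntegral.integral_comp_div (fun t => t ^ n * H t) hh.ne', zero_div, div_self hh.ne',
      smul_eq_mul]
  rw [hstep1, hstep2]
  congr 1
  rw [intervalIntegral.integral_of_le zero_le_one]
  have e3 : ∀ t : ℝ, t ^ n * H t = ∫ w in K, t ^ n * F (t • (h • u + φ w)) := fun t => by
    rw [integral_const_mul]
  simp only [e3]
  have hKfin : (volume : Measure (E n)) K ≠ ∞ := by
    have hsub : K ⊆ Metric.closedBall (0 : E n) C := fun w hw => by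
      rw [mem_closedBall_zero_iff]; exact hC w hw
    exact ((measure_mono hsub).trans_lt measure_closedBall_lt_top).ne
  haveI hK1 : IsFiniteMeasure ((volume : Measure (E n)).restrict K) :=
    ⟨by rw [Measure.restrict_apply_univ]; exact lt_top_iff_ne_top.2 hKfin⟩
  rw [integral_integral_swap]
  · refine integral_congr_ae (Filter.Eventually.of_forall fun w => ?_)
    show ∫ t in Ioc (0 : ℝ) 1, t ^ n * F (t • (h • u + φ w)) =
      ∫ t in (0 : ℝ)..1, t ^ n * F (t • (h • u + φ w))
    rw [intervalIntegral.integral_of_le zero_le_one]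
  · have hmeas : Measurable (Function.uncurry fun (t : ℝ) (w : E n) =>
        t ^ n * F (t • (h • u + φ w))) := by
      have hc : Continuous fun p : ℝ × E n => p.1 • (h • u + φ p.2) :=
        continuous_fst.smul (continuous_const.add (φ.continuous.comp continuous_snd))
      exact (measurable_fst.pow_const n).mul (hF.comp hc.measurable)
    refine Integrable.of_bound hmeas.aestronglyMeasurable M ?_
    rw [Measure.prod_restrict]
    refine (ae_restrict_iff' (measurableSet_Ioc.prod hK)).2
      (Filter.Eventually.of_forall fun p hp => ?_)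
    have hp1 : p.1 ∈ Ioc (0 : ℝ) 1 := hp.1
    show ‖p.1 ^ n * F (p.1 • (h • u + φ p.2))‖ ≤ M
    rw [norm_mul, Real.norm_eq_abs, Real.norm_eq_abs, abs_of_nonneg (pow_nonneg hp1.1.le n)]
    calc p.1 ^ n * |F (p.1 • (h • u + φ p.2))| ≤ 1 * M := by
          apply mul_le_mul (pow_le_one₀ hp1.1.le hp1.2) (hM _) (abs_nonneg _) zero_le_one
      _ = M := one_mul M

end Pool.Agent.H41R2.OP
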