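import Pool.Agent.H41R2.OP.Defs

set_option autoImplicit false

noncomputable section

open MeasureTheory Set
open scoped ENNReal Topology

namespace Pool.Agent.H41R2.OP

theorem CONG_op (k : ℕ) (F G : ℝ → ℝ) (a x v : ℝ) (hx : a ≤ x) (hv : a ≤ v)
    (h : ∀ u : ℝ, a ≤ u → F u = G u) : op k x F v = op k x G v := by
  unfold op
  refine intervalIntegral.integral_congr fun t ht => ?_
  rw [uIcc_of_le zero_le_one] at ht
  have h1 : a ≤ x + t ^ 2 * (v - x) := by
    have h2 : t ^ 2 ≤ 1 := pow_le_one₀ ht.1 ht.2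
    have h3 : 0 ≤ t ^ 2 := sq_nonneg t
    nlinarith
  show t ^ (k - 1) * F (x + t ^ 2 * (v - x)) = t ^ (k - 1) * G (x + t ^ 2 * (v - x))
  rw [h _ h1]

theorem CONG : S_CONG := by
  intro xs
  induction xs with
  | nil =>
    intro k F G a v _ hv h
    exact h v hv
  | cons x xs ih =>
    intro k F G a v hx hv h
    show fo xs (k - 1) (op k x F) v = fo xs (k - 1) (op k x G) v
    exact ih (k - 1) _ _ a v (fun y hy => hx y (List.mem_cons_of_mem _ hy)) hv
      fun u hu => CONG_op k F G a x u (hx x List.mem_cons_self) hu h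

end Pool.Agent.H41R2.OP
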