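import Pool.Agent.H41R2.OP.Defs

set_option autoImplicit false

open MeasureTheory Set
open scoped ENNReal Topology

namespace Pool.Agent.H41R2.OP

theorem CPC (h1 : S_CONE) (h2 : S_KNU) : S_CPC := by
  intro n ι hι a b φ G U x F M hS hF hM j hj
  have hgood := (hS.good j).1 hj
  have ha : 0 < ‖a j‖ := norm_pos_iff.2 hgood.1
  have hh0 : 0 < hh (a j) (b j) := div_pos (hS.bpos j) ha
  set u : E (n + 1) := (‖a j‖⁻¹) • a j with hu
  have hu1 : ‖u‖ = 1 := by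
    rw [hu, norm_smul, norm_inv, norm_norm, inv_mul_cancel₀ ha.ne']
  have huφ : ∀ w, inner ℝ u (φ j w) = 0 := by
    intro w
    rw [hu, real_inner_smul_left, hS.orth j hj w, mul_zero]
  have hfoot : foot (a j) (b j) = hh (a j) (b j) • u := by
    rw [hu, smul_smul, foot, hh]
    congr 1
    field_simp
  obtain ⟨hKm, hKb, -⟩ := h2 n ι hι a b φ G U x F hS j hj
  have hF' : Measurable (fun z : E (n + 1) => F (x + ‖z‖ ^ 2)) :=
    hF.comp (by fun_prop)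
  obtain ⟨hm, hint⟩ := h1 n u (φ j) (hh (a j) (b j)) (Kf a b φ U x j)
    (fun z => F (x + ‖z‖ ^ 2)) M hu1 huφ hh0 hKm hKb hF' (fun z => hM _)
  have hRg : Rg a b φ U x j = coneOver (hh (a j) (b j) • u) (φ j) (Kf a b φ U x j) := by
    rw [Rg, hfoot]
  refine ⟨by rw [hRg]; exact hm, ?_⟩
  rw [hRg, hint, (h2 n ι hι a b φ G U x (op (n + 1) x F) hS j hj).2.2]
  congr 1
  refine setIntegral_congr_fun hKm fun w _ => ?_
  show ∫ t in (0:ℝ)..1, t ^ n * F (x + ‖t • (hh (a j) (b j) • u + φ j w)‖ ^ 2) =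
    op (n + 1) x F (x + hh (a j) (b j) ^ 2 + ‖w‖ ^ 2)
  rw [op]
  refine intervalIntegral.integral_congr fun t _ => ?_
  show t ^ n * F (x + ‖t • (hh (a j) (b j) • u + φ j w)‖ ^ 2) =
    t ^ (n + 1 - 1) * F (x + t ^ 2 * (x + hh (a j) (b j) ^ 2 + ‖w‖ ^ 2 - x))
  have h3 : ‖hh (a j) (b j) • u + φ j w‖ ^ 2 = hh (a j) (b j) ^ 2 + ‖w‖ ^ 2 := by
    rw [norm_add_sq_real, real_inner_smul_left, huφ, norm_smul, hu1, LinearIsometry.norm_map,
      Real.norm_eq_abs, mul_one, sq_abs]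
    ring
  have h4 : ‖t • (hh (a j) (b j) • u + φ j w)‖ ^ 2 =
      t ^ 2 * (hh (a j) (b j) ^ 2 + ‖w‖ ^ 2) := by
    rw [norm_smul, mul_pow, h3, Real.norm_eq_abs, sq_abs]
  rw [h4, Nat.add_sub_cancel]
  congr 2
  ring

end Pool.Agent.H41R2.OP
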