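import Pool.Agent.H41R2.OP.Defs

/-! Task DEC: the part of the cell which is not over a facet is a cone piece. -/

set_option autoImplicit false

noncomputable section

open MeasureTheory Set
open scoped ENNReal Topology

namespace Pool.Agent.H41R2.OP

theorem DEC_foot {n : ℕ} (a : E n) (b : ℝ) (ha : a ≠ 0) : inner ℝ a (foot a b) = b := by
  unfold foot
  have h : ‖a‖ ^ 2 ≠ 0 := pow_ne_zero 2 (norm_ne_zero_iff.2 ha)
  rw [inner_smul_right, real_inner_self_eq_norm_sq]
  field_simp

theorem DEC_foot_norm {n : ℕ} (a : E n) (b : ℝ) (ha : a ≠ 0) (hb : 0 < b) :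
    ‖foot a b‖ = hh a b := by
  unfold foot hh
  have h : 0 < ‖a‖ := norm_pos_iff.2 ha
  rw [norm_smul, Real.norm_eq_abs, abs_of_pos (by positivity)]
  field_simp

theorem DEC_tie {n : ℕ} {ι : Type} (a : ι → E n) (b : ι → ℝ) (G : Finset ι) (z : E n) (c : ℝ)
    (hc : c ≠ 0) : c • z ∈ Tie a b G → z ∈ Tie a b G := by
  rintro ⟨j, hj, l, hl, h⟩
  refine ⟨j, hj, l, hl, ?_⟩
  rw [inner_smul_right, inner_smul_right] at h
  have h2 : c * (b l * inner ℝ (a j) z) = c * (b j * inner ℝ (a l) z) := by linarith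
  exact mul_left_cancel₀ hc h2

theorem DEC (h1 : S_ONTO) : S_DEC := by
  classical
  intro n ι _ a b φ G U x hS z hz hzU hT hR c hc hcU
  have hbpos := hS.bpos
  refine ⟨?_, fun h => hT (DEC_tie a b G z c hc.ne' h), ?_⟩
  · -- `c • z` is in the cell
    by_contra hcon
    unfold cell at hcon
    rw [mem_setOf_eq] at hcon
    push Not at hcon
    obtain ⟨l0, hl0⟩ := hcon
    rw [inner_smul_right] at hl0
    have hne : Nonempty ι := ⟨l0⟩
    obtain ⟨j, hj⟩ := Finite.exists_max (fun l => inner ℝ (a l) z / b l)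
    set s : ℝ := inner ℝ (a j) z / b j with hs
    have hs0 : 1 / c < s := by
      refine lt_of_lt_of_le ?_ (hj l0)
      rw [div_lt_div_iff₀ hc (hbpos l0)]
      linarith
    have hspos : 0 < s := lt_trans (by positivity) hs0
    have hs1 : s ≤ 1 := by
      rw [hs, div_le_one (hbpos j)]
      exact hz j
    have haz : inner ℝ (a j) z = s * b j := by
      rw [hs]
      have := (hbpos j).ne'
      field_simp
    set p : E (n + 1) := s⁻¹ • z with hp
    have hzp : z = s • p := by
      rw [hp, smul_smul, mul_inv_cancel₀ hspos.ne', one_smul]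
    have hap : inner ℝ (a j) p = b j := by
      rw [hp, inner_smul_right, haz]
      field_simp
    have haj : a j ≠ 0 := by
      intro h0
      rw [h0, inner_zero_left] at hap
      exact (hbpos j).ne' hap.symm
    have hpn : ‖p‖ ^ 2 ≤ ‖c • z‖ ^ 2 := by
      rw [hp, norm_smul, norm_smul, Real.norm_eq_abs, Real.norm_eq_abs, abs_of_pos hc,
        abs_of_pos (by positivity)]
      have h2 : s⁻¹ ≤ c := by
        rw [inv_le_comm₀ hspos hc]
        rw [← one_div]
        exact hs0.le
      gcongr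
    have hpU : x + ‖p‖ ^ 2 < U := by linarith
    have hhp : hh (a j) (b j) ≤ ‖p‖ := by
      unfold hh
      rw [div_le_iff₀ (norm_pos_iff.2 haj), ← hap]
      have := real_inner_le_norm (a j) p
      linarith [mul_comm ‖p‖ ‖a j‖]
    have hh0 : 0 ≤ hh (a j) (b j) := div_nonneg (hbpos j).le (norm_nonneg _)
    have hjG : j ∈ G := by
      rw [hS.good j]
      refine ⟨haj, ?_⟩
      have : hh (a j) (b j) ^ 2 ≤ ‖p‖ ^ 2 := pow_le_pow_left₀ hh0 hhp 2
      linarith
    have hlt : ∀ l, l ≠ j → inner ℝ (a l) p < b l := by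
      intro l hl
      have h2 : inner ℝ (a l) z / b l ≤ s := hj l
      have h3 : inner ℝ (a l) z / b l ≠ s := by
        intro h4
        apply hT
        refine ⟨j, hjG, l, hl, ?_⟩
        rw [haz, ← h4]
        have := (hbpos l).ne'
        field_simp
      have h5 : inner ℝ (a l) z / b l < s := lt_of_le_of_ne h2 h3
      rw [div_lt_iff₀ (hbpos l)] at h5
      rw [hp, inner_smul_right, inv_mul_lt_iff₀ hspos]
      exact h5
    obtain ⟨w, hw⟩ := h1 n (a j) (φ j) haj (hS.orth j hjG) (p - foot (a j) (b j)) (by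
      rw [inner_sub_right, hap, DEC_foot _ _ haj, sub_self])
    have hpw : foot (a j) (b j) + φ j w = p := by rw [hw]; abel
    refine hR j hjG ?_
    refine ⟨s, ⟨hspos, hs1⟩, w, ⟨?_, ?_⟩, ?_⟩
    · intro l hl
      rw [hpw]
      exact hlt l hl
    · have h2 : ‖p‖ ^ 2 = hh (a j) (b j) ^ 2 + ‖w‖ ^ 2 := by
        have h3 : inner ℝ (foot (a j) (b j)) (φ j w) = 0 := by
          unfold foot
          rw [inner_smul_left, hS.orth j hjG w, mul_zero]
        have h4 := norm_add_sq_real (foot (a j) (b j)) (φ j w)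
        rw [hpw, h3, (φ j).norm_map, DEC_foot_norm _ _ haj (hbpos j)] at h4
        linarith
      linarith
    · rw [hpw]
      exact hzp
  · -- `c • z` is not in a region
    intro j hj hcz
    obtain ⟨t, ⟨ht0, ht1⟩, w, hw, he⟩ := hcz
    have haj : a j ≠ 0 := ((hS.good j).1 hj).1
    have hz' : z = (t / c) • (foot (a j) (b j) + φ j w) := by
      have h2 : c⁻¹ • (c • z) = c⁻¹ • (t • (foot (a j) (b j) + φ j w)) := by rw [he]
      rw [smul_smul, inv_mul_cancel₀ hc.ne', one_smul, smul_smul] at h2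
      rw [h2]
      congr 1
      field_simp
    refine hR j hj ⟨t / c, ⟨by positivity, ?_⟩, w, hw, hz'⟩
    have h3 : inner ℝ (a j) z = t / c * b j := by
      rw [hz', inner_smul_right, inner_add_right, DEC_foot _ _ haj, hS.orth j hj w, add_zero]
    have h4 : inner ℝ (a j) z ≤ b j := hz j
    rw [h3] at h4
    have h5 := hbpos j
    by_contra hcon
    push Not at hcon
    have h6 : 1 * b j < t / c * b j := mul_lt_mul_of_pos_right hcon h5
    linarith

end Pool.Agent.H41R2.OP
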