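import Mathlib

set_option autoImplicit false

noncomputable section

open MeasureTheory Set
open scoped ENNReal Topology

namespace Pool.Agent.H41R2.OP

/-- Euclidean n-space. -/
abbrev E (n : ℕ) := EuclideanSpace ℝ (Fin n)

/-- The averaging operator. -/
def op (k : ℕ) (x : ℝ) (F : ℝ → ℝ) (v : ℝ) : ℝ :=
  ∫ t in (0:ℝ)..1, t ^ (k - 1) * F (x + t ^ 2 * (v - x))

/-- Iterated averaging operator: parameters k, k-1, ... -/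
def fo : List ℝ → ℕ → (ℝ → ℝ) → (ℝ → ℝ)
  | [], _, F => F
  | x :: xs, k, F => fo xs (k - 1) (op k x F)

/-- squared circumradius of the regular j-simplex of edge 2 -/
def ideal (j : ℕ) : ℝ := 2 * (j : ℝ) / ((j : ℝ) + 1)

/-- lower bound for the next squared circumradius -/
def phi (x : ℝ) : ℝ := 4 / (4 - x)

def ind (ρ : ℝ) (v : ℝ) : ℝ := if v ≤ ρ ^ 2 then 1 else 0

def W (d : ℕ) (ρ : ℝ) : ℝ := fo ((List.range d).map ideal) d (ind ρ) (ideal d)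

def tau (d : ℕ) (r : ℝ) : ℝ := W d r / W d 1

def Phi0 (d : ℕ) (r : ℝ) (v : ℝ) : ℝ := ind r v - tau d r * ind 1 v

/-- recursive positivity predicate -/
def Pos (U : ℝ) : ℕ → ℝ → (ℝ → ℝ) → Prop
  | 0, x, F => 0 ≤ F x
  | k + 1, x, F => 0 ≤ op (k + 1) x F U ∧
      ∀ x' : ℝ, phi x ≤ x' → x' < U → Pos U k x' (op (k + 1) x F)

/-! ### Analysis -/

/-- log-convexity on (0,∞) -/
def LC (c : ℝ → ℝ) : Prop := ∀ s t θ : ℝ, 0 < s → 0 < t → 0 ≤ θ → θ ≤ 1 →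
  c (θ * s + (1 - θ) * t) ≤ (c s) ^ θ * (c t) ^ (1 - θ)

def LC4 (c : ℝ → ℝ) : Prop := ∀ a p q : ℝ, 0 < a → 0 ≤ p → 0 ≤ q →
  c (a + p) * c (a + q) ≤ c a * c (a + p + q)

def Nn (c : ℝ → ℝ) (x q : ℝ) : ℝ := ∫ p in Ioi (0:ℝ), Real.exp (-(p * x)) * c (p + q)

def nextc (c : ℝ → ℝ) (x q : ℝ) : ℝ := (1 / 2) * q ^ (-(1 / 2) : ℝ) * Nn c x q

/-- Laplace representation of F with log-convex density -/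
structure LapRep (k : ℕ) (F c : ℝ → ℝ) : Prop where
  pos : ∀ s : ℝ, 0 < s → 0 < c s
  cont : ContinuousOn c (Ioi 0)
  lc : LC c
  int : ∀ u : ℝ, 0 < u →
    IntegrableOn (fun s : ℝ => Real.exp (-(s * u)) * s ^ ((k : ℝ) / 2) * c s) (Ioi 0)
  rep : ∀ u : ℝ, 0 < u →
    F u = ∫ s in Ioi (0:ℝ), Real.exp (-(s * u)) * s ^ ((k : ℝ) / 2) * c s

def S_CHE : Prop := ∀ (S : Set ℝ) (w g h : ℝ → ℝ), MeasurableSet S → (∀ p ∈ S, 0 ≤ w p) →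
  MonotoneOn g S → MonotoneOn h S → IntegrableOn w S → IntegrableOn (fun p => g p * w p) S →
  IntegrableOn (fun p => h p * w p) S → IntegrableOn (fun p => g p * h p * w p) S →
  (∫ p in S, g p * w p) * (∫ p in S, h p * w p) ≤
    (∫ p in S, g p * h p * w p) * (∫ p in S, w p)

def S_CNT : Prop := ∀ (k : ℕ) (x : ℝ) (F : ℝ → ℝ), 0 < x → ContinuousOn F (Ioi 0) →
  ContinuousOn (op k x F) (Ioi 0)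

def S_OPP : Prop := ∀ (k : ℕ) (x : ℝ) (F : ℝ → ℝ), 0 < x → ContinuousOn F (Ioi 0) →
  (∀ v : ℝ, 0 < v → 0 < F v) → ∀ v : ℝ, 0 < v → 0 < op k x F v

def S_OPM : Prop := ∀ (k : ℕ) (x v : ℝ) (F G : ℝ → ℝ), 0 < x → 0 < v →
  ContinuousOn F (Ioi 0) → ContinuousOn G (Ioi 0) → (∀ u ∈ uIcc x v, F u ≤ G u) →
  op k x F v ≤ op k x G v

def S_OPC : Prop := ∀ (k : ℕ) (x v : ℝ) (w g h : ℝ → ℝ), 0 < x → x ≤ v →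
  ContinuousOn w (Ioi 0) → ContinuousOn g (Ioi 0) → ContinuousOn h (Ioi 0) →
  (∀ u : ℝ, 0 < u → 0 < w u) → MonotoneOn g (Icc x v) → MonotoneOn h (Icc x v) →
  op k x (fun u => g u * w u) v * op k x (fun u => h u * w u) v ≤
    op k x (fun u => g u * h u * w u) v * op k x w v

def S_MONv : Prop := ∀ (k : ℕ) (x v v' : ℝ) (w q : ℝ → ℝ), 0 < x → x ≤ v → v ≤ v' →
  ContinuousOn w (Ioi 0) → ContinuousOn q (Ioi 0) → (∀ u : ℝ, 0 < u → 0 < w u) →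
  MonotoneOn q (Icc x v') →
  op k x (fun u => q u * w u) v * op k x w v' ≤ op k x (fun u => q u * w u) v' * op k x w v

def S_MONx : Prop := ∀ (k : ℕ) (x x' t : ℝ) (w q : ℝ → ℝ), 0 < x → x ≤ x' → x' ≤ t →
  ContinuousOn w (Ioi 0) → ContinuousOn q (Ioi 0) → (∀ u : ℝ, 0 < u → 0 < w u) →
  AntitoneOn w (Ioi 0) → LC4 w → MonotoneOn q (Icc x t) →
  op k x (fun u => q u * w u) t * op k x' w t ≤ op k x' (fun u => q u * w u) t * op k x w t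

def S_LC4 : Prop := ∀ c : ℝ → ℝ, (∀ s : ℝ, 0 < s → 0 < c s) → LC c → LC4 c

def S_LAP0 : Prop := ∀ d : ℕ, 2 ≤ d → ∃ c : ℝ → ℝ, LapRep (d - 1) (fun v => v ^ (-((d : ℝ) / 2))) c

def S_NPOS : Prop := ∀ (k : ℕ) (F c : ℝ → ℝ) (x q : ℝ), LapRep k F c → 0 < x → 0 < q →
  IntegrableOn (fun p : ℝ => Real.exp (-(p * x)) * c (p + q)) (Ioi 0) ∧ 0 < Nn c x q

def S_NCON : Prop := ∀ (k : ℕ) (F c : ℝ → ℝ) (x : ℝ), LapRep k F c → 0 < x →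
  ContinuousOn (Nn c x) (Ioi 0)

def S_NLC : Prop := ∀ (k : ℕ) (F c : ℝ → ℝ) (x : ℝ), LapRep k F c → 0 < x → LC (nextc c x)

def S_LAPI : Prop := ∀ (k : ℕ) (F c : ℝ → ℝ) (x v : ℝ), 1 ≤ k → LapRep k F c → 0 < x → 0 < v →
  IntegrableOn (fun q : ℝ => Real.exp (-(q * v)) * q ^ ((k : ℝ) / 2 - 1) * Nn c x q) (Ioi 0) ∧
  op k x F v = (1 / 2) * ∫ q in Ioi (0:ℝ), Real.exp (-(q * v)) * q ^ ((k : ℝ) / 2 - 1) * Nn c x q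

def S_LAPS : Prop := ∀ (k : ℕ) (F c : ℝ → ℝ) (x : ℝ), 1 ≤ k → LapRep k F c → 0 < x →
  LapRep (k - 1) (op k x F) (nextc c x)

def S_LAPE : Prop := ∀ (k : ℕ) (F c : ℝ → ℝ), LapRep k F c →
  (∀ u : ℝ, 0 < u → 0 < F u) ∧ ContinuousOn F (Ioi 0) ∧ AntitoneOn F (Ioi 0) ∧ LC4 F

def S_TPA : Prop := ∀ (k : ℕ) (F c : ℝ → ℝ) (x x' q q' : ℝ), LapRep k F c → 0 < x → x ≤ x' →
  0 < q → q ≤ q' → Nn c x' q' * Nn c x q ≤ Nn c x' q * Nn c x q'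

def S_TPB : Prop := ∀ (k : ℕ) (F c : ℝ → ℝ) (x x' t t' : ℝ), 1 ≤ k → LapRep k F c → 0 < x →
  x ≤ x' → 0 < t → t ≤ t' → op k x' F t * op k x F t' ≤ op k x' F t' * op k x F t

def S_FOP : Prop := ∀ (ys : List ℝ) (k : ℕ) (F : ℝ → ℝ), (∀ y ∈ ys, 0 < y) →
  ContinuousOn F (Ioi 0) → ContinuousOn (fo ys k F) (Ioi 0) ∧
  ((∀ v : ℝ, 0 < v → 0 < F v) → ∀ v : ℝ, 0 < v → 0 < fo ys k F v)

def S_FOM : Prop := ∀ (ys : List ℝ) (k : ℕ) (F G : ℝ → ℝ) (a U : ℝ), 0 < a → a ≤ U →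
  (∀ y ∈ ys, a ≤ y ∧ y ≤ U) → ys.Pairwise (· ≤ ·) → ContinuousOn F (Ioi 0) →
  ContinuousOn G (Ioi 0) → (∀ v ∈ Icc a U, F v ≤ G v) → fo ys k F U ≤ fo ys k G U

def S_SUF : Prop := ∀ (ys : List ℝ) (k : ℕ) (w g h : ℝ → ℝ) (a U : ℝ), 0 < a → a ≤ U →
  (∀ y ∈ ys, a ≤ y ∧ y ≤ U) → ys.Pairwise (· ≤ ·) → ContinuousOn w (Ioi 0) →
  ContinuousOn g (Ioi 0) → ContinuousOn h (Ioi 0) → (∀ u : ℝ, 0 < u → 0 < w u) →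
  MonotoneOn g (Icc a U) → MonotoneOn h (Icc a U) →
  fo ys k (fun u => g u * w u) U * fo ys k (fun u => h u * w u) U ≤
    fo ys k (fun u => g u * h u * w u) U * fo ys k w U

def S_PRE : Prop := ∀ (ps : List ℝ) (k : ℕ) (F0 E0 c0 : ℝ → ℝ) (a x : ℝ), ps.length ≤ k →
  0 < a → a ≤ x → (∀ p ∈ ps, a ≤ p ∧ p ≤ x) → ps.Pairwise (· ≤ ·) → LapRep k E0 c0 →
  ContinuousOn F0 (Ioi 0) → MonotoneOn (fun v => F0 v / E0 v) (Ici a) →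
  (∃ c : ℝ → ℝ, LapRep (k - ps.length) (fo ps k E0) c) ∧ ContinuousOn (fo ps k F0) (Ioi 0) ∧
  MonotoneOn (fun v => fo ps k F0 v / fo ps k E0 v) (Ici x)

def S_ONE : Prop := ∀ (k : ℕ) (ps ys : List ℝ) (x x' U : ℝ) (F0 E0 c0 : ℝ → ℝ) (a : ℝ),
  ps.length + 1 + ys.length ≤ k → 0 < a → (∀ p ∈ ps, a ≤ p ∧ p ≤ x) → ps.Pairwise (· ≤ ·) →
  a ≤ x → x ≤ x' → x' ≤ U → (∀ y ∈ ys, x' ≤ y ∧ y ≤ U) → ys.Pairwise (· ≤ ·) →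
  LapRep k E0 c0 → ContinuousOn F0 (Ioi 0) → MonotoneOn (fun v => F0 v / E0 v) (Ici a) →
  fo (ps ++ x :: ys) k F0 U * fo (ps ++ x' :: ys) k E0 U ≤
    fo (ps ++ x' :: ys) k F0 U * fo (ps ++ x :: ys) k E0 U

def S_ML : Prop := ∀ (k : ℕ) (xs ys : List ℝ) (U : ℝ) (F0 E0 c0 : ℝ → ℝ) (a : ℝ),
  xs.length ≤ k → 0 < a → a ≤ U → List.Forall₂ (· ≤ ·) xs ys → (∀ x ∈ xs, a ≤ x) →
  (∀ y ∈ ys, y ≤ U) → xs.Pairwise (· ≤ ·) → ys.Pairwise (· ≤ ·) →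
  LapRep k E0 c0 → ContinuousOn F0 (Ioi 0) → MonotoneOn (fun v => F0 v / E0 v) (Ici a) →
  fo xs k F0 U * fo ys k E0 U ≤ fo ys k F0 U * fo xs k E0 U

def S_PAD : Prop := ∀ (xs : List ℝ) (k m : ℕ) (U : ℝ), xs.length + m = k →
  ∃ c : ℝ, 0 < c ∧ ∀ F : ℝ → ℝ, fo (xs ++ List.replicate m U) k F U = c * fo xs k F U

def S_CONG : Prop := ∀ (xs : List ℝ) (k : ℕ) (F G : ℝ → ℝ) (a v : ℝ), (∀ x ∈ xs, a ≤ x) →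
  a ≤ v → (∀ u : ℝ, a ≤ u → F u = G u) → fo xs k F v = fo xs k G v

def S_P1 : Prop := ∀ (d : ℕ) (ρ v : ℝ), 1 ≤ d → 1 ≤ ρ → 1 ≤ v →
  op d 0 (ind ρ) v = (1 / (d : ℝ)) * (min (v ^ ((d : ℝ) / 2)) (ρ ^ d) * v ^ (-((d : ℝ) / 2)))

def S_OPB : Prop := ∀ (k : ℕ) (x : ℝ) (F : ℝ → ℝ) (M : ℝ), 1 ≤ k → Measurable F →
  (∀ v : ℝ, |F v| ≤ M) → Measurable (op k x F) ∧ ∀ v : ℝ, |op k x F v| ≤ M

def S_FOL : Prop := ∀ (xs : List ℝ) (k : ℕ) (F G : ℝ → ℝ) (M s v : ℝ), xs.length ≤ k →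
  Measurable F → Measurable G → (∀ u : ℝ, |F u| ≤ M) → (∀ u : ℝ, |G u| ≤ M) →
  fo xs k (fun u => F u - s * G u) v = fo xs k F v - s * fo xs k G v

def S_WPOS : Prop := ∀ (d : ℕ) (ρ : ℝ), 1 ≤ d → 1 ≤ ρ → 0 < W d ρ

/-- all chains give nonnegative values -/
def S_AN1 : Prop := ∀ (d : ℕ) (r : ℝ) (xs : List ℝ), 2 ≤ d → 1 < r → r ^ 2 < ideal d →
  xs.length < d → xs.Pairwise (· ≤ ·) →
  (∀ (j : ℕ) (h : j < xs.length), ideal (j + 1) ≤ xs[j] ∧ xs[j] < ideal d) →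
  0 ≤ fo (0 :: xs) d (Phi0 d r) (ideal d)

def S_POS : Prop := ∀ (d : ℕ) (F : ℝ → ℝ), 1 ≤ d →
  (∀ xs : List ℝ, xs.length < d → xs.Pairwise (· ≤ ·) →
    (∀ (j : ℕ) (h : j < xs.length), ideal (j + 1) ≤ xs[j] ∧ xs[j] < ideal d) →
    0 ≤ fo (0 :: xs) d F (ideal d)) →
  Pos (ideal d) d 0 F

def S_AN : Prop := ∀ (d : ℕ) (r : ℝ), 2 ≤ d → 1 < r → r ^ 2 < ideal d →
  Pos (ideal d) d 0 (Phi0 d r)

/-! ### Cone decomposition -/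

def cell {n : ℕ} {ι : Type} (a : ι → E n) (b : ι → ℝ) : Set (E n) :=
  {z | ∀ j, inner ℝ (a j) z ≤ b j}

def J (n : ℕ) (U x : ℝ) (C : Set (E n)) (F : ℝ → ℝ) : ℝ :=
  ∫ z in {z : E n | z ∈ C ∧ x + ‖z‖ ^ 2 < U}, F (x + ‖z‖ ^ 2)

def foot {n : ℕ} (a : E n) (b : ℝ) : E n := (b / ‖a‖ ^ 2) • a

def hh {n : ℕ} (a : E n) (b : ℝ) : ℝ := b / ‖a‖

def coneOver {n : ℕ} (p : E (n + 1)) (φ : E n →ₗᵢ[ℝ] E (n + 1)) (K : Set (E n)) :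
    Set (E (n + 1)) :=
  {z | ∃ t ∈ Ioc (0:ℝ) 1, ∃ w ∈ K, z = t • (p + φ w)}

def Kf {n : ℕ} {ι : Type} (a : ι → E (n + 1)) (b : ι → ℝ) (φ : ι → (E n →ₗᵢ[ℝ] E (n + 1)))
    (U x : ℝ) (j : ι) : Set (E n) :=
  {w | (∀ l, l ≠ j → inner ℝ (a l) (foot (a j) (b j) + φ j w) < b l) ∧
    x + hh (a j) (b j) ^ 2 + ‖w‖ ^ 2 < U}

def Rg {n : ℕ} {ι : Type} (a : ι → E (n + 1)) (b : ι → ℝ) (φ : ι → (E n →ₗᵢ[ℝ] E (n + 1)))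
    (U x : ℝ) (j : ι) : Set (E (n + 1)) :=
  coneOver (foot (a j) (b j)) (φ j) (Kf a b φ U x j)

def Tie {n : ℕ} {ι : Type} (a : ι → E n) (b : ι → ℝ) (G : Finset ι) : Set (E n) :=
  {z | ∃ j ∈ G, ∃ l, l ≠ j ∧ b l * inner ℝ (a j) z = b j * inner ℝ (a l) z}

/-- standing assumptions of the cone decomposition -/
structure Sys {n : ℕ} {ι : Type} (a : ι → E (n + 1)) (b : ι → ℝ)
    (φ : ι → (E n →ₗᵢ[ℝ] E (n + 1))) (G : Finset ι) (U x : ℝ) : Prop where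
  lt : x < U
  bpos : ∀ j, 0 < b j
  good : ∀ j, j ∈ G ↔ (a j ≠ 0 ∧ x + hh (a j) (b j) ^ 2 < U)
  orth : ∀ j ∈ G, ∀ w, inner ℝ (a j) (φ j w) = 0
  ndup : ∀ j ∈ G, ∀ l, l ≠ j → b l • a j ≠ b j • a l

def S_MP : Prop := ∀ (n : ℕ) (u : E (n + 1)) (φ : E n →ₗᵢ[ℝ] E (n + 1)), ‖u‖ = 1 →
  (∀ w, inner ℝ u (φ w) = 0) →
  MeasurePreserving (fun p : ℝ × E n => p.1 • u + φ p.2) volume volume ∧
  Function.Bijective (fun p : ℝ × E n => p.1 • u + φ p.2)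

def S_CONE : Prop := ∀ (n : ℕ) (u : E (n + 1)) (φ : E n →ₗᵢ[ℝ] E (n + 1)) (h : ℝ)
  (K : Set (E n)) (F : E (n + 1) → ℝ) (M : ℝ), ‖u‖ = 1 → (∀ w, inner ℝ u (φ w) = 0) → 0 < h →
  MeasurableSet K → Bornology.IsBounded K → Measurable F → (∀ z, |F z| ≤ M) →
  MeasurableSet (coneOver (h • u) φ K) ∧
  ∫ z in coneOver (h • u) φ K, F z =
    h * ∫ w in K, ∫ t in (0:ℝ)..1, t ^ n * F (t • (h • u + φ w))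

def S_RAD : Prop := ∀ (n : ℕ) (R : ℝ) (D : Set (E (n + 1))) (g : ℝ → ℝ) (M : ℝ), 0 < R →
  MeasurableSet D → (∀ z ∈ D, ‖z‖ < R) → (∀ z ∈ D, ∀ c : ℝ, 0 < c → ‖c • z‖ < R → c • z ∈ D) →
  Measurable g → (∀ v, |g v| ≤ M) →
  ∃ A : ℝ, 0 ≤ A ∧ ∫ z in D, g ‖z‖ = A * ∫ t in (0:ℝ)..1, t ^ n * g (t * R)

def S_ONTO : Prop := ∀ (n : ℕ) (a : E (n + 1)) (φ : E n →ₗᵢ[ℝ] E (n + 1)), a ≠ 0 →
  (∀ w, inner ℝ a (φ w) = 0) → ∀ y, inner ℝ a y = 0 → ∃ w, φ w = y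

def S_PHI : Prop := ∀ (n : ℕ) (a : E (n + 1)), a ≠ 0 →
  ∃ φ : E n →ₗᵢ[ℝ] E (n + 1), ∀ w, inner ℝ a (φ w) = 0

def S_NUL : Prop := ∀ (n : ℕ) (ι : Type) (_ : Fintype ι) (a : ι → E n) (b : ι → ℝ)
  (G : Finset ι), (∀ j ∈ G, ∀ l, l ≠ j → b l • a j ≠ b j • a l) →
  MeasurableSet (Tie a b G) ∧ volume (Tie a b G) = 0

def S_DIS : Prop := ∀ (n : ℕ) (ι : Type) (_ : Fintype ι) (a : ι → E (n + 1)) (b : ι → ℝ)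
  (φ : ι → (E n →ₗᵢ[ℝ] E (n + 1))) (G : Finset ι) (U x : ℝ), Sys a b φ G U x →
  ∀ j ∈ G, ∀ l ∈ G, j ≠ l → Disjoint (Rg a b φ U x j) (Rg a b φ U x l)

def S_SUB : Prop := ∀ (n : ℕ) (ι : Type) (_ : Fintype ι) (a : ι → E (n + 1)) (b : ι → ℝ)
  (φ : ι → (E n →ₗᵢ[ℝ] E (n + 1))) (G : Finset ι) (U x : ℝ), Sys a b φ G U x →
  ∀ j ∈ G, Rg a b φ U x j ⊆ {z | z ∈ cell a b ∧ x + ‖z‖ ^ 2 < U}

def S_DEC : Prop := ∀ (n : ℕ) (ι : Type) (_ : Fintype ι) (a : ι → E (n + 1)) (b : ι → ℝ)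
  (φ : ι → (E n →ₗᵢ[ℝ] E (n + 1))) (G : Finset ι) (U x : ℝ), Sys a b φ G U x →
  ∀ z, z ∈ cell a b → x + ‖z‖ ^ 2 < U → z ∉ Tie a b G → (∀ j ∈ G, z ∉ Rg a b φ U x j) →
  ∀ c : ℝ, 0 < c → x + ‖c • z‖ ^ 2 < U →
    c • z ∈ cell a b ∧ c • z ∉ Tie a b G ∧ ∀ j ∈ G, c • z ∉ Rg a b φ U x j

def S_KNU : Prop := ∀ (n : ℕ) (ι : Type) (_ : Fintype ι) (a : ι → E (n + 1)) (b : ι → ℝ)
  (φ : ι → (E n →ₗᵢ[ℝ] E (n + 1))) (G : Finset ι) (U x : ℝ) (F : ℝ → ℝ), Sys a b φ G U x →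
  ∀ j ∈ G, MeasurableSet (Kf a b φ U x j) ∧ Bornology.IsBounded (Kf a b φ U x j) ∧
    J n U (x + hh (a j) (b j) ^ 2) {w | foot (a j) (b j) + φ j w ∈ cell a b} F =
      ∫ w in Kf a b φ U x j, F (x + hh (a j) (b j) ^ 2 + ‖w‖ ^ 2)

def S_CPC : Prop := ∀ (n : ℕ) (ι : Type) (_ : Fintype ι) (a : ι → E (n + 1)) (b : ι → ℝ)
  (φ : ι → (E n →ₗᵢ[ℝ] E (n + 1))) (G : Finset ι) (U x : ℝ) (F : ℝ → ℝ) (M : ℝ),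
  Sys a b φ G U x → Measurable F → (∀ v, |F v| ≤ M) →
  ∀ j ∈ G, MeasurableSet (Rg a b φ U x j) ∧
    ∫ z in Rg a b φ U x j, F (x + ‖z‖ ^ 2) =
      hh (a j) (b j) * J n U (x + hh (a j) (b j) ^ 2)
        {w | foot (a j) (b j) + φ j w ∈ cell a b} (op (n + 1) x F)

def S_CDL : Prop := ∀ (n : ℕ) (ι : Type) (_ : Fintype ι) (a : ι → E (n + 1)) (b : ι → ℝ)
  (φ : ι → (E n →ₗᵢ[ℝ] E (n + 1))) (G : Finset ι) (U x : ℝ) (F : ℝ → ℝ) (M : ℝ),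
  Sys a b φ G U x → Measurable F → (∀ v, |F v| ≤ M) → 0 ≤ op (n + 1) x F U →
  ∑ j ∈ G, hh (a j) (b j) * J n U (x + hh (a j) (b j) ^ 2)
    {w | foot (a j) (b j) + φ j w ∈ cell a b} (op (n + 1) x F) ≤ J (n + 1) U x (cell a b) F

/-! ### Faces of Voronoi cells -/

def Pk {d : ℕ} (X : Finset (E d)) : Prop := ∀ c ∈ X, ∀ c' ∈ X, c ≠ c' → 2 ≤ ‖c - c'‖

def pr {k d : ℕ} (L : E k →ₗᵢ[ℝ] E d) (v : E d) : E k :=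
  ContinuousLinearMap.adjoint L.toContinuousLinearMap v

def av {k d : ℕ} (L : E k →ₗᵢ[ℝ] E d) (m c : E d) : E k := (2:ℝ) • pr L (c - m)

def bv {d : ℕ} (m : E d) (x : ℝ) (c : E d) : ℝ := ‖c - m‖ ^ 2 - x

structure IsFace {d : ℕ} (k : ℕ) (X S : Finset (E d)) (c0 m : E d) (L : E k →ₗᵢ[ℝ] E d)
    (x : ℝ) : Prop where
  sub : S ⊆ X
  mem : c0 ∈ S
  card : S.card + k = d + 1
  rad : ∀ c ∈ S, ‖c - m‖ ^ 2 = x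
  orth : ∀ c ∈ S, ∀ z, inner ℝ (c - m) (L z) = 0
  far : ∀ c ∈ X, c ∉ S → 4 - x ≤ ‖c - m‖ ^ 2

def fcell {d k : ℕ} (X S : Finset (E d)) (c0 m : E d) (L : E k →ₗᵢ[ℝ] E d) : Set (E k) :=
  {z | ∀ c ∈ X, c ∉ S → ‖m + L z - c0‖ ≤ ‖m + L z - c‖}

def S_PR : Prop := ∀ (k d : ℕ) (L : E k →ₗᵢ[ℝ] E d) (v : E d),
  (∀ z, inner ℝ (pr L v) z = inner ℝ v (L z)) ∧ ‖pr L v‖ ≤ ‖v‖

def S_CEL : Prop := ∀ (d k : ℕ) (X S : Finset (E d)) (c0 m : E d) (L : E k →ₗᵢ[ℝ] E d) (x : ℝ),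
  IsFace k X S c0 m L x →
  fcell X S c0 m L = {z | ∀ c ∈ X, c ∉ S → inner ℝ (av L m c) z ≤ bv m x c}

def S_XST : Prop := ∀ (d k : ℕ) (X S : Finset (E d)) (c0 m : E d) (L : E k →ₗᵢ[ℝ] E d) (x : ℝ)
  (c : E d), IsFace k X S c0 m L x → x < 2 → c ∈ X → c ∉ S → av L m c ≠ 0 →
  0 < bv m x c ∧ 0 ≤ x ∧ phi x ≤ x + hh (av L m c) (bv m x c) ^ 2

def S_ORT : Prop := ∀ (d n : ℕ) (X S : Finset (E d)) (c0 m : E d) (L : E (n + 1) →ₗᵢ[ℝ] E d)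
  (x : ℝ) (c : E d) (φ : E n →ₗᵢ[ℝ] E (n + 1)), IsFace (n + 1) X S c0 m L x → c ∈ X → c ∉ S →
  av L m c ≠ 0 → (∀ w, inner ℝ (av L m c) (φ w) = 0) →
  ∀ c' ∈ insert c S, ‖c' - (m + L (foot (av L m c) (bv m x c)))‖ ^ 2 =
      x + hh (av L m c) (bv m x c) ^ 2 ∧
    ∀ w, inner ℝ (c' - (m + L (foot (av L m c) (bv m x c)))) ((L.comp φ) w) = 0

def S_NEG : Prop := ∀ (d : ℕ) (ι : Type) (_ : Fintype ι) (u : ι → E d),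
  (∀ i j, i ≠ j → inner ℝ (u i) (u j) < 0) → ¬ LinearIndependent ℝ u →
  ∃ μ : ι → ℝ, (∀ i, 0 ≤ μ i) ∧ ∑ i, μ i = 1 ∧ ∑ i, μ i • u i = 0

def S_WGT : Prop := ∀ (d n : ℕ) (S : Finset (E d)) (m : E d) (L : E n →ₗᵢ[ℝ] E d),
  S.card + n = d + 1 → (∀ c ∈ S, ∀ w, inner ℝ (c - m) (L w) = 0) →
  (∀ c ∈ S, ∀ c' ∈ S, c ≠ c' → inner ℝ (c - m) (c' - m) < 0) →
  ∃ μ : E d → ℝ, (∀ c ∈ S, 0 ≤ μ c) ∧ ∑ c ∈ S, μ c = 1 ∧ ∑ c ∈ S, μ c • (c - m) = 0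

def S_FAR : Prop := ∀ (d : ℕ) (S : Finset (E d)) (m q : E d) (x : ℝ) (μ : E d → ℝ),
  (∀ c ∈ S, 0 ≤ μ c) → ∑ c ∈ S, μ c = 1 → ∑ c ∈ S, μ c • (c - m) = 0 →
  (∀ c ∈ S, ‖c - m‖ ^ 2 = x) → (∀ c ∈ S, 2 ≤ ‖q - c‖) → 4 - x ≤ ‖q - m‖ ^ 2

def S_STEP : Prop := ∀ (d n : ℕ) (X S : Finset (E d)) (c0 m : E d) (L : E (n + 1) →ₗᵢ[ℝ] E d)
  (x : ℝ) (c : E d) (φ : E n →ₗᵢ[ℝ] E (n + 1)), Pk X → IsFace (n + 1) X S c0 m L x → c ∈ X →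
  c ∉ S → av L m c ≠ 0 → (∀ w, inner ℝ (av L m c) (φ w) = 0) →
  x + hh (av L m c) (bv m x c) ^ 2 < 2 →
  IsFace n X (insert c S) c0 (m + L (foot (av L m c) (bv m x c))) (L.comp φ)
    (x + hh (av L m c) (bv m x c) ^ 2)

def S_CEQ : Prop := ∀ (d n : ℕ) (X S : Finset (E d)) (c0 m : E d) (L : E (n + 1) →ₗᵢ[ℝ] E d)
  (x : ℝ) (c : E d) (φ : E n →ₗᵢ[ℝ] E (n + 1)), Pk X → IsFace (n + 1) X S c0 m L x → c ∈ X →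
  c ∉ S → av L m c ≠ 0 → (∀ w, inner ℝ (av L m c) (φ w) = 0) →
  x + hh (av L m c) (bv m x c) ^ 2 < 2 →
  fcell X (insert c S) c0 (m + L (foot (av L m c) (bv m x c))) (L.comp φ) =
    {w | foot (av L m c) (bv m x c) + φ w ∈ fcell X S c0 m L}

def S_NDU : Prop := ∀ (d n : ℕ) (X S : Finset (E d)) (c0 m : E d) (L : E (n + 1) →ₗᵢ[ℝ] E d)
  (x : ℝ) (c : E d), Pk X → IsFace (n + 1) X S c0 m L x → c ∈ X →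
  c ∉ S → av L m c ≠ 0 → x + hh (av L m c) (bv m x c) ^ 2 < 2 → ∀ c' ∈ X, c' ∉ S → c' ≠ c →
  bv m x c' • av L m c ≠ bv m x c • av L m c'

def S_GEO : Prop := ∀ (d k : ℕ) (X S : Finset (E d)) (c0 m : E d) (L : E k →ₗᵢ[ℝ] E d)
  (x U : ℝ) (F : ℝ → ℝ) (M : ℝ), Pk X → IsFace k X S c0 m L x → x < U → U < 2 → Measurable F →
  (∀ v, |F v| ≤ M) → Pos U k x F → 0 ≤ J k U x (fcell X S c0 m L) F

/-- the volume of the truncated Voronoi cell -/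
def S_TOP : Prop := ∀ (d : ℕ) (r : ℝ) (X : Finset (E d)) (c0 : E d), 2 ≤ d → 1 < r →
  r ^ 2 < ideal d → Pk X → c0 ∈ X →
  ENNReal.ofReal (tau d r) * volume (Metric.closedBall (0 : E d) 1) ≤
    volume {z : E d | ‖z‖ ≤ r ∧ ∀ c ∈ X, c ≠ c0 → ‖z‖ < ‖c0 + z - c‖}

def S_VOR : Prop := ∀ (d n : ℕ) (r : ℝ) (c : Fin n → E d) (X : Finset (E d)) (A : ℝ≥0∞),
  Function.Injective c → (∀ p, p ∈ X ↔ ∃ i, c i = p) →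
  (∀ i, A ≤ volume {z : E d | ‖z‖ ≤ r ∧ ∀ p ∈ X, p ≠ c i → ‖z‖ < ‖c i + z - p‖}) →
  (n : ℝ≥0∞) * A ≤ volume (⋃ i : Fin n, Metric.closedBall (c i) r)

/-! ### The regular simplex -/

def Reg {d : ℕ} (t : Fin (d + 1) → E d) : Prop := ∀ i j, i ≠ j → dist (t i) (t j) = 2

def S_BAR : Prop := ∀ (d : ℕ) (t : Fin (d + 1) → E d), Reg t → ∀ β : Fin (d + 1) → ℝ,
  ∑ i, β i = 1 → ∀ j, ‖∑ i, β i • t i - t j‖ ^ 2 = 2 * (∑ i, β i ^ 2 - 2 * β j + 1)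

def yreg {d : ℕ} (t : Fin (d + 1) → E d) (A : Set (E d)) : Set (Fin (d + 1) → ℝ) :=
  {y | (∀ i, 0 ≤ y i) ∧ 0 < ∑ i, y i ∧ ∑ i, y i ≤ 1 ∧ (∑ i, y i)⁻¹ • ∑ i, y i • t i ∈ A}

def S_CNV : Prop := ∀ (d : ℕ) (t : Fin (d + 1) → E d), 1 ≤ d → Reg t → ∃ K : ℝ≥0∞, K ≠ ∞ ∧
  ∀ A : Set (E d), A ⊆ convexHull ℝ (range t) → MeasurableSet A →
    volume A = K * volume (yreg t A)

def S_PRM : Prop := ∀ (n : ℕ) (B : Set (Fin n → ℝ)), MeasurableSet B →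
  (∀ σ : Equiv.Perm (Fin n), ∀ y ∈ B, (fun i => y (σ i)) ∈ B) →
  volume B = (n.factorial : ℝ≥0∞) * volume (B ∩ {y | Antitone y})

/-- y-region: squared distance to the nearest vertex at most rho -/
def yball (d : ℕ) (ρ : ℝ) : Set (Fin (d + 1) → ℝ) :=
  {y | Antitone y ∧ (∀ i, 0 ≤ y i) ∧ 0 < ∑ i, y i ∧ ∑ i, y i ≤ 1 ∧
    2 * (∑ i, y i ^ 2 - 2 * y 0 * ∑ i, y i + (∑ i, y i) ^ 2) ≤ ρ ^ 2 * (∑ i, y i) ^ 2}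

def lball (d : ℕ) (ρ : ℝ) : Set (Fin (d + 1) → ℝ) :=
  {y | Antitone y ∧ (∀ i, 0 ≤ y i) ∧ 0 < y 0 ∧ y 0 ≤ 1 ∧
    ∑ i : Fin d, 2 / (((i : ℕ) + 1 : ℝ) * ((i : ℕ) + 2)) * y i.succ ^ 2 ≤ ρ ^ 2 * y 0 ^ 2}

def mball (d : ℕ) (ρ : ℝ) : Set (Fin d → ℝ) :=
  {y | Antitone y ∧ (∀ i, 0 ≤ y i ∧ y i ≤ 1) ∧
    ∑ i : Fin d, 2 / (((i : ℕ) + 1 : ℝ) * ((i : ℕ) + 2)) * y i ^ 2 ≤ ρ ^ 2}

/-- the linear map from Lambda coordinates to y coordinates -/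
def lam2y (d : ℕ) (l : Fin (d + 1) → ℝ) : Fin (d + 1) → ℝ := fun j =>
  l j / ((j : ℕ) + 1 : ℝ) -
    ∑ i ∈ Finset.univ.filter (fun i : Fin (d + 1) => j < i), l i / (((i : ℕ) : ℝ) * ((i : ℕ) + 1))

def S_QID : Prop := ∀ (d : ℕ) (l : Fin (d + 1) → ℝ), ∑ j, lam2y d l j = l 0 ∧
  2 * (∑ j, lam2y d l j ^ 2 - 2 * lam2y d l 0 * l 0 + l 0 ^ 2) =
    ∑ i : Fin d, 2 / (((i : ℕ) + 1 : ℝ) * ((i : ℕ) + 2)) * l i.succ ^ 2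

def S_LAM : Prop := ∀ (d : ℕ), ∃ K : ℝ≥0∞, K ≠ ∞ ∧ ∀ ρ : ℝ,
  volume (yball d ρ) = K * volume (lball d ρ)

def S_SCL : Prop := ∀ (d : ℕ) (ρ : ℝ), 0 ≤ ρ →
  volume (lball d ρ) = ENNReal.ofReal (1 / ((d : ℝ) + 1)) * volume (mball d ρ)

def S_ORD : Prop := ∀ (n : ℕ) (x : ℕ → ℝ) (F : ℝ → ℝ) (M : ℝ), Measurable F → (∀ v, |F v| ≤ M) →
  ∫ y in {y : Fin n → ℝ | Antitone y ∧ ∀ i, 0 ≤ y i ∧ y i ≤ 1},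
    F (x 0 + ∑ i : Fin n, (x ((i : ℕ) + 1) - x i) * y i ^ 2) =
  fo ((List.range n).map x) n F (x n)

def S_MBW : Prop := ∀ (d : ℕ) (ρ : ℝ), 1 ≤ d → volume (mball d ρ) = ENNReal.ofReal (W d ρ)

def S_SYM : Prop := ∀ (d : ℕ) (t : Fin (d + 1) → E d) (ρ : ℝ), 1 ≤ d → Reg t →
  volume (convexHull ℝ (range t) ∩ ⋃ i, Metric.closedBall (t i) ρ) ≤
    ((d : ℝ≥0∞) + 1) * volume (convexHull ℝ (range t) ∩ Metric.closedBall (t 0) ρ)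

def S_SIM : Prop := ∀ (d : ℕ) (t : Fin (d + 1) → E d), 1 ≤ d → Reg t → ∃ K : ℝ≥0∞, K ≠ ∞ ∧
  ∀ ρ : ℝ, 0 ≤ ρ → volume (convexHull ℝ (range t) ∩ ⋃ i, Metric.closedBall (t i) ρ) =
    K * ENNReal.ofReal (W d ρ)

def S_FIN : Prop := ∀ (d : ℕ), 3 ≤ d →
    ∀ (lam : ℝ), 0 < lam → lam < Real.sqrt (2 * (d : ℝ) / ((d : ℝ) + 1)) - 1 →
    ∀ (n : ℕ), 1 < n →
    ∀ (c : Fin n → EuclideanSpace ℝ (Fin d)),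
      (∀ i j, i ≠ j → 2 ≤ dist (c i) (c j)) →
    ∀ (t : Fin (d + 1) → EuclideanSpace ℝ (Fin d)),
      (∀ i j, i ≠ j → dist (t i) (t j) = 2) →
      (n : ENNReal) * MeasureTheory.volume (Metric.closedBall (0 : EuclideanSpace ℝ (Fin d)) 1)
        * MeasureTheory.volume (convexHull ℝ (Set.range t) ∩
            ⋃ i : Fin (d + 1), Metric.closedBall (t i) (1 + lam))
      ≤ ((d : ENNReal) + 1)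
        * MeasureTheory.volume (convexHull ℝ (Set.range t) ∩ Metric.closedBall (t 0) 1)
        * MeasureTheory.volume (⋃ i : Fin n, Metric.closedBall (c i) (1 + lam))

end Pool.Agent.H41R2.OP
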