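import Mathlib
import Pool.Agent.H41R2.OP.Defs

set_option autoImplicit false

noncomputable section

open MeasureTheory Set

namespace Pool.Agent.H41R2.OP

theorem DIS_foot {n : ℕ} (a : E n) (b : ℝ) (ha : a ≠ 0) : inner ℝ a (foot a b) = b := by
  unfold foot
  rw [inner_smul_right, real_inner_self_eq_norm_sq]
  have : ‖a‖ ^ 2 ≠ 0 := by positivity
  field_simp

theorem DIS : S_DIS := by
  intro n ι _ a b φ G U x hsys j hj l hl hjl
  rw [Set.disjoint_left]
  rintro z ⟨t, ht, w, hw, rfl⟩ ⟨t', ht', w', hw', heq⟩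
  have haj : a j ≠ 0 := ((hsys.good j).mp hj).1
  have hal : a l ≠ 0 := ((hsys.good l).mp hl).1
  have e1 : inner ℝ (a j) (t • (foot (a j) (b j) + φ j w)) = t * b j := by
    rw [inner_smul_right, inner_add_right, DIS_foot _ _ haj, hsys.orth j hj, add_zero]
  have e2 : inner ℝ (a l) (t' • (foot (a l) (b l) + φ l w')) = t' * b l := by
    rw [inner_smul_right, inner_add_right, DIS_foot _ _ hal, hsys.orth l hl, add_zero]
  have h1 : inner ℝ (a l) (t • (foot (a j) (b j) + φ j w)) < t * b l := by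
    rw [inner_smul_right]
    exact mul_lt_mul_of_pos_left (hw.1 l (Ne.symm hjl)) ht.1
  have h2 : inner ℝ (a j) (t' • (foot (a l) (b l) + φ l w')) < t' * b j := by
    rw [inner_smul_right]
    exact mul_lt_mul_of_pos_left (hw'.1 j hjl) ht'.1
  rw [heq, e2] at h1
  rw [← heq, e1] at h2
  have h3 := lt_of_mul_lt_mul_right h1 (hsys.bpos l).le
  have h4 := lt_of_mul_lt_mul_right h2 (hsys.bpos j).le
  exact absurd h3 (not_lt.mpr h4.le)

end Pool.Agent.H41R2.OP
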