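import Pool.Agent.H41R2.OP.Defs

/-! FAR (helper778 for helper41). -/

set_option autoImplicit false

noncomputable section

open MeasureTheory Set
open scoped ENNReal Topology

namespace Pool.Agent.H41R2.OP

theorem FAR : S_FAR := by
  intro d S m q x μ h0 h1 h2 h3 h4
  have key : ∑ c ∈ S, μ c * ‖q - c‖ ^ 2 = ‖q - m‖ ^ 2 + x := by
    have h5 : ∀ c ∈ S, μ c * ‖q - c‖ ^ 2 =
        μ c * (‖q - m‖ ^ 2 + x) - 2 * inner ℝ (q - m) (μ c • (c - m)) := by
      intro c hc
      have e : q - c = (q - m) - (c - m) := by abel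
      rw [e, norm_sub_sq_real, h3 c hc, real_inner_smul_right]
      ring
    rw [Finset.sum_congr rfl h5, Finset.sum_sub_distrib, ← Finset.sum_mul, h1, ← Finset.mul_sum,
      ← inner_sum, h2, inner_zero_right]
    ring
  have h6 : ∑ c ∈ S, μ c * 4 ≤ ∑ c ∈ S, μ c * ‖q - c‖ ^ 2 := by
    refine Finset.sum_le_sum fun c hc => mul_le_mul_of_nonneg_left ?_ (h0 c hc)
    have := h4 c hc
    nlinarith
  rw [← Finset.sum_mul, h1, key] at h6
  linarith

end Pool.Agent.H41R2.OP
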