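import Pool.Agent.H41R2.OP.Defs

set_option autoImplicit false

noncomputable section

open MeasureTheory Set
open scoped ENNReal Topology

namespace Pool.Agent.H41R2.OP

theorem FIN (h1 : S_TOP) (h2 : S_VOR) (h3 : S_SIM) (h4 : S_SYM) (h5 : S_WPOS) : S_FIN := by
  classical
  intro d hd lam hlam hlam2 n hn c hc t ht
  have hd1 : 1 ≤ d := by omega
  have hr1 : 1 < 1 + lam := by linarith
  have hr0 : (0 : ℝ) ≤ 1 + lam := by linarith
  have hid0 : (0 : ℝ) ≤ 2 * (d : ℝ) / ((d : ℝ) + 1) := by positivity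
  have hr2 : (1 + lam) ^ 2 < ideal d := by
    have h6 : 1 + lam < Real.sqrt (2 * (d : ℝ) / ((d : ℝ) + 1)) := by linarith
    have h7 := Real.sq_sqrt hid0
    unfold ideal
    rw [← h7]
    exact pow_lt_pow_left₀ h6 hr0 two_ne_zero
  have hinj : Function.Injective c := by
    intro i j hij
    by_contra hne
    have := hc i j hne
    rw [hij, dist_self] at this
    linarith
  set X : Finset (E d) := Finset.univ.image c with hX
  have hXm : ∀ p, p ∈ X ↔ ∃ i, c i = p := by
    intro p
    rw [hX, Finset.mem_image]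
    simp
  have hPk : Pk X := by
    intro p hp q hq hne
    obtain ⟨i, rfl⟩ := (hXm p).1 hp
    obtain ⟨j, rfl⟩ := (hXm q).1 hq
    have hij : i ≠ j := by
      rintro rfl
      exact hne rfl
    have := hc i j hij
    rwa [dist_eq_norm] at this
  have hV := h2 d n (1 + lam) c X
    (ENNReal.ofReal (tau d (1 + lam)) * volume (Metric.closedBall (0 : E d) 1)) hinj hXm
    (fun i => h1 d (1 + lam) X (c i) (by omega) hr1 hr2 hPk ((hXm _).2 ⟨i, rfl⟩))
  obtain ⟨K, hK, hK2⟩ := h3 d t hd1 ht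
  have hKr := hK2 (1 + lam) hr0
  have hK1 := hK2 1 (by norm_num)
  have hS := h4 d t 1 hd1 ht
  rw [hK1] at hS
  have hW1 := h5 d 1 hd1 le_rfl
  have hWr := h5 d (1 + lam) hd1 hr1.le
  have htau : 0 ≤ tau d (1 + lam) := by
    unfold tau
    positivity
  have hWW : ENNReal.ofReal (W d (1 + lam)) =
      ENNReal.ofReal (tau d (1 + lam)) * ENNReal.ofReal (W d 1) := by
    rw [← ENNReal.ofReal_mul htau]
    congr 1
    unfold tau
    rw [div_mul_cancel₀ _ hW1.ne']
  rw [hKr, hWW]
  calc (n : ENNReal) * volume (Metric.closedBall (0 : EuclideanSpace ℝ (Fin d)) 1) *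
        (K * (ENNReal.ofReal (tau d (1 + lam)) * ENNReal.ofReal (W d 1)))
      = ((n : ENNReal) * (ENNReal.ofReal (tau d (1 + lam)) *
          volume (Metric.closedBall (0 : E d) 1))) * (K * ENNReal.ofReal (W d 1)) := by ring
    _ ≤ volume (⋃ i : Fin n, Metric.closedBall (c i) (1 + lam)) *
        (((d : ℝ≥0∞) + 1) * volume (convexHull ℝ (range t) ∩ Metric.closedBall (t 0) 1)) :=
        mul_le_mul' hV hS
    _ = _ := by ring

end Pool.Agent.H41R2.OP
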