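import Pool.Agent.H41R2.OP.Defs

set_option autoImplicit false

noncomputable section

open MeasureTheory Set
open scoped ENNReal Topology

namespace Pool.Agent.H41R2.OP

theorem FOL_int (k : ℕ) (x v : ℝ) (F : ℝ → ℝ) (M : ℝ) (hF : Measurable F)
    (hM : ∀ u : ℝ, |F u| ≤ M) :
    IntervalIntegrable (fun t : ℝ => t ^ (k - 1) * F (x + t ^ 2 * (v - x))) volume 0 1 := by
  rw [intervalIntegrable_iff, uIoc_of_le zero_le_one]
  refine Measure.integrableOn_of_bounded (M := M) (by simp) ?_ ?_
  · exact ((measurable_id.pow_const _).mul (hF.comp (by fun_prop))).aestronglyMeasurable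
  · refine (ae_restrict_iff' measurableSet_Ioc).2 (Filter.Eventually.of_forall fun t ht => ?_)
    have hM0 : 0 ≤ M := (abs_nonneg _).trans (hM 0)
    rw [norm_mul, Real.norm_eq_abs, Real.norm_eq_abs, abs_pow, abs_of_pos ht.1]
    calc t ^ (k - 1) * |F (x + t ^ 2 * (v - x))| ≤ 1 * M :=
          mul_le_mul (pow_le_one₀ ht.1.le ht.2) (hM _) (abs_nonneg _) zero_le_one
      _ = M := one_mul M

theorem FOL_op (k : ℕ) (x : ℝ) (F G : ℝ → ℝ) (M s : ℝ) (hF : Measurable F) (hG : Measurable G)
    (hM : ∀ u : ℝ, |F u| ≤ M) (hN : ∀ u : ℝ, |G u| ≤ M) :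
    op k x (fun u => F u - s * G u) = fun v => op k x F v - s * op k x G v := by
  funext v
  unfold op
  rw [← intervalIntegral.integral_const_mul,
    ← intervalIntegral.integral_sub (FOL_int k x v F M hF hM)
      ((FOL_int k x v G M hG hN).const_mul s)]
  refine intervalIntegral.integral_congr fun t _ => ?_
  ring

theorem FOL (h : S_OPB) : S_FOL := by
  intro xs
  induction xs with
  | nil =>
    intro k F G M s v _ _ _ _ _
    rfl
  | cons x xs ih =>
    intro k F G M s v hk hF hG hM hN
    have hk1 : 1 ≤ k := by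
      rw [List.length_cons] at hk
      omega
    have hk2 : xs.length ≤ k - 1 := by
      rw [List.length_cons] at hk
      omega
    obtain ⟨h1, h2⟩ := h k x F M hk1 hF hM
    obtain ⟨h3, h4⟩ := h k x G M hk1 hG hN
    show fo xs (k - 1) (op k x (fun u => F u - s * G u)) v =
      fo xs (k - 1) (op k x F) v - s * fo xs (k - 1) (op k x G) v
    rw [FOL_op k x F G M s hF hG hM hN]
    exact ih (k - 1) (op k x F) (op k x G) M s v hk2 h1 h3 h2 h4

end Pool.Agent.H41R2.OP
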