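import Pool.Agent.H41R2.OP.Defs

/-!
# Monotonicity of the iterated operator (helper742)
-/

set_option autoImplicit false

open MeasureTheory Set

namespace Pool.Agent.H41R2.OP

theorem FOM (h1 : S_CNT) (h2 : S_OPM) : S_FOM := by
  intro ys
  induction ys with
  | nil =>
    intro k F G a U ha haU _ _ _ _ hFG
    exact hFG U ⟨haU, le_refl U⟩
  | cons y ys ih =>
    intro k F G a U ha haU hys hpw hF hG hFG
    have hy := hys y List.mem_cons_self
    have hy0 : 0 < y := lt_of_lt_of_le ha hy.1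
    rw [List.pairwise_cons] at hpw
    show fo ys (k - 1) (op k y F) U ≤ fo ys (k - 1) (op k y G) U
    refine ih (k - 1) (op k y F) (op k y G) y U hy0 hy.2 ?_ hpw.2 (h1 k y F hy0 hF)
      (h1 k y G hy0 hG) ?_
    · intro z hz
      exact ⟨hpw.1 z hz, (hys z (List.mem_cons_of_mem _ hz)).2⟩
    · intro v hv
      refine h2 k y v F G hy0 (lt_of_lt_of_le hy0 hv.1) hF hG ?_
      intro u hu
      rw [uIcc_of_le hv.1] at hu
      exact hFG u ⟨hy.1.trans hu.1, hu.2.trans hv.2⟩

end Pool.Agent.H41R2.OP
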