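import Pool.Agent.H41R2.OP.Defs

set_option autoImplicit false

noncomputable section

open MeasureTheory Set
open scoped ENNReal Topology

namespace Pool.Agent.H41R2.OP

theorem FOP (h1 : S_CNT) (h2 : S_OPP) : S_FOP := by
  intro ys
  induction ys with
  | nil =>
    intro k F _ hF
    exact ⟨hF, fun h v hv => h v hv⟩
  | cons y ys ih =>
    intro k F hy hF
    have hy0 : 0 < y := hy y List.mem_cons_self
    obtain ⟨h3, h4⟩ := ih (k - 1) (op k y F) (fun z hz => hy z (List.mem_cons_of_mem _ hz))
      (h1 k y F hy0 hF)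
    exact ⟨h3, fun hpos => h4 (h2 k y F hy0 hF hpos)⟩

end Pool.Agent.H41R2.OP
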