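import Pool.Agent.H41R2.OP.Defs

set_option autoImplicit false

noncomputable section

open MeasureTheory Set
open scoped ENNReal Topology

namespace Pool.Agent.H41R2.OP

theorem GEO (h1 : S_CDL) (h2 : S_STEP) (h3 : S_CEQ) (h4 : S_NDU) (h5 : S_XST) (h6 : S_PHI)
    (h7 : S_OPB) (h8 : S_CEL) : S_GEO := by
  classical
  intro d k
  induction k with
  | zero =>
    intro X S c0 m L x U F M hX hf hxU hU hFm hFM hpos
    unfold J
    refine integral_nonneg fun z => ?_
    have hz : z = 0 := Subsingleton.elim _ _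
    have : F (x + ‖z‖ ^ 2) = F x := by rw [hz, norm_zero]; simp
    show 0 ≤ F (x + ‖z‖ ^ 2)
    rw [this]
    exact hpos
  | succ n ih =>
    intro X S c0 m L x U F M hX hf hxU hU hFm hFM hpos
    obtain ⟨hop, hrec⟩ := hpos
    have hx2 : x < 2 := hxU.trans hU
    let ι : Type := {c : E d // c ∈ X ∧ c ∉ S}
    haveI : Finite ι := Finite.of_injective (β := {c // c ∈ X})
      (fun c : ι => (⟨c.1, c.2.1⟩ : {c // c ∈ X})) (fun a b hab => by
        have := congrArg Subtype.val hab
        exact Subtype.ext this)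
    letI : Fintype ι := Fintype.ofFinite ι
    let a : ι → E (n + 1) := fun c => av L m c.1
    let b : ι → ℝ := fun c => bv m x c.1
    have hφ : ∀ c : ι, ∃ φ : E n →ₗᵢ[ℝ] E (n + 1), a c ≠ 0 → ∀ w, inner ℝ (a c) (φ w) = 0 := by
      intro c
      by_cases hc : a c = 0
      · obtain ⟨φ, -⟩ := h6 n (EuclideanSpace.single 0 1) (by
          intro h
          have := congrArg (fun v : E (n + 1) => v 0) h
          simp at this)
        exact ⟨φ, fun h => absurd hc h⟩
      · obtain ⟨φ, hφ⟩ := h6 n (a c) hc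
        exact ⟨φ, fun _ => hφ⟩
    choose φ hφ using hφ
    let G : Finset ι := Finset.univ.filter (fun c => a c ≠ 0 ∧ x + hh (a c) (b c) ^ 2 < U)
    have hG : ∀ c, c ∈ G ↔ (a c ≠ 0 ∧ x + hh (a c) (b c) ^ 2 < U) := by
      intro c
      simp [G]
    have hbpos : ∀ c, 0 < b c := by
      intro c
      have := hf.far c.1 c.2.1 c.2.2
      show 0 < ‖c.1 - m‖ ^ 2 - x
      linarith
    have hsys : Sys a b φ G U x := by
      refine ⟨hxU, hbpos, hG, ?_, ?_⟩
      · intro j hj w
        exact hφ j ((hG j).1 hj).1 w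
      · intro j hj l hl
        have hj' := (hG j).1 hj
        exact h4 d n X S c0 m L x j.1 hX hf j.2.1 j.2.2 hj'.1 (hj'.2.trans hU) l.1 l.2.1 l.2.2
          (fun h => hl (Subtype.ext h))
    have hcell : fcell X S c0 m L = cell a b := by
      rw [h8 d (n + 1) X S c0 m L x hf]
      ext z
      constructor
      · intro hz j
        exact hz j.1 j.2.1 j.2.2
      · intro hz c hc hcS
        exact hz ⟨c, hc, hcS⟩
    have hmain := h1 n ι inferInstance a b φ G U x F M hsys hFm hFM hop
    rw [hcell]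
    refine le_trans (Finset.sum_nonneg fun j hj => ?_) hmain
    have hj' := (hG j).1 hj
    refine mul_nonneg ?_ ?_
    · exact div_nonneg (hbpos j).le (norm_nonneg _)
    · rw [← hcell]
      have hx' : x + hh (av L m j.1) (bv m x j.1) ^ 2 < 2 := hj'.2.trans hU
      have hface := h2 d n X S c0 m L x j.1 (φ j) hX hf j.2.1 j.2.2 hj'.1 (hφ j hj'.1) hx'
      have hceq := h3 d n X S c0 m L x j.1 (φ j) hX hf j.2.1 j.2.2 hj'.1 (hφ j hj'.1) hx'
      have hopb := h7 (n + 1) x F M (by omega) hFm hFM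
      have hxst := h5 d (n + 1) X S c0 m L x j.1 hf hx2 j.2.1 j.2.2 hj'.1
      have := ih X _ c0 _ _ _ U (op (n + 1) x F) M hX hface hj'.2 hU hopb.1 hopb.2
        (hrec _ hxst.2.2 hj'.2)
      rw [hceq] at this
      exact this

end Pool.Agent.H41R2.OP
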