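import Pool.Agent.H41R2.OP.Defs

/-! Task KNU (author helper171). -/

set_option autoImplicit false

noncomputable section

open MeasureTheory Set
open scoped ENNReal Topology

namespace Pool.Agent.H41R2.OP

theorem KNU_null {n : ℕ} (L : E n →ₗ[ℝ] ℝ) (hL : L ≠ 0) (c : ℝ) :
    volume {w : E n | L w = c} = 0 := by
  by_cases h : ∃ w₀, L w₀ = c
  · obtain ⟨w₀, hw₀⟩ := h
    have h1 : {w : E n | L w = c} = (fun w => w + (-w₀)) ⁻¹' (LinearMap.ker L : Set (E n)) := by
      ext w
      simp only [Set.mem_ofPred_eq, Set.mem_preimage, SetLike.mem_coe, LinearMap.mem_ker, map_add,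
        map_neg, hw₀]
      constructor
      · intro h; rw [h]; ring
      · intro h; linarith
    rw [h1, measure_preimage_add_right]
    apply Measure.addHaar_submodule
    intro htop
    exact hL (LinearMap.ker_eq_top.1 htop)
  · push Not at h
    have : {w : E n | L w = c} = ∅ := by
      ext w
      simp [h w]
    rw [this, measure_empty]

theorem KNU_span {n : ℕ} (u v : E (n + 1)) (φ : E n →ₗᵢ[ℝ] E (n + 1)) (hu : u ≠ 0)
    (h1 : ∀ w, inner ℝ u (φ w) = 0) (h2 : ∀ w, inner ℝ v (φ w) = 0) : ∃ c : ℝ, c • u = v := by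
  set R : Submodule ℝ (E (n + 1)) := LinearMap.range φ.toLinearMap with hR
  have hfr : Module.finrank ℝ R = n := by
    rw [hR, LinearMap.finrank_range_of_inj φ.injective]
    simp
  have hsum := Submodule.finrank_add_finrank_orthogonal R
  have hE : Module.finrank ℝ (E (n + 1)) = n + 1 := by simp
  rw [hfr, hE] at hsum
  have hone : Module.finrank ℝ Rᗮ = 1 := by omega
  have huR : u ∈ Rᗮ := by
    rw [Submodule.mem_orthogonal]
    rintro y ⟨w, rfl⟩
    rw [real_inner_comm]
    exact h1 w
  have hvR : v ∈ Rᗮ := by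
    rw [Submodule.mem_orthogonal]
    rintro y ⟨w, rfl⟩
    rw [real_inner_comm]
    exact h2 w
  have hu0 : (⟨u, huR⟩ : Rᗮ) ≠ 0 := by
    intro h
    apply hu
    exact congrArg Subtype.val h
  obtain ⟨c, hc⟩ := (finrank_eq_one_iff_of_nonzero' _ hu0).1 hone ⟨v, hvR⟩
  exact ⟨c, congrArg Subtype.val hc⟩

theorem KNU : S_KNU := by
  intro n ι _ a b φ G U x F hS j hj
  have haj : a j ≠ 0 := ((hS.good j).1 hj).1
  have hnorm : ‖a j‖ ^ 2 ≠ 0 := by
    have := norm_ne_zero_iff.2 haj
    positivity
  have hfoot : inner ℝ (a j) (foot (a j) (b j)) = b j := by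
    unfold foot
    rw [inner_smul_right, real_inner_self_eq_norm_sq]
    field_simp
  have hcont : ∀ l, Continuous fun w : E n => inner ℝ (a l) (foot (a j) (b j) + φ j w) := by
    intro l
    have := (φ j).continuous
    fun_prop
  have hopen : IsOpen (Kf a b φ U x j) := by
    have : Kf a b φ U x j = (⋂ l : ι, ⋂ _ : l ≠ j,
        {w : E n | inner ℝ (a l) (foot (a j) (b j) + φ j w) < b l}) ∩
        {w : E n | x + hh (a j) (b j) ^ 2 + ‖w‖ ^ 2 < U} := by
      ext w
      simp [Kf]
    rw [this]
    apply IsOpen.inter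
    · apply isOpen_iInter_of_finite
      intro l
      apply isOpen_iInter_of_finite
      intro _
      exact isOpen_lt (hcont l) continuous_const
    · exact isOpen_lt (by fun_prop) continuous_const
  refine ⟨hopen.measurableSet, ?_, ?_⟩
  · rw [isBounded_iff_forall_norm_le]
    refine ⟨|U - (x + hh (a j) (b j) ^ 2)| + 1, ?_⟩
    intro w hw
    have h1 : x + hh (a j) (b j) ^ 2 + ‖w‖ ^ 2 < U := hw.2
    have h2 : U - (x + hh (a j) (b j) ^ 2) ≤ |U - (x + hh (a j) (b j) ^ 2)| := le_abs_self _
    have h3 : 0 ≤ |U - (x + hh (a j) (b j) ^ 2)| := abs_nonneg _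
    by_contra hcon
    push Not at hcon
    have h4 : 0 ≤ ‖w‖ := norm_nonneg _
    nlinarith
  · unfold J
    apply setIntegral_congr_set
    have hsub : Kf a b φ U x j ⊆ {z : E n | z ∈ {w | foot (a j) (b j) + φ j w ∈ cell a b} ∧
        x + hh (a j) (b j) ^ 2 + ‖z‖ ^ 2 < U} := by
      intro w hw
      refine ⟨?_, hw.2⟩
      intro l
      by_cases hl : l = j
      · subst hl
        rw [inner_add_right, hfoot, hS.orth l hj w, add_zero]
      · exact (hw.1 l hl).le
    have hnull : volume ({z : E n | z ∈ {w | foot (a j) (b j) + φ j w ∈ cell a b} ∧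
        x + hh (a j) (b j) ^ 2 + ‖z‖ ^ 2 < U} \ Kf a b φ U x j) = 0 := by
      have hcov : {z : E n | z ∈ {w | foot (a j) (b j) + φ j w ∈ cell a b} ∧
          x + hh (a j) (b j) ^ 2 + ‖z‖ ^ 2 < U} \ Kf a b φ U x j ⊆
          ⋃ l : ι, ⋃ _ : l ≠ j,
            {w : E n | inner ℝ (a l) (foot (a j) (b j) + φ j w) = b l} := by
        rintro w ⟨⟨hw1, hw2⟩, hw3⟩
        have : ∃ l, l ≠ j ∧ ¬ inner ℝ (a l) (foot (a j) (b j) + φ j w) < b l := by
          by_contra hcon
          push Not at hcon
          exact hw3 ⟨hcon, hw2⟩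
        obtain ⟨l, hl, hlt⟩ := this
        simp only [Set.mem_iUnion]
        exact ⟨l, hl, le_antisymm (hw1 l) (not_lt.1 hlt)⟩
      refine measure_mono_null hcov ?_
      rw [measure_iUnion_null_iff]
      intro l
      rw [measure_iUnion_null_iff]
      intro hl
      set L : E n →ₗ[ℝ] ℝ := (innerₛₗ ℝ (a l)).comp (φ j).toLinearMap with hLdef
      have hLw : ∀ w, L w = inner ℝ (a l) (φ j w) := fun w => rfl
      have hset : {w : E n | inner ℝ (a l) (foot (a j) (b j) + φ j w) = b l} =
          {w : E n | L w = b l - inner ℝ (a l) (foot (a j) (b j))} := by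
        ext w
        simp only [Set.mem_ofPred_eq, inner_add_right, hLw]
        constructor
        · intro h; linarith
        · intro h; linarith
      rw [hset]
      by_cases hL0 : L = 0
      · have h2 : ∀ w, inner ℝ (a l) (φ j w) = 0 := by
          intro w
          rw [← hLw, hL0]
          rfl
        obtain ⟨c, hc⟩ := KNU_span (a j) (a l) (φ j) haj (hS.orth j hj) h2
        have h3 : inner ℝ (a l) (foot (a j) (b j)) = c * b j := by
          rw [← hc, inner_smul_left, hfoot]
          simp
        have h4 : b l - inner ℝ (a l) (foot (a j) (b j)) ≠ 0 := by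
          intro h5
          apply hS.ndup j hj l hl
          rw [← hc, smul_smul]
          congr 1
          rw [h3] at h5
          linarith
        have h6 : {w : E n | L w = b l - inner ℝ (a l) (foot (a j) (b j))} = ∅ := by
          ext w
          simp only [Set.mem_ofPred_eq, Set.mem_empty_iff_false, iff_false]
          rw [hL0]
          intro h7
          exact h4 h7.symm
        rw [h6, measure_empty]
      · exact KNU_null L hL0 _
    refine Filter.EventuallyLE.antisymm ?_ ?_
    · rw [ae_le_set]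
      exact hnull
    · exact Filter.Eventually.of_forall hsub

end Pool.Agent.H41R2.OP
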