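import Pool.Agent.H41R2.OP.Defs

/-! Task LAM: the linear change of coordinates. -/

set_option autoImplicit false

noncomputable section

open MeasureTheory Set
open scoped ENNReal Topology Pointwise

namespace Pool.Agent.H41R2.OP

theorem LAM_div {a c : ℝ} (hc : 0 < c) : 0 ≤ a / c ↔ 0 ≤ a := by
  rw [le_div_iff₀ hc, zero_mul]

/-- `lam2y` as a linear map -/
def LAM_T (d : ℕ) : (Fin (d + 1) → ℝ) →ₗ[ℝ] (Fin (d + 1) → ℝ) where
  toFun := lam2y d
  map_add' a b := by
    funext j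
    simp only [lam2y, Pi.add_apply, add_div, Finset.sum_add_distrib]
    ring
  map_smul' c a := by
    funext j
    simp only [lam2y, Pi.smul_apply, smul_eq_mul, RingHom.id_apply, mul_div_assoc, mul_sub,
      Finset.mul_sum]

theorem LAM_diff (d : ℕ) (l : Fin (d + 1) → ℝ) (j : Fin d) :
    lam2y d l j.castSucc - lam2y d l j.succ = (l j.castSucc - l j.succ) / ((j : ℕ) + 1 : ℝ) := by
  have hset : Finset.univ.filter (fun i : Fin (d + 1) => j.castSucc < i) =
      insert j.succ (Finset.univ.filter (fun i : Fin (d + 1) => j.succ < i)) := by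
    ext i
    simp only [Finset.mem_filter, Finset.mem_univ, true_and, Finset.mem_insert, Fin.lt_def,
      Fin.ext_iff, Fin.val_castSucc, Fin.val_succ]
    omega
  have hnot : j.succ ∉ Finset.univ.filter (fun i : Fin (d + 1) => j.succ < i) := by simp
  unfold lam2y
  rw [hset, Finset.sum_insert hnot]
  simp only [Fin.val_castSucc, Fin.val_succ, Nat.cast_add, Nat.cast_one]
  have h1 : ((j : ℕ) : ℝ) + 1 ≠ 0 := by positivity
  have h2 : ((j : ℕ) : ℝ) + 1 + 1 ≠ 0 := by positivity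
  field_simp
  ring

theorem LAM_last (d : ℕ) (l : Fin (d + 1) → ℝ) :
    lam2y d l (Fin.last d) = l (Fin.last d) / ((d : ℝ) + 1) := by
  unfold lam2y
  have : Finset.univ.filter (fun i : Fin (d + 1) => Fin.last d < i) = ∅ := by
    ext i
    simp only [Finset.mem_filter, Finset.mem_univ, true_and, Finset.notMem_empty, iff_false,
      not_lt]
    exact Fin.le_last i
  rw [this, Finset.sum_empty, sub_zero]
  simp

theorem LAM_anti (d : ℕ) (l : Fin (d + 1) → ℝ) : Antitone (lam2y d l) ↔ Antitone l := by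
  rw [Fin.antitone_iff_succ_le, Fin.antitone_iff_succ_le]
  refine forall_congr' fun j => ?_
  have h := LAM_diff d l j
  have h1 : (0 : ℝ) < ((j : ℕ) : ℝ) + 1 := by positivity
  rw [← sub_nonneg, h, ← sub_nonneg (a := l j.castSucc)]
  exact LAM_div h1

theorem LAM_nonneg {d : ℕ} {y : Fin (d + 1) → ℝ} (h : Antitone y) :
    (∀ i, 0 ≤ y i) ↔ 0 ≤ y (Fin.last d) :=
  ⟨fun h' => h' _, fun h' i => h'.trans (h (Fin.le_last i))⟩

theorem LAM_inj (d : ℕ) : Function.Injective (LAM_T d) := by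
  rw [injective_iff_map_eq_zero]
  intro l hl
  have hl' : lam2y d l = 0 := hl
  have hlast : l (Fin.last d) = 0 := by
    have h := LAM_last d l
    rw [hl', Pi.zero_apply] at h
    have h1 : (d : ℝ) + 1 ≠ 0 := by positivity
    have := h.symm
    rw [div_eq_zero_iff] at this
    rcases this with h2 | h2
    · exact h2
    · exact absurd h2 h1
  have hstep : ∀ j : Fin d, l j.castSucc = l j.succ := by
    intro j
    have h := LAM_diff d l j
    rw [hl', Pi.zero_apply, Pi.zero_apply, sub_zero] at h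
    have h1 : ((j : ℕ) : ℝ) + 1 ≠ 0 := by positivity
    have := h.symm
    rw [div_eq_zero_iff] at this
    rcases this with h2 | h2
    · linarith
    · exact absurd h2 h1
  funext i
  rw [Pi.zero_apply]
  induction i using Fin.reverseInduction with
  | last => exact hlast
  | cast j ih => rw [hstep j]; exact ih

theorem LAM_mem (h : S_QID) (d : ℕ) (ρ : ℝ) (l : Fin (d + 1) → ℝ) :
    lam2y d l ∈ yball d ρ ↔ l ∈ lball d ρ := by
  obtain ⟨q1, q2⟩ := h d l
  have h1 : (0 : ℝ) < (d : ℝ) + 1 := by positivity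
  show (Antitone (lam2y d l) ∧ (∀ i, 0 ≤ lam2y d l i) ∧ 0 < ∑ i, lam2y d l i ∧
      ∑ i, lam2y d l i ≤ 1 ∧
      2 * (∑ i, lam2y d l i ^ 2 - 2 * lam2y d l 0 * ∑ i, lam2y d l i + (∑ i, lam2y d l i) ^ 2) ≤
        ρ ^ 2 * (∑ i, lam2y d l i) ^ 2) ↔
    (Antitone l ∧ (∀ i, 0 ≤ l i) ∧ 0 < l 0 ∧ l 0 ≤ 1 ∧
      ∑ i : Fin d, 2 / (((i : ℕ) + 1 : ℝ) * ((i : ℕ) + 2)) * l i.succ ^ 2 ≤ ρ ^ 2 * l 0 ^ 2)
  rw [q1, q2, LAM_anti]
  constructor
  · rintro ⟨a1, a2, a3⟩
    refine ⟨a1, ?_, a3⟩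
    rw [LAM_nonneg a1]
    have := a2 (Fin.last d)
    rw [LAM_last] at this
    exact (LAM_div h1).1 this
  · rintro ⟨a1, a2, a3⟩
    refine ⟨a1, ?_, a3⟩
    rw [LAM_nonneg ((LAM_anti d l).2 a1), LAM_last]
    exact (LAM_div h1).2 (a2 (Fin.last d))

theorem LAM (h : S_QID) : S_LAM := by
  intro d
  refine ⟨ENNReal.ofReal |LinearMap.det (LAM_T d)|, ENNReal.ofReal_ne_top, fun ρ => ?_⟩
  rw [← Measure.addHaar_image_linearMap]
  congr 1
  ext y
  constructor
  · intro hy
    obtain ⟨l, hl⟩ := LinearMap.injective_iff_surjective.1 (LAM_inj d) y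
    refine ⟨l, ?_, hl⟩
    rw [← LAM_mem h]
    have : lam2y d l = y := hl
    rw [this]
    exact hy
  · rintro ⟨l, hl, rfl⟩
    exact (LAM_mem h d ρ l).2 hl

end Pool.Agent.H41R2.OP
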