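import Pool.Agent.H41R2.OP.Defs

/-!
LAP0. Laplace representation of a negative power.
-/

set_option autoImplicit false

noncomputable section

open MeasureTheory Set

namespace Pool.Agent.H41R2.OP

lemma LAP0_eq (d : ℕ) (hd : 2 ≤ d) (u : ℝ) {s : ℝ} (hs : 0 < s) :
    Real.exp (-(s * u)) * s ^ (((d - 1 : ℕ) : ℝ) / 2) *
      (s ^ (-(1 / 2) : ℝ) / Real.Gamma ((d : ℝ) / 2)) =
    (1 / Real.Gamma ((d : ℝ) / 2)) * (s ^ ((d : ℝ) / 2 - 1) * Real.exp (-(u * s))) := by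
  have e1 : s ^ ((d : ℝ) / 2 - 1) = s ^ (((d - 1 : ℕ) : ℝ) / 2) * s ^ (-(1 / 2) : ℝ) := by
    rw [← Real.rpow_add hs]
    congr 1
    rw [Nat.cast_sub (by omega)]
    push_cast
    ring
  rw [e1, mul_comm u s]
  ring

theorem LAP0 : S_LAP0 := by
  intro d hd
  have hd0 : (0 : ℝ) < (d : ℝ) / 2 := by
    have : (2 : ℝ) ≤ d := by exact_mod_cast hd
    linarith
  have hG : 0 < Real.Gamma ((d : ℝ) / 2) := Real.Gamma_pos_of_pos hd0
  refine ⟨fun s => s ^ (-(1 / 2) : ℝ) / Real.Gamma ((d : ℝ) / 2), ?_, ?_, ?_, ?_, ?_⟩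
  · intro s hs
    exact div_pos (Real.rpow_pos_of_pos hs _) hG
  · refine ContinuousOn.div_const ?_ _
    exact continuousOn_id.rpow_const fun s hs => Or.inl (ne_of_gt hs)
  · intro s t θ hs ht h0 h1
    show (θ * s + (1 - θ) * t) ^ (-(1 / 2) : ℝ) / Real.Gamma ((d : ℝ) / 2) ≤
      (s ^ (-(1 / 2) : ℝ) / Real.Gamma ((d : ℝ) / 2)) ^ θ *
      (t ^ (-(1 / 2) : ℝ) / Real.Gamma ((d : ℝ) / 2)) ^ (1 - θ)
    rw [Real.div_rpow (by positivity) hG.le, Real.div_rpow (by positivity) hG.le,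
      div_mul_div_comm, ← Real.rpow_add hG, add_sub_cancel, Real.rpow_one]
    refine div_le_div_of_nonneg_right ?_ hG.le
    have e1 : (s ^ (-(1 / 2) : ℝ)) ^ θ * (t ^ (-(1 / 2) : ℝ)) ^ (1 - θ) =
        (s ^ θ * t ^ (1 - θ)) ^ (-(1 / 2) : ℝ) := by
      rw [Real.mul_rpow (by positivity) (by positivity), ← Real.rpow_mul hs.le,
        ← Real.rpow_mul ht.le, ← Real.rpow_mul hs.le, ← Real.rpow_mul ht.le,
        mul_comm θ, mul_comm (1 - θ)]
    rw [e1]
    exact Real.rpow_le_rpow_of_nonpos (by positivity)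
      (Real.geom_mean_le_arith_mean2_weighted h0 (by linarith) hs.le ht.le (by ring)) (by norm_num)
  · intro u hu
    have h := integrableOn_rpow_mul_exp_neg_mul_rpow (p := 1) (s := (d : ℝ) / 2 - 1) (b := u)
      (by linarith) one_pos hu
    refine (IntegrableOn.congr_fun (h.const_mul (1 / Real.Gamma ((d : ℝ) / 2))) ?_
      measurableSet_Ioi)
    intro s hs
    have := LAP0_eq d hd u (mem_Ioi.1 hs)
    simp only [Real.rpow_one]
    rw [this, neg_mul]
  · intro u hu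
    rw [setIntegral_congr_fun measurableSet_Ioi (fun s hs => LAP0_eq d hd u (mem_Ioi.1 hs)),
      integral_const_mul, Real.integral_rpow_mul_exp_neg_mul_Ioi hd0 hu,
      one_div_mul_eq_div, mul_div_cancel_right₀ _ hG.ne', one_div, Real.inv_rpow hu.le,
      ← Real.rpow_neg hu.le]

end Pool.Agent.H41R2.OP
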