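import Pool.Agent.H41R2.OP.Defs

set_option autoImplicit false

open MeasureTheory Set
open scoped ENNReal Topology

namespace Pool.Agent.H41R2.OP

theorem LAP0x_fun (d : ℕ) (hd : 2 ≤ d) (u s : ℝ) (hs : 0 < s) :
    Real.exp (-(s * u)) * s ^ (((d - 1 : ℕ) : ℝ) / 2) * (s ^ (-(1 / 2) : ℝ) / Real.Gamma ((d : ℝ) / 2))
    = (s ^ ((d : ℝ) / 2 - 1) * Real.exp (-(u * s))) * (1 / Real.Gamma ((d : ℝ) / 2)) := by
  have h1 : s ^ (((d - 1 : ℕ) : ℝ) / 2) * s ^ (-(1 / 2) : ℝ) = s ^ ((d : ℝ) / 2 - 1) := by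
    rw [← Real.rpow_add hs]
    congr 1
    rw [Nat.cast_sub (by omega)]
    push_cast
    ring
  rw [← h1, mul_comm u s]
  ring

theorem LAP0x : S_LAP0 := by
  intro d hd
  have hd0 : (0 : ℝ) < (d : ℝ) / 2 := by
    have : (2 : ℝ) ≤ d := by exact_mod_cast hd
    linarith
  have hG : 0 < Real.Gamma ((d : ℝ) / 2) := Real.Gamma_pos_of_pos hd0
  refine ⟨fun s => s ^ (-(1 / 2) : ℝ) / Real.Gamma ((d : ℝ) / 2), ?_, ?_, ?_, ?_, ?_⟩
  · intro s hs
    positivity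
  · apply ContinuousOn.div_const
    apply ContinuousOn.rpow_const continuousOn_id
    intro x hx
    left
    exact ne_of_gt hx
  · intro s t θ hs ht h0 h1
    have hmix : 0 < θ * s + (1 - θ) * t := by
      rcases eq_or_lt_of_le h0 with h | h
      · rw [← h]; simpa using ht
      · have : 0 ≤ (1 - θ) * t := mul_nonneg (by linarith) ht.le
        have : 0 < θ * s := mul_pos h hs
        linarith
    have hgm : s ^ θ * t ^ (1 - θ) ≤ θ * s + (1 - θ) * t :=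
      Real.geom_mean_le_arith_mean2_weighted h0 (by linarith) hs.le ht.le (by ring)
    have hgp : 0 < s ^ θ * t ^ (1 - θ) := by positivity
    have h2 : (θ * s + (1 - θ) * t) ^ (-(1 / 2) : ℝ) ≤ (s ^ θ * t ^ (1 - θ)) ^ (-(1 / 2) : ℝ) :=
      Real.rpow_le_rpow_of_nonpos hgp hgm (by norm_num)
    have h3 : (s ^ θ * t ^ (1 - θ)) ^ (-(1 / 2) : ℝ)
        = (s ^ (-(1 / 2) : ℝ)) ^ θ * (t ^ (-(1 / 2) : ℝ)) ^ (1 - θ) := by
      rw [Real.mul_rpow (by positivity) (by positivity), ← Real.rpow_mul hs.le, ← Real.rpow_mul ht.le,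
        ← Real.rpow_mul hs.le, ← Real.rpow_mul ht.le]
      congr 1 <;> congr 1 <;> ring
    have h4 : (s ^ (-(1 / 2) : ℝ) / Real.Gamma ((d : ℝ) / 2)) ^ θ *
        (t ^ (-(1 / 2) : ℝ) / Real.Gamma ((d : ℝ) / 2)) ^ (1 - θ)
        = ((s ^ (-(1 / 2) : ℝ)) ^ θ * (t ^ (-(1 / 2) : ℝ)) ^ (1 - θ)) / Real.Gamma ((d : ℝ) / 2) := by
      rw [Real.div_rpow (by positivity) hG.le, Real.div_rpow (by positivity) hG.le, div_mul_div_comm,
        ← Real.rpow_add hG]
      have : θ + (1 - θ) = 1 := by ring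
      rw [this, Real.rpow_one]
    show (θ * s + (1 - θ) * t) ^ (-(1 / 2) : ℝ) / Real.Gamma ((d : ℝ) / 2) ≤ _
    rw [h4, ← h3]
    exact div_le_div_of_nonneg_right h2 hG.le
  · intro u hu
    have h := (integrableOn_rpow_mul_exp_neg_mul_rpow (s := (d : ℝ) / 2 - 1) (p := 1) (b := u)
      (by linarith) (by norm_num) hu)
    have h' : IntegrableOn (fun s : ℝ => (s ^ ((d : ℝ) / 2 - 1) * Real.exp (-(u * s))) *
        (1 / Real.Gamma ((d : ℝ) / 2))) (Ioi 0) := by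
      apply Integrable.mul_const
      refine h.congr_fun ?_ measurableSet_Ioi
      intro x hx
      simp [Real.rpow_one]
    refine h'.congr_fun ?_ measurableSet_Ioi
    intro x hx
    exact (LAP0x_fun d hd u x hx).symm
  · intro u hu
    have h := Real.integral_rpow_mul_exp_neg_mul_Ioi (a := (d : ℝ) / 2) (r := u) hd0 hu
    have h2 : (∫ s in Ioi (0:ℝ), Real.exp (-(s * u)) * s ^ (((d - 1 : ℕ) : ℝ) / 2) *
        (s ^ (-(1 / 2) : ℝ) / Real.Gamma ((d : ℝ) / 2)))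
        = ∫ s in Ioi (0:ℝ), (s ^ ((d : ℝ) / 2 - 1) * Real.exp (-(u * s))) *
          (1 / Real.Gamma ((d : ℝ) / 2)) := by
      apply setIntegral_congr_fun measurableSet_Ioi
      intro x hx
      exact LAP0x_fun d hd u x hx
    show u ^ (-((d : ℝ) / 2)) = ∫ s in Ioi (0:ℝ), Real.exp (-(s * u)) * s ^ (((d - 1 : ℕ) : ℝ) / 2) *
        (s ^ (-(1 / 2) : ℝ) / Real.Gamma ((d : ℝ) / 2))
    rw [h2, integral_mul_const, h, one_div, Real.inv_rpow hu.le, Real.rpow_neg hu.le]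
    field_simp

end Pool.Agent.H41R2.OP
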