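import Pool.Agent.H41R2.OP.Defs

set_option autoImplicit false

noncomputable section

open MeasureTheory Set
open scoped ENNReal Topology

namespace Pool.Agent.H41R2.OP

theorem LAPE_pos {k : ℕ} {F c : ℝ → ℝ} (h : LapRep k F c) {u s : ℝ} (hs : 0 < s) :
    0 < Real.exp (-(s * u)) * s ^ ((k : ℝ) / 2) * c s :=
  mul_pos (mul_pos (Real.exp_pos _) (Real.rpow_pos_of_pos hs _)) (h.pos s hs)

theorem LAPE_anti {k : ℕ} {F c : ℝ → ℝ} (h : LapRep k F c) {u u' s : ℝ} (hs : 0 < s)
    (hu : u ≤ u') : Real.exp (-(s * u')) * s ^ ((k : ℝ) / 2) * c s ≤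
      Real.exp (-(s * u)) * s ^ ((k : ℝ) / 2) * c s := by
  apply mul_le_mul_of_nonneg_right _ (h.pos s hs).le
  apply mul_le_mul_of_nonneg_right _ (Real.rpow_pos_of_pos hs _).le
  apply Real.exp_le_exp.2
  have := mul_le_mul_of_nonneg_left hu hs.le
  linarith

theorem LAPE (h : S_CHE) : S_LAPE := by
  intro k F c hF
  refine ⟨fun u hu => ?_, ?_, ?_, ?_⟩
  · rw [hF.rep u hu, setIntegral_pos_iff_support_of_nonneg_ae]
    · have hsub : Ioi (0 : ℝ) ⊆
          Function.support (fun s : ℝ => Real.exp (-(s * u)) * s ^ ((k : ℝ) / 2) * c s) ∩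
            Ioi 0 := fun s hs => ⟨(LAPE_pos hF hs).ne', hs⟩
      refine lt_of_lt_of_le ?_ (measure_mono hsub)
      rw [Real.volume_Ioi]
      exact ENNReal.zero_lt_top
    · refine (ae_restrict_iff' measurableSet_Ioi).2 (Filter.Eventually.of_forall fun s hs => ?_)
      exact (LAPE_pos hF hs).le
    · exact hF.int u hu
  · intro u0 hu0
    apply ContinuousAt.continuousWithinAt
    have hu0' : (0 : ℝ) < u0 := hu0
    have h1 : ContinuousAt (fun u => ∫ s in Ioi (0:ℝ),
        Real.exp (-(s * u)) * s ^ ((k : ℝ) / 2) * c s) u0 := by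
      apply continuousAt_of_dominated
        (bound := fun s => Real.exp (-(s * (u0 / 2))) * s ^ ((k : ℝ) / 2) * c s)
      · filter_upwards [lt_mem_nhds hu0'] with u hu
        exact (hF.int u hu).aestronglyMeasurable
      · have h2 : u0 / 2 < u0 := by linarith
        filter_upwards [lt_mem_nhds h2] with u hu
        refine (ae_restrict_iff' measurableSet_Ioi).2 (Filter.Eventually.of_forall fun s hs => ?_)
        rw [Real.norm_of_nonneg (LAPE_pos hF hs).le]
        exact LAPE_anti hF hs hu.le
      · exact hF.int (u0 / 2) (by linarith)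
      · refine Filter.Eventually.of_forall fun s => ?_
        apply Continuous.continuousAt
        fun_prop
    apply h1.congr
    filter_upwards [lt_mem_nhds hu0'] with u hu
    exact (hF.rep u hu).symm
  · intro u hu u' hu' huu'
    rw [hF.rep u hu, hF.rep u' hu']
    exact setIntegral_mono_on (hF.int u' hu') (hF.int u hu) measurableSet_Ioi
      (fun s hs => LAPE_anti hF hs huu')
  · intro a p q ha hp hq
    have e1 : ∀ s : ℝ, -Real.exp (-(s * p)) *
        (Real.exp (-(s * a)) * s ^ ((k : ℝ) / 2) * c s) =
        -(Real.exp (-(s * (a + p))) * s ^ ((k : ℝ) / 2) * c s) := by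
      intro s
      have : Real.exp (-(s * (a + p))) = Real.exp (-(s * p)) * Real.exp (-(s * a)) := by
        rw [← Real.exp_add]
        congr 1
        ring
      rw [this]
      ring
    have e2 : ∀ s : ℝ, -Real.exp (-(s * q)) *
        (Real.exp (-(s * a)) * s ^ ((k : ℝ) / 2) * c s) =
        -(Real.exp (-(s * (a + q))) * s ^ ((k : ℝ) / 2) * c s) := by
      intro s
      have : Real.exp (-(s * (a + q))) = Real.exp (-(s * q)) * Real.exp (-(s * a)) := by
        rw [← Real.exp_add]
        congr 1
        ring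
      rw [this]
      ring
    have e3 : ∀ s : ℝ, -Real.exp (-(s * p)) * -Real.exp (-(s * q)) *
        (Real.exp (-(s * a)) * s ^ ((k : ℝ) / 2) * c s) =
        Real.exp (-(s * (a + p + q))) * s ^ ((k : ℝ) / 2) * c s := by
      intro s
      have : Real.exp (-(s * (a + p + q))) =
          Real.exp (-(s * p)) * Real.exp (-(s * q)) * Real.exp (-(s * a)) := by
        rw [← Real.exp_add, ← Real.exp_add]
        congr 1
        ring
      rw [this]
      ring
    have hmono : ∀ r : ℝ, 0 ≤ r → MonotoneOn (fun s : ℝ => -Real.exp (-(s * r))) (Ioi 0) := by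
      intro r hr s _ s' _ hss
      show -Real.exp (-(s * r)) ≤ -Real.exp (-(s' * r))
      apply neg_le_neg
      apply Real.exp_le_exp.2
      have := mul_le_mul_of_nonneg_right hss hr
      linarith
    have hap : 0 < a + p := by linarith
    have haq : 0 < a + q := by linarith
    have hapq : 0 < a + p + q := by linarith
    have key := h (Ioi 0) (fun s => Real.exp (-(s * a)) * s ^ ((k : ℝ) / 2) * c s)
      (fun s => -Real.exp (-(s * p))) (fun s => -Real.exp (-(s * q))) measurableSet_Ioi
      (fun s hs => (LAPE_pos hF hs).le) (hmono p hp) (hmono q hq) (hF.int a ha)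
      (by
        simp only [e1]
        exact (hF.int (a + p) hap).neg)
      (by
        simp only [e2]
        exact (hF.int (a + q) haq).neg)
      (by
        simp only [e3]
        exact hF.int (a + p + q) hapq)
    simp only [e1, e2, e3, integral_neg] at key
    rw [← hF.rep _ hap, ← hF.rep _ haq, ← hF.rep _ hapq, ← hF.rep _ ha, neg_mul_neg] at key
    rw [mul_comm (F a)]
    exact key

end Pool.Agent.H41R2.OP
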