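import Pool.Agent.H41R2.OP.Defs

/-! Task LAPI: Laplace representation of `op k x F`. -/

set_option autoImplicit false

noncomputable section

open MeasureTheory Set
open scoped ENNReal Topology

namespace Pool.Agent.H41R2.OP

/-- measurable version of the density -/
def LAPI_c (c : ℝ → ℝ) : ℝ → ℝ := (Ioi (0:ℝ)).indicator c

theorem LAPI_meas {c : ℝ → ℝ} (hc : ContinuousOn c (Ioi 0)) : Measurable (LAPI_c c) := by
  classical
  unfold LAPI_c
  rw [← Set.piecewise_eq_indicator]
  exact hc.measurable_piecewise continuousOn_const measurableSet_Ioi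

theorem LAPI_eq {c : ℝ → ℝ} {s : ℝ} (hs : 0 < s) : LAPI_c c s = c s := by
  unfold LAPI_c
  rw [indicator_of_mem (show s ∈ Ioi (0:ℝ) from hs)]

theorem LAPI_nonneg {c : ℝ → ℝ} (hc : ∀ s : ℝ, 0 < s → 0 < c s) (s : ℝ) : 0 ≤ LAPI_c c s := by
  unfold LAPI_c
  exact indicator_nonneg (fun s hs => (hc s hs).le) s

/-- the integrand in the variables `t, s` -/
def LAPI_H (k : ℕ) (x v : ℝ) (c : ℝ → ℝ) (t s : ℝ) : ℝ :=
  t ^ (k - 1) * (Real.exp (-(s * (x + t ^ 2 * (v - x)))) * s ^ ((k : ℝ) / 2) * LAPI_c c s)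

/-- the integrand in the variables `q, s` -/
def LAPI_G (k : ℕ) (x v : ℝ) (c : ℝ → ℝ) (q s : ℝ) : ℝ :=
  (1 / 2) * (Real.exp (-(q * v)) * q ^ ((k : ℝ) / 2 - 1)) *
    (Real.exp (-((s - q) * x)) * LAPI_c c s)

theorem LAPI_sub {k : ℕ} {x v : ℝ} {c : ℝ → ℝ} (hk : 1 ≤ k) {s : ℝ} (hs : 0 < s) :
    ∫⁻ t in Ioo (0:ℝ) 1, ENNReal.ofReal (LAPI_H k x v c t s) =
      ∫⁻ q in Ioo (0:ℝ) s, ENNReal.ofReal (LAPI_G k x v c q s) := by
  have himg : (fun t : ℝ => s * t ^ 2) '' Ioo (0:ℝ) 1 = Ioo 0 s := by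
    ext q
    constructor
    · rintro ⟨t, ⟨ht0, ht1⟩, rfl⟩
      simp only
      constructor
      · positivity
      · have : t ^ 2 < 1 := by nlinarith
        nlinarith
    · rintro ⟨hq0, hq1⟩
      refine ⟨√(q / s), ⟨Real.sqrt_pos.2 (by positivity), ?_⟩, ?_⟩
      · rw [Real.sqrt_lt' one_pos, one_pow, div_lt_one hs]
        exact hq1
      · simp only
        rw [Real.sq_sqrt (by positivity)]
        field_simp
  have hinj : InjOn (fun t : ℝ => s * t ^ 2) (Ioo (0:ℝ) 1) := by
    intro a ha b hb hab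
    simp only at hab
    have h1 : a ^ 2 = b ^ 2 := mul_left_cancel₀ hs.ne' hab
    exact (pow_left_inj₀ ha.1.le hb.1.le two_ne_zero).1 h1
  have hder : ∀ t ∈ Ioo (0:ℝ) 1, HasDerivWithinAt (fun t : ℝ => s * t ^ 2) (2 * s * t)
      (Ioo (0:ℝ) 1) t := by
    intro t _
    have h := ((hasDerivAt_pow 2 t).const_mul s).hasDerivWithinAt (s := Ioo (0:ℝ) 1)
    have e0 : s * (((2 : ℕ) : ℝ) * t ^ (2 - 1)) = 2 * s * t := by
      norm_num
      ring
    rw [e0] at h
    exact h
  rw [← himg, lintegral_image_eq_lintegral_abs_deriv_mul measurableSet_Ioo hder hinj]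
  apply setLIntegral_congr_fun measurableSet_Ioo
  intro t ht
  have ht0 : 0 < t := ht.1
  simp only
  rw [← ENNReal.ofReal_mul (abs_nonneg _)]
  congr 1
  rw [abs_of_pos (by positivity)]
  unfold LAPI_H LAPI_G
  have e1 : (s * t ^ 2) ^ ((k : ℝ) / 2 - 1) = s ^ ((k : ℝ) / 2) / s * (t ^ (k - 1) / t) := by
    rw [Real.mul_rpow hs.le (by positivity), Real.rpow_sub_one hs.ne']
    congr 1
    rw [← Real.rpow_natCast t 2, ← Real.rpow_mul ht0.le]
    have e3 : ((2 : ℕ) : ℝ) * ((k : ℝ) / 2 - 1) = ((k - 1 : ℕ) : ℝ) - 1 := by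
      rw [Nat.cast_sub hk]
      push_cast
      ring
    rw [e3, Real.rpow_sub_one ht0.ne', Real.rpow_natCast]
  rw [e1]
  have e2 : Real.exp (-(s * (x + t ^ 2 * (v - x)))) =
      Real.exp (-(s * t ^ 2 * v)) * Real.exp (-((s - s * t ^ 2) * x)) := by
    rw [← Real.exp_add]
    congr 1
    ring
  rw [e2]
  field_simp

theorem LAPI_main {k : ℕ} {F c : ℝ → ℝ} {x v : ℝ} (hN : S_NPOS) (hk : 1 ≤ k)
    (hL : LapRep k F c) (hx : 0 < x) (hv : 0 < v) :
    ∫⁻ t in Ioo (0:ℝ) 1, ENNReal.ofReal (t ^ (k - 1) * F (x + t ^ 2 * (v - x))) =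
      ∫⁻ q in Ioi (0:ℝ), ENNReal.ofReal
        ((1 / 2) * (Real.exp (-(q * v)) * q ^ ((k : ℝ) / 2 - 1) * Nn c x q)) := by
  have hcm := LAPI_meas hL.cont
  have hc0 := LAPI_nonneg hL.pos
  have hu : ∀ t ∈ Ioo (0:ℝ) 1, 0 < x + t ^ 2 * (v - x) := by
    intro t ht
    have h1 : t ^ 2 < 1 := by
      have := ht.1; have := ht.2; nlinarith
    have h2 : 0 ≤ t ^ 2 := sq_nonneg t
    nlinarith
  -- step 1
  have s1 : ∫⁻ t in Ioo (0:ℝ) 1, ENNReal.ofReal (t ^ (k - 1) * F (x + t ^ 2 * (v - x))) =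
      ∫⁻ t in Ioo (0:ℝ) 1, ∫⁻ s in Ioi (0:ℝ), ENNReal.ofReal (LAPI_H k x v c t s) := by
    apply setLIntegral_congr_fun measurableSet_Ioo
    intro t ht
    simp only
    have hut := hu t ht
    rw [hL.rep _ hut, ← integral_const_mul, ofReal_integral_eq_lintegral_ofReal]
    · apply setLIntegral_congr_fun measurableSet_Ioi
      intro s hs
      simp only [LAPI_H]
      rw [LAPI_eq hs]
    · exact (hL.int _ hut).const_mul _
    · rw [Filter.EventuallyLE, ae_restrict_iff' measurableSet_Ioi]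
      refine Filter.Eventually.of_forall fun s hs => ?_
      have hs' : 0 < s := hs
      have := hL.pos s hs'
      have := ht.1
      simp only [Pi.zero_apply]
      positivity
  -- step 2
  have mH : Measurable (Function.uncurry (fun t s => ENNReal.ofReal (LAPI_H k x v c t s))) := by
    unfold Function.uncurry LAPI_H
    fun_prop
  have s2 : ∫⁻ t in Ioo (0:ℝ) 1, ∫⁻ s in Ioi (0:ℝ), ENNReal.ofReal (LAPI_H k x v c t s) =
      ∫⁻ s in Ioi (0:ℝ), ∫⁻ t in Ioo (0:ℝ) 1, ENNReal.ofReal (LAPI_H k x v c t s) :=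
    lintegral_lintegral_swap mH.aemeasurable
  -- step 3
  have s3 : ∫⁻ s in Ioi (0:ℝ), ∫⁻ t in Ioo (0:ℝ) 1, ENNReal.ofReal (LAPI_H k x v c t s) =
      ∫⁻ s in Ioi (0:ℝ), ∫⁻ q in Ioi (0:ℝ),
        (if q < s then ENNReal.ofReal (LAPI_G k x v c q s) else 0) := by
    apply setLIntegral_congr_fun measurableSet_Ioi
    intro s hs
    simp only
    rw [LAPI_sub hk hs]
    have h1 : (fun q => if q < s then ENNReal.ofReal (LAPI_G k x v c q s) else 0) =
        (Iio s).indicator (fun q => ENNReal.ofReal (LAPI_G k x v c q s)) := by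
      funext q
      rw [indicator_apply]
      rfl
    rw [h1, lintegral_indicator measurableSet_Iio, Measure.restrict_restrict measurableSet_Iio]
    congr 2
    ext q
    simp only [mem_Ioo, mem_inter_iff, mem_Iio, mem_Ioi]
    tauto
  -- step 4
  have mG : Measurable (Function.uncurry
      (fun s q => if q < s then ENNReal.ofReal (LAPI_G k x v c q s) else 0)) := by
    unfold Function.uncurry LAPI_G
    apply Measurable.ite
    · exact measurableSet_lt measurable_snd measurable_fst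
    · fun_prop
    · exact measurable_const
  have s4 : ∫⁻ s in Ioi (0:ℝ), ∫⁻ q in Ioi (0:ℝ),
        (if q < s then ENNReal.ofReal (LAPI_G k x v c q s) else 0) =
      ∫⁻ q in Ioi (0:ℝ), ∫⁻ s in Ioi (0:ℝ),
        (if q < s then ENNReal.ofReal (LAPI_G k x v c q s) else 0) :=
    lintegral_lintegral_swap mG.aemeasurable
  rw [s1, s2, s3, s4]
  apply setLIntegral_congr_fun measurableSet_Ioi
  intro q hq
  have hq0 : 0 < q := hq
  simp only
  -- step 5
  have h1 : (fun s => if q < s then ENNReal.ofReal (LAPI_G k x v c q s) else 0) =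
      (Ioi q).indicator (fun s => ENNReal.ofReal (LAPI_G k x v c q s)) := by
    funext s
    rw [indicator_apply]
    rfl
  rw [h1, lintegral_indicator measurableSet_Ioi, Measure.restrict_restrict measurableSet_Ioi]
  have h2 : Ioi q ∩ Ioi (0:ℝ) = Ioi q := by
    ext s
    simp only [mem_inter_iff, mem_Ioi]
    constructor
    · exact fun h => h.1
    · exact fun h => ⟨h, hq0.trans h⟩
  rw [h2]
  -- translation
  have h3 : ∫⁻ s in Ioi q, ENNReal.ofReal (LAPI_G k x v c q s) =
      ∫⁻ p in Ioi (0:ℝ), ENNReal.ofReal (LAPI_G k x v c q (p + q)) := by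
    rw [← lintegral_indicator measurableSet_Ioi, ← lintegral_indicator measurableSet_Ioi]
    rw [← lintegral_add_right_eq_self _ q]
    congr 1
    funext p
    rw [indicator_apply, indicator_apply]
    have : (p + q ∈ Ioi q) ↔ (p ∈ Ioi (0:ℝ)) := by
      simp only [mem_Ioi]
      constructor <;> intro h <;> linarith
    simp only [this]
  rw [h3]
  obtain ⟨hint, -⟩ := hN k F c x q hL hx hq0
  have h4 : (1 / 2) * (Real.exp (-(q * v)) * q ^ ((k : ℝ) / 2 - 1) * Nn c x q) =
      ∫ p in Ioi (0:ℝ), (1 / 2) * (Real.exp (-(q * v)) * q ^ ((k : ℝ) / 2 - 1)) *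
        (Real.exp (-(p * x)) * c (p + q)) := by
    rw [integral_const_mul, Nn]
    ring
  rw [h4, ofReal_integral_eq_lintegral_ofReal]
  · apply setLIntegral_congr_fun measurableSet_Ioi
    intro p hp
    have hp0 : 0 < p := hp
    simp only [LAPI_G]
    rw [LAPI_eq (by linarith), add_sub_cancel_right]
  · exact hint.const_mul _
  · rw [Filter.EventuallyLE, ae_restrict_iff' measurableSet_Ioi]
    refine Filter.Eventually.of_forall fun p hp => ?_
    have hp0 : 0 < p := hp
    have := hL.pos (p + q) (by linarith)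
    simp only [Pi.zero_apply]
    positivity

theorem LAPI_measF {k : ℕ} {F c : ℝ → ℝ} {x v : ℝ} (hL : LapRep k F c) (hx : 0 < x) (hv : 0 < v) :
    AEStronglyMeasurable (fun t : ℝ => t ^ (k - 1) * F (x + t ^ 2 * (v - x)))
      (volume.restrict (Ioo (0:ℝ) 1)) := by
  have hcm := LAPI_meas hL.cont
  have hm : Measurable (fun p : ℝ × ℝ => LAPI_H k x v c p.1 p.2) := by
    unfold LAPI_H
    fun_prop
  have h1 : StronglyMeasurable (fun t : ℝ => ∫ s in Ioi (0:ℝ), LAPI_H k x v c t s) :=
    hm.stronglyMeasurable.integral_prod_right'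
  refine h1.aestronglyMeasurable.congr ?_
  rw [Filter.EventuallyEq, ae_restrict_iff' measurableSet_Ioo]
  refine Filter.Eventually.of_forall fun t ht => ?_
  have hut : 0 < x + t ^ 2 * (v - x) := by
    have h1 : t ^ 2 < 1 := by
      have := ht.1; have := ht.2; nlinarith
    have h2 : 0 ≤ t ^ 2 := sq_nonneg t
    nlinarith
  rw [hL.rep _ hut, ← integral_const_mul]
  apply setIntegral_congr_fun measurableSet_Ioi
  intro s hs
  simp only [LAPI_H]
  rw [LAPI_eq hs]

theorem LAPI_measN {k : ℕ} {F c : ℝ → ℝ} {x v : ℝ} (hL : LapRep k F c) :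
    AEStronglyMeasurable
      (fun q : ℝ => Real.exp (-(q * v)) * q ^ ((k : ℝ) / 2 - 1) * Nn c x q)
      (volume.restrict (Ioi (0:ℝ))) := by
  have hcm := LAPI_meas hL.cont
  have hm : Measurable (fun p : ℝ × ℝ => Real.exp (-(p.2 * x)) * LAPI_c c (p.2 + p.1)) := by
    fun_prop
  have h1 : StronglyMeasurable
      (fun q : ℝ => ∫ p in Ioi (0:ℝ), Real.exp (-(p * x)) * LAPI_c c (p + q)) :=
    hm.stronglyMeasurable.integral_prod_right'
  have h2 : Measurable (fun q : ℝ => Real.exp (-(q * v)) * q ^ ((k : ℝ) / 2 - 1)) := by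
    fun_prop
  refine (h2.stronglyMeasurable.mul h1).aestronglyMeasurable.congr ?_
  rw [Filter.EventuallyEq, ae_restrict_iff' measurableSet_Ioi]
  refine Filter.Eventually.of_forall fun q hq => ?_
  have hq0 : 0 < q := hq
  simp only [Pi.mul_apply, Nn]
  congr 1
  apply setIntegral_congr_fun measurableSet_Ioi
  intro p hp
  have hp0 : 0 < p := hp
  simp only
  rw [LAPI_eq (by linarith)]

theorem LAPI (h : S_NPOS) : S_LAPI := by
  intro k F c x v hk hL hx hv
  have hmain := LAPI_main h hk hL hx hv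
  have hFnn : ∀ u : ℝ, 0 < u → 0 ≤ F u := by
    intro u hu
    rw [hL.rep u hu]
    apply setIntegral_nonneg measurableSet_Ioi
    intro s hs
    have hs' : 0 < s := hs
    have := hL.pos s hs'
    positivity
  have hm0 : 0 < min x v := lt_min hx hv
  have hFle : ∀ u : ℝ, min x v ≤ u → F u ≤ F (min x v) := by
    intro u hu
    rw [hL.rep u (hm0.trans_le hu), hL.rep _ hm0]
    apply setIntegral_mono_on (hL.int u (hm0.trans_le hu)) (hL.int _ hm0) measurableSet_Ioi
    intro s hs
    have hs' : 0 < s := hs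
    have hcs := hL.pos s hs'
    have h1 : Real.exp (-(s * u)) ≤ Real.exp (-(s * min x v)) := by
      apply Real.exp_le_exp.2
      nlinarith
    have h2 : 0 ≤ s ^ ((k : ℝ) / 2) * c s := by positivity
    nlinarith
  have hu : ∀ t ∈ Ioo (0:ℝ) 1, min x v ≤ x + t ^ 2 * (v - x) := by
    intro t ht
    have h1 : t ^ 2 < 1 := by
      have := ht.1; have := ht.2; nlinarith
    have h2 : 0 ≤ t ^ 2 := sq_nonneg t
    have h3 := min_le_left x v
    have h4 := min_le_right x v
    nlinarith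
  have hRnn : ∀ q ∈ Ioi (0:ℝ), 0 ≤ Real.exp (-(q * v)) * q ^ ((k : ℝ) / 2 - 1) * Nn c x q := by
    intro q hq
    have hq0 : 0 < q := hq
    have := (h k F c x q hL hx hq0).2
    positivity
  -- finiteness
  have hfin : ∫⁻ t in Ioo (0:ℝ) 1, ENNReal.ofReal (t ^ (k - 1) * F (x + t ^ 2 * (v - x))) < ∞ := by
    calc ∫⁻ t in Ioo (0:ℝ) 1, ENNReal.ofReal (t ^ (k - 1) * F (x + t ^ 2 * (v - x)))
        ≤ ∫⁻ t in Ioo (0:ℝ) 1, ENNReal.ofReal (F (min x v)) := by
          apply setLIntegral_mono' measurableSet_Ioo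
          intro t ht
          apply ENNReal.ofReal_le_ofReal
          have h1 := hFle _ (hu t ht)
          have h2 := hFnn _ (hm0.trans_le (hu t ht))
          have h3 : t ^ (k - 1) ≤ 1 := pow_le_one₀ ht.1.le ht.2.le
          have h4 : 0 ≤ t ^ (k - 1) := pow_nonneg ht.1.le _
          nlinarith
      _ < ∞ := by
          rw [setLIntegral_const]
          apply ENNReal.mul_lt_top ENNReal.ofReal_lt_top
          simp
  have hM := LAPI_measN (x := x) (v := v) hL
  have hint : IntegrableOn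
      (fun q : ℝ => (1 / 2) * (Real.exp (-(q * v)) * q ^ ((k : ℝ) / 2 - 1) * Nn c x q))
      (Ioi 0) := by
    refine ⟨hM.const_mul _, ?_⟩
    rw [hasFiniteIntegral_iff_ofReal]
    · rw [← hmain]
      exact hfin
    · rw [Filter.EventuallyLE, ae_restrict_iff' measurableSet_Ioi]
      refine Filter.Eventually.of_forall fun q hq => ?_
      have := hRnn q hq
      simp only [Pi.zero_apply]
      positivity
  refine ⟨?_, ?_⟩
  · have h5 := hint.const_mul 2
    refine h5.congr (Filter.Eventually.of_forall fun q => ?_)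
    simp only
    ring
  · rw [← integral_const_mul]
    unfold op
    rw [intervalIntegral.integral_of_le zero_le_one, integral_Ioc_eq_integral_Ioo]
    rw [integral_eq_lintegral_of_nonneg_ae _ (LAPI_measF hL hx hv),
      integral_eq_lintegral_of_nonneg_ae _ hint.1, hmain]
    · rw [Filter.EventuallyLE, ae_restrict_iff' measurableSet_Ioi]
      refine Filter.Eventually.of_forall fun q hq => ?_
      have := hRnn q hq
      simp only [Pi.zero_apply]
      positivity
    · rw [Filter.EventuallyLE, ae_restrict_iff' measurableSet_Ioo]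
      refine Filter.Eventually.of_forall fun t ht => ?_
      have h2 := hFnn _ (hm0.trans_le (hu t ht))
      have := ht.1
      simp only [Pi.zero_apply]
      positivity

end Pool.Agent.H41R2.OP
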