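import Pool.Agent.H41R2.OP.Defs

set_option autoImplicit false

noncomputable section

open MeasureTheory Set
open scoped ENNReal Topology

namespace Pool.Agent.H41R2.OP

theorem LAPS_id (k : ℕ) (hk : 1 ≤ k) (c : ℝ → ℝ) (x u s : ℝ) (hs : 0 < s) :
    Real.exp (-(s * u)) * s ^ (((k - 1 : ℕ) : ℝ) / 2) * nextc c x s =
      (1 / 2) * (Real.exp (-(s * u)) * s ^ ((k : ℝ) / 2 - 1) * Nn c x s) := by
  unfold nextc
  have h1 : ((k - 1 : ℕ) : ℝ) = (k : ℝ) - 1 := by
    rw [Nat.cast_sub hk, Nat.cast_one]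
  have h2 : s ^ ((k : ℝ) / 2 - 1) = s ^ (((k - 1 : ℕ) : ℝ) / 2) * s ^ (-(1 / 2) : ℝ) := by
    rw [← Real.rpow_add hs, h1]
    congr 1
    ring
  rw [h2]
  ring

theorem LAPS (h1 : S_NPOS) (h2 : S_NCON) (h3 : S_NLC) (h4 : S_LAPI) : S_LAPS := by
  intro k F c x hk hF hx
  constructor
  · intro s hs
    unfold nextc
    have := (h1 k F c x s hF hx hs).2
    have h5 : 0 < s ^ (-(1 / 2) : ℝ) := Real.rpow_pos_of_pos hs _
    positivity
  · unfold nextc
    refine ContinuousOn.mul (ContinuousOn.mul continuousOn_const ?_) (h2 k F c x hF hx)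
    intro s hs
    exact (Real.continuousAt_rpow_const s _ (Or.inl (ne_of_gt hs))).continuousWithinAt
  · exact h3 k F c x hF hx
  · intro u hu
    have := (h4 k F c x u hk hF hx hu).1.const_mul (1 / 2)
    refine IntegrableOn.congr_fun this (fun s hs => ?_) measurableSet_Ioi
    exact (LAPS_id k hk c x u s hs).symm
  · intro u hu
    rw [(h4 k F c x u hk hF hx hu).2, ← integral_const_mul]
    refine setIntegral_congr_fun measurableSet_Ioi (fun s hs => ?_)
    exact (LAPS_id k hk c x u s hs).symm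

end Pool.Agent.H41R2.OP
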