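import Pool.Agent.H41R2.OP.Defs

/-!
LC4: multiplicative convexity gives the four point inequality.
-/

namespace Pool.Agent.H41R2.OP

theorem LC4t : S_LC4 := by
  intro c hc hLC a p q ha hp hq
  rcases (add_nonneg hp hq).eq_or_lt with h0 | h0
  · have hp0 : p = 0 := by linarith
    have hq0 : q = 0 := by linarith
    rw [hp0, hq0]
    simp
  · have hne : p + q ≠ 0 := h0.ne'
    have ht0 : 0 ≤ q / (p + q) := div_nonneg hq h0.le
    have ht1 : q / (p + q) ≤ 1 := by
      rw [div_le_one h0]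
      linarith
    have hs : 0 < a + p + q := by linarith
    obtain ⟨θ, hθ⟩ : ∃ θ : ℝ, θ = q / (p + q) := ⟨_, rfl⟩
    rw [← hθ] at ht0 ht1
    have e1 : θ * a + (1 - θ) * (a + p + q) = a + p := by
      rw [hθ]; field_simp; ring
    have e2 : (1 - θ) * a + (1 - (1 - θ)) * (a + p + q) = a + q := by
      rw [hθ]; field_simp; ring
    have h1 := hLC a (a + p + q) θ ha hs ht0 ht1
    have h2 := hLC a (a + p + q) (1 - θ) ha hs (by linarith) (by linarith)
    rw [e1] at h1
    rw [e2] at h2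
    have e3 : (1 : ℝ) - (1 - θ) = θ := by ring
    rw [e3] at h2
    have hca := hc a ha
    have hcs := hc (a + p + q) hs
    have h3 : c (a + p) * c (a + q) ≤
        ((c a) ^ θ * (c (a + p + q)) ^ (1 - θ)) * ((c a) ^ (1 - θ) * (c (a + p + q)) ^ θ) :=
      mul_le_mul h1 h2 (hc _ (by linarith)).le (by positivity)
    refine h3.trans (le_of_eq ?_)
    have e4 : (c a) ^ θ * (c a) ^ (1 - θ) = c a := by
      rw [← Real.rpow_add hca]
      simp
    have e5 : (c (a + p + q)) ^ (1 - θ) * (c (a + p + q)) ^ θ = c (a + p + q) := by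
      rw [← Real.rpow_add hcs]
      simp
    calc ((c a) ^ θ * (c (a + p + q)) ^ (1 - θ)) * ((c a) ^ (1 - θ) * (c (a + p + q)) ^ θ)
        = ((c a) ^ θ * (c a) ^ (1 - θ)) * ((c (a + p + q)) ^ (1 - θ) * (c (a + p + q)) ^ θ) := by
          ring
      _ = c a * c (a + p + q) := by rw [e4, e5]

end Pool.Agent.H41R2.OP
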