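import Pool.Agent.H41R2.OP.Defs

set_option autoImplicit false

noncomputable section

open MeasureTheory Set
open scoped ENNReal Topology

namespace Pool.Agent.H41R2.OP

theorem MBW_ind_meas (ρ : ℝ) : Measurable (ind ρ) := by
  unfold ind
  exact Measurable.ite measurableSet_Iic measurable_const measurable_const

theorem MBW_ideal_diff (i : ℕ) : ideal (i + 1) - ideal i =
    2 / (((i : ℕ) + 1 : ℝ) * ((i : ℕ) + 2)) := by
  unfold ideal
  push_cast
  have h1 : (i : ℝ) + 1 ≠ 0 := by positivity
  have h2 : (i : ℝ) + 2 ≠ 0 := by positivity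
  have h3 : (i : ℝ) + 1 + 1 ≠ 0 := by positivity
  field_simp
  ring

theorem MBW (h1 : S_ORD) : S_MBW := by
  intro d ρ _
  have h := h1 d ideal (ind ρ) 1 (MBW_ind_meas ρ) (by
    intro v
    unfold ind
    split_ifs <;> simp)
  unfold W
  rw [← h]
  set C : Set (Fin d → ℝ) := {y | Antitone y ∧ ∀ i, 0 ≤ y i ∧ y i ≤ 1} with hC
  set B : Set (Fin d → ℝ) := {y | ∑ i : Fin d, 2 / (((i : ℕ) + 1 : ℝ) * ((i : ℕ) + 2)) * y i ^ 2 ≤
    ρ ^ 2} with hB
  have hBcl : IsClosed B := isClosed_le (by fun_prop) continuous_const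
  have hCcl : IsClosed C := by
    have e : C = {y | Antitone y} ∩ ⋂ i, ({y | 0 ≤ y i} ∩ {y | y i ≤ 1}) := by
      ext y
      simp [hC]
    rw [e]
    refine isClosed_antitone.inter (isClosed_iInter fun i => ?_)
    exact (isClosed_le continuous_const (continuous_apply i)).inter
      (isClosed_le (continuous_apply i) continuous_const)
  have hm : mball d ρ = B ∩ C := by
    ext y
    simp only [mball, hB, hC, Set.mem_inter_iff, Set.mem_ofPred_eq]
    tauto
  have hfin : volume (mball d ρ) ≠ ∞ := by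
    have hb : Bornology.IsBounded (mball d ρ) := by
      refine (Metric.isBounded_Icc (0 : Fin d → ℝ) 1).subset ?_
      intro y hy
      refine ⟨fun i => (hy.2.1 i).1, fun i => (hy.2.1 i).2⟩
    exact hb.measure_lt_top.ne
  have hint : ∫ y in C, ind ρ (ideal 0 + ∑ i : Fin d, (ideal ((i : ℕ) + 1) - ideal i) * y i ^ 2) =
      (volume (mball d ρ)).toReal := by
    have e1 : ∀ y : Fin d → ℝ,
        ind ρ (ideal 0 + ∑ i : Fin d, (ideal ((i : ℕ) + 1) - ideal i) * y i ^ 2) =
        B.indicator 1 y := by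
      intro y
      have e2 : ideal 0 = 0 := by simp [ideal]
      simp only [MBW_ideal_diff, e2, zero_add, ind, Set.indicator, hB, Set.mem_ofPred_eq,
        Pi.one_apply]
    simp only [e1]
    rw [integral_indicator_one hBcl.measurableSet, measureReal_restrict_apply hBcl.measurableSet,
      ← hm]
    rfl
  rw [hint, ENNReal.ofReal_toReal hfin]

end Pool.Agent.H41R2.OP
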