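import Pool.Agent.H41R2.OP.Defs

set_option autoImplicit false

noncomputable section

open MeasureTheory Set
open scoped ENNReal Topology

namespace Pool.Agent.H41R2.OP

theorem ML_aux (h1 : S_LAPE) (h2 : S_FOP) (h3 : S_ONE) (k : ℕ) (U : ℝ) (F0 E0 c0 : ℝ → ℝ) (a : ℝ)
    (ha : 0 < a) (haU : a ≤ U) (hE : LapRep k E0 c0) (hF : ContinuousOn F0 (Ioi 0))
    (hm : MonotoneOn (fun v => F0 v / E0 v) (Ici a)) (xs ys : List ℝ)
    (hxy : List.Forall₂ (· ≤ ·) xs ys) : ∀ ps : List ℝ, (ps ++ xs).length ≤ k →
    (∀ x ∈ ps ++ xs, a ≤ x) → (∀ y ∈ ps ++ ys, y ≤ U) → (ps ++ xs).Pairwise (· ≤ ·) →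
    (ps ++ ys).Pairwise (· ≤ ·) →
    fo (ps ++ xs) k F0 U * fo (ps ++ ys) k E0 U ≤ fo (ps ++ ys) k F0 U * fo (ps ++ xs) k E0 U := by
  obtain ⟨e1, e2, e3, e4⟩ := h1 k E0 c0 hE
  have hpos : ∀ zs : List ℝ, (∀ z ∈ zs, a ≤ z) → 0 < fo zs k E0 U := fun zs hz =>
    (h2 zs k E0 (fun z h => lt_of_lt_of_le ha (hz z h)) e2).2 e1 U (lt_of_lt_of_le ha haU)
  induction hxy with
  | nil => intro ps _ _ _ _ _; exact le_rfl
  | @cons x y xs ys hab hl ih =>
    intro ps hlen hxs hys px py
    have hlenxy : xs.length = ys.length := hl.length_eq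
    have hxU : x ≤ U := hab.trans (hys y (by simp))
    have hax : a ≤ x := hxs x (by simp)
    have hyys : ∀ z ∈ ys, y ≤ z := by
      intro z hz
      rw [List.pairwise_append] at py
      exact (List.pairwise_cons.1 py.2.1).1 z hz
    have hpx : ∀ p ∈ ps, p ≤ x := by
      intro p hp
      rw [List.pairwise_append] at px
      exact px.2.2 p hp x (by simp)
    have hpy : ∀ p ∈ ps, ∀ z ∈ ys, p ≤ z := by
      intro p hp z hz
      rw [List.pairwise_append] at py
      exact py.2.2 p hp z (by simp [hz])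
    have hps : ps.Pairwise (· ≤ ·) := by
      rw [List.pairwise_append] at py
      exact py.1
    have hysp : ys.Pairwise (· ≤ ·) := by
      rw [List.pairwise_append] at py
      exact (List.pairwise_cons.1 py.2.1).2
    have hpm : (ps ++ x :: ys).Pairwise (· ≤ ·) := by
      rw [List.pairwise_append]
      refine ⟨hps, List.pairwise_cons.2 ⟨fun z hz => hab.trans (hyys z hz), hysp⟩, ?_⟩
      intro p hp z hz
      rw [List.mem_cons] at hz
      rcases hz with rfl | hz
      · exact hpx p hp
      · exact hpy p hp z hz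
    have i1 := ih (ps ++ [x])
      (by simpa using hlen) (by simpa using hxs)
      (by
        intro z hz
        rw [List.append_assoc, List.mem_append, List.mem_append] at hz
        rcases hz with hz | hz | hz
        · exact hys z (by simp [hz])
        · rw [List.mem_singleton] at hz
          rw [hz]
          exact hxU
        · exact hys z (by simp [hz]))
      (by simpa using px) (by simpa using hpm)
    simp only [List.append_assoc, List.singleton_append] at i1
    have i2 := h3 k ps ys x y U F0 E0 c0 a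
      (by
        rw [List.length_append, List.length_cons] at hlen
        omega)
      ha (fun p hp => ⟨hxs p (by simp [hp]), hpx p hp⟩) hps hax hab (hys y (by simp))
      (fun z hz => ⟨hyys z hz, hys z (by simp [hz])⟩) hysp hE hF hm
    have p1 : 0 < fo (ps ++ x :: xs) k E0 U := hpos _ hxs
    have p2 : 0 < fo (ps ++ x :: ys) k E0 U := hpos _ (by
      intro z hz
      rw [List.mem_append, List.mem_cons] at hz
      rcases hz with hz | rfl | hz
      · exact hxs z (by simp [hz])
      · exact hax
      · exact (hax.trans hab).trans (hyys z hz))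
    have p3 : 0 < fo (ps ++ y :: ys) k E0 U := hpos _ (by
      intro z hz
      rw [List.mem_append, List.mem_cons] at hz
      rcases hz with hz | rfl | hz
      · exact hxs z (by simp [hz])
      · exact hax.trans hab
      · exact (hax.trans hab).trans (hyys z hz))
    refine le_of_mul_le_mul_right ?_ p2
    calc fo (ps ++ x :: xs) k F0 U * fo (ps ++ y :: ys) k E0 U * fo (ps ++ x :: ys) k E0 U
        = (fo (ps ++ x :: xs) k F0 U * fo (ps ++ x :: ys) k E0 U) * fo (ps ++ y :: ys) k E0 U := by
          ring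
      _ ≤ (fo (ps ++ x :: ys) k F0 U * fo (ps ++ x :: xs) k E0 U) * fo (ps ++ y :: ys) k E0 U :=
          mul_le_mul_of_nonneg_right i1 p3.le
      _ = (fo (ps ++ x :: ys) k F0 U * fo (ps ++ y :: ys) k E0 U) * fo (ps ++ x :: xs) k E0 U := by
          ring
      _ ≤ (fo (ps ++ y :: ys) k F0 U * fo (ps ++ x :: ys) k E0 U) * fo (ps ++ x :: xs) k E0 U :=
          mul_le_mul_of_nonneg_right i2 p1.le
      _ = _ := by ring

theorem ML (h1 : S_LAPE) (h2 : S_FOP) (h3 : S_ONE) : S_ML := by
  intro k xs ys U F0 E0 c0 a hl ha haU hxy hx hy px py hE hF hm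
  exact ML_aux h1 h2 h3 k U F0 E0 c0 a ha haU hE hF hm xs ys hxy [] hl hx hy px py

end Pool.Agent.H41R2.OP
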