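import Pool.Agent.H41R2.OP.Defs

set_option autoImplicit false

noncomputable section

open MeasureTheory Set
open scoped ENNReal Topology

namespace Pool.Agent.H41R2.OP

theorem MONv_cont (k : ℕ) (x v' : ℝ) (hx : 0 < x) (hv : x ≤ v') (F : ℝ → ℝ)
    (hF : ContinuousOn F (Ioi 0)) :
    Continuous (fun t : ℝ => t ^ (k - 1) * F (x + t ^ 2 * (v' - x))) := by
  refine (continuous_pow _).mul (hF.comp_continuous (by fun_prop) ?_)
  intro t
  have : 0 ≤ t ^ 2 * (v' - x) := mul_nonneg (sq_nonneg _) (by linarith)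
  show 0 < x + t ^ 2 * (v' - x)
  linarith

theorem MONv_sub (k : ℕ) (x v v' s : ℝ) (F : ℝ → ℝ) (hs : s ^ 2 * (v' - x) = v - x) :
    s ^ (k - 1) * s * op k x F v
      = ∫ t in (0:ℝ)..s, t ^ (k - 1) * F (x + t ^ 2 * (v' - x)) := by
  have h1 := intervalIntegral.smul_integral_comp_mul_left (a := 0) (b := 1)
    (fun t : ℝ => t ^ (k - 1) * F (x + t ^ 2 * (v' - x))) s
  rw [mul_zero, mul_one] at h1
  rw [← h1, smul_eq_mul, mul_comm (s ^ (k - 1)) s, mul_assoc]
  congr 1
  unfold op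
  rw [← intervalIntegral.integral_const_mul]
  refine intervalIntegral.integral_congr ?_
  intro t _
  show s ^ (k - 1) * (t ^ (k - 1) * F (x + t ^ 2 * (v - x)))
    = (s * t) ^ (k - 1) * F (x + (s * t) ^ 2 * (v' - x))
  have e : (s * t) ^ 2 * (v' - x) = t ^ 2 * (v - x) := by rw [← hs]; ring
  rw [e, mul_pow]
  ring

theorem MONv (_h : S_CHE) : S_MONv := by
  intro k x v v' w q hx hxv hvv hw hq hwp hqm
  rcases eq_or_lt_of_le hvv with rfl | hlt
  · exact le_rfl
  have hxv' : x ≤ v' := hxv.trans hvv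
  have hd : 0 < v' - x := by linarith
  -- continuity
  have hqw : ContinuousOn (fun u => q u * w u) (Ioi 0) := hq.mul hw
  have cm := MONv_cont k x v' hx hxv' w hw
  have cQ := MONv_cont k x v' hx hxv' (fun u => q u * w u) hqw
  have hmem : ∀ t : ℝ, 0 ≤ t → t ≤ 1 → x + t ^ 2 * (v' - x) ∈ Icc x v' := by
    intro t ht0 ht1
    have h1 : 0 ≤ t ^ 2 * (v' - x) := mul_nonneg (sq_nonneg _) hd.le
    have h2 : t ^ 2 * (v' - x) ≤ 1 * (v' - x) :=
      mul_le_mul_of_nonneg_right (pow_le_one₀ ht0 ht1) hd.le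
    exact ⟨by linarith, by linarith⟩
  have hpos : ∀ t : ℝ, 0 ≤ t → 0 ≤ t ^ (k - 1) * w (x + t ^ 2 * (v' - x)) := by
    intro t ht
    have h1 : 0 ≤ t ^ 2 * (v' - x) := mul_nonneg (sq_nonneg _) hd.le
    exact mul_nonneg (pow_nonneg ht _) (hwp _ (by linarith)).le
  -- comparison of the integrals on `[0, s]` and `[s, 1]`
  have hI : ∀ s : ℝ, 0 ≤ s → s ≤ 1 →
      (∫ t in (0:ℝ)..s, t ^ (k - 1) * (q (x + t ^ 2 * (v' - x)) * w (x + t ^ 2 * (v' - x))))
        ≤ q (x + s ^ 2 * (v' - x)) * ∫ t in (0:ℝ)..s, t ^ (k - 1) * w (x + t ^ 2 * (v' - x)) := by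
    intro s hs0 hs1
    rw [← intervalIntegral.integral_const_mul]
    refine intervalIntegral.integral_mono_on hs0 (cQ.intervalIntegrable _ _)
      ((cm.const_mul _).intervalIntegrable _ _) ?_
    intro t ht
    have h1 := hmem t ht.1 (ht.2.trans hs1)
    have h2 := hmem s hs0 hs1
    have h3 : x + t ^ 2 * (v' - x) ≤ x + s ^ 2 * (v' - x) := by
      have : t ^ 2 ≤ s ^ 2 := pow_le_pow_left₀ ht.1 ht.2 2
      have := mul_le_mul_of_nonneg_right this hd.le
      linarith
    have h4 := hqm h1 h2 h3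
    have h5 := mul_le_mul_of_nonneg_right h4 (hpos t ht.1)
    calc t ^ (k - 1) * (q (x + t ^ 2 * (v' - x)) * w (x + t ^ 2 * (v' - x)))
        = q (x + t ^ 2 * (v' - x)) * (t ^ (k - 1) * w (x + t ^ 2 * (v' - x))) := by ring
      _ ≤ _ := h5
  have hJ : ∀ s : ℝ, 0 ≤ s → s ≤ 1 →
      q (x + s ^ 2 * (v' - x)) * (∫ t in s..1, t ^ (k - 1) * w (x + t ^ 2 * (v' - x)))
        ≤ ∫ t in s..1, t ^ (k - 1) * (q (x + t ^ 2 * (v' - x)) * w (x + t ^ 2 * (v' - x))) := by
    intro s hs0 hs1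
    rw [← intervalIntegral.integral_const_mul]
    refine intervalIntegral.integral_mono_on hs1 ((cm.const_mul _).intervalIntegrable _ _)
      (cQ.intervalIntegrable _ _) ?_
    intro t ht
    have h1 := hmem t (hs0.trans ht.1) ht.2
    have h2 := hmem s hs0 hs1
    have h3 : x + s ^ 2 * (v' - x) ≤ x + t ^ 2 * (v' - x) := by
      have : s ^ 2 ≤ t ^ 2 := pow_le_pow_left₀ hs0 ht.1 2
      have := mul_le_mul_of_nonneg_right this hd.le
      linarith
    have h4 := hqm h2 h1 h3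
    have h5 := mul_le_mul_of_nonneg_right h4 (hpos t (hs0.trans ht.1))
    calc _ ≤ q (x + t ^ 2 * (v' - x)) * (t ^ (k - 1) * w (x + t ^ 2 * (v' - x))) := h5
      _ = _ := by ring
  rcases eq_or_lt_of_le hxv with rfl | hxlt
  · -- `v = x`
    have e1 : ∀ F : ℝ → ℝ, op k x F x = F x * ∫ t in (0:ℝ)..1, t ^ (k - 1) := by
      intro F
      unfold op
      rw [← intervalIntegral.integral_const_mul]
      refine intervalIntegral.integral_congr ?_
      intro t _
      show t ^ (k - 1) * F (x + t ^ 2 * (x - x)) = F x * t ^ (k - 1)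
      rw [sub_self, mul_zero, add_zero]
      ring
    have h2 := hJ 0 le_rfl zero_le_one
    have e2 : x + (0:ℝ) ^ 2 * (v' - x) = x := by ring
    rw [e2] at h2
    have h3 : q x * op k x w v' ≤ op k x (fun u => q u * w u) v' := h2
    have h4 : 0 ≤ ∫ t in (0:ℝ)..1, t ^ (k - 1) :=
      intervalIntegral.integral_nonneg zero_le_one (fun t ht => pow_nonneg ht.1 _)
    rw [e1 (fun u => q u * w u), e1 w]
    have h5 : 0 ≤ w x * ∫ t in (0:ℝ)..1, t ^ (k - 1) := mul_nonneg (hwp x hx).le h4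
    have h6 := mul_le_mul_of_nonneg_right h3 h5
    calc q x * w x * (∫ t in (0:ℝ)..1, t ^ (k - 1)) * op k x w v'
        = q x * op k x w v' * (w x * ∫ t in (0:ℝ)..1, t ^ (k - 1)) := by ring
      _ ≤ _ := h6
  · -- `x < v`
    set s := Real.sqrt ((v - x) / (v' - x)) with hs
    have hr0 : 0 < (v - x) / (v' - x) := div_pos (by linarith) hd
    have hr1 : (v - x) / (v' - x) ≤ 1 := by rw [div_le_one hd]; linarith
    have hs0 : 0 < s := Real.sqrt_pos.mpr hr0
    have hs1 : s ≤ 1 := by rw [hs, Real.sqrt_le_one]; exact hr1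
    have hs2 : s ^ 2 * (v' - x) = v - x := by
      rw [hs, Real.sq_sqrt hr0.le]
      field_simp
    have e1 := MONv_sub k x v v' s (fun u => q u * w u) hs2
    have e2 := MONv_sub k x v v' s w hs2
    have hc : 0 < s ^ (k - 1) * s := by positivity
    have h1 := hI s hs0.le hs1
    have h2 := hJ s hs0.le hs1
    have h3 : op k x (fun u => q u * w u) v'
        = (∫ t in (0:ℝ)..s, t ^ (k - 1) * (q (x + t ^ 2 * (v' - x)) * w (x + t ^ 2 * (v' - x))))
          + ∫ t in s..1, t ^ (k - 1) * (q (x + t ^ 2 * (v' - x)) * w (x + t ^ 2 * (v' - x))) :=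
      (intervalIntegral.integral_add_adjacent_intervals (cQ.intervalIntegrable _ _)
        (cQ.intervalIntegrable _ _)).symm
    have h4 : op k x w v'
        = (∫ t in (0:ℝ)..s, t ^ (k - 1) * w (x + t ^ 2 * (v' - x)))
          + ∫ t in s..1, t ^ (k - 1) * w (x + t ^ 2 * (v' - x)) :=
      (intervalIntegral.integral_add_adjacent_intervals (cm.intervalIntegrable _ _)
        (cm.intervalIntegrable _ _)).symm
    have h5 : 0 ≤ ∫ t in (0:ℝ)..s, t ^ (k - 1) * w (x + t ^ 2 * (v' - x)) :=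
      intervalIntegral.integral_nonneg hs0.le (fun t ht => hpos t ht.1)
    have h6 : 0 ≤ ∫ t in s..1, t ^ (k - 1) * w (x + t ^ 2 * (v' - x)) :=
      intervalIntegral.integral_nonneg hs1 (fun t ht => hpos t (hs0.le.trans ht.1))
    refine le_of_mul_le_mul_left ?_ hc
    have e3 : s ^ (k - 1) * s * (op k x (fun u => q u * w u) v * op k x w v')
        = (s ^ (k - 1) * s * op k x (fun u => q u * w u) v) * op k x w v' := by ring
    have e4 : s ^ (k - 1) * s * (op k x (fun u => q u * w u) v' * op k x w v)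
        = op k x (fun u => q u * w u) v' * (s ^ (k - 1) * s * op k x w v) := by ring
    rw [e3, e4, e1, e2, h3, h4]
    have h7 := mul_le_mul_of_nonneg_right h1 h6
    have h8 := mul_le_mul_of_nonneg_right h2 h5
    nlinarith [h7, h8]

end Pool.Agent.H41R2.OP
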