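import Pool.Agent.H41R2.OP.Defs

namespace Pool.Agent.H41R2.OP

open MeasureTheory Set

/-- continuity of a composition with the quadratic path -/
theorem MONx_cont {x t : ℝ} {w : ℝ → ℝ} (hx : 0 < x) (hxt : x ≤ t) (hw : ContinuousOn w (Ioi 0)) :
    ContinuousOn (fun s : ℝ => w (x + s ^ 2 * (t - x))) (Icc 0 1) := by
  refine hw.comp (by fun_prop) fun s hs => ?_
  have h1 : 0 ≤ s ^ 2 * (t - x) := mul_nonneg (sq_nonneg _) (by linarith)
  change 0 < x + s ^ 2 * (t - x)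
  linarith

theorem MONx (h1 : S_CHE) (_h2 : S_OPM) : S_MONx := by
  intro k x x' t w q hx hxx hxt hw hq hwp hwa hwl hqm
  have hx' : 0 < x' := lt_of_lt_of_le hx hxx
  have hxt' : x ≤ t := hxx.trans hxt
  set A : ℝ → ℝ := fun s => x + s ^ 2 * (t - x) with hA
  set B : ℝ → ℝ := fun s => x' + s ^ 2 * (t - x') with hB
  have hsq : ∀ s : ℝ, s ∈ Icc (0 : ℝ) 1 → 0 ≤ s ^ 2 ∧ s ^ 2 ≤ 1 := fun s hs =>
    ⟨sq_nonneg _, pow_le_one₀ hs.1 hs.2⟩
  have hAx : ∀ s ∈ Icc (0 : ℝ) 1, x ≤ A s ∧ A s ≤ t := by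
    intro s hs
    obtain ⟨a, b⟩ := hsq s hs
    constructor
    · simp only [hA]; nlinarith
    · simp only [hA]; nlinarith
  have hBx : ∀ s ∈ Icc (0 : ℝ) 1, x' ≤ B s ∧ B s ≤ t := by
    intro s hs
    obtain ⟨a, b⟩ := hsq s hs
    constructor
    · simp only [hB]; nlinarith
    · simp only [hB]; nlinarith
  have hAB : ∀ s ∈ Icc (0 : ℝ) 1, A s ≤ B s := by
    intro s hs
    obtain ⟨a, b⟩ := hsq s hs
    simp only [hA, hB]
    nlinarith
  have hA0 : ∀ s ∈ Icc (0 : ℝ) 1, 0 < A s := fun s hs => lt_of_lt_of_le hx (hAx s hs).1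
  have hB0 : ∀ s ∈ Icc (0 : ℝ) 1, 0 < B s := fun s hs => lt_of_lt_of_le hx' (hBx s hs).1
  have cwA : ContinuousOn (fun s => w (A s)) (Icc 0 1) := MONx_cont hx hxt' hw
  have cwB : ContinuousOn (fun s => w (B s)) (Icc 0 1) := MONx_cont hx' hxt hw
  have cqA : ContinuousOn (fun s => q (A s)) (Icc 0 1) := MONx_cont hx hxt' hq
  have cqB : ContinuousOn (fun s => q (B s)) (Icc 0 1) := MONx_cont hx' hxt hq
  have ck : ContinuousOn (fun s : ℝ => s ^ (k - 1)) (Icc 0 1) := by fun_prop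
  have hint : ∀ f : ℝ → ℝ, ContinuousOn f (Icc 0 1) → IntegrableOn f (Ioc 0 1) := fun f hf =>
    (hf.integrableOn_compact isCompact_Icc).mono_set Ioc_subset_Icc_self
  have hsub : ∀ s : ℝ, s ∈ Ioc (0 : ℝ) 1 → s ∈ Icc (0 : ℝ) 1 := fun s hs => ⟨hs.1.le, hs.2⟩
  set W : ℝ → ℝ := fun s => s ^ (k - 1) * w (A s) with hW
  set H : ℝ → ℝ := fun s => w (B s) / w (A s) with hH
  have cW : ContinuousOn W (Icc 0 1) := ck.mul cwA
  have cH : ContinuousOn H (Icc 0 1) := cwB.div cwA fun s hs => (hwp _ (hA0 s hs)).ne'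
  have hW0 : ∀ s ∈ Icc (0 : ℝ) 1, 0 ≤ W s := fun s hs =>
    mul_nonneg (pow_nonneg hs.1 _) (hwp _ (hA0 s hs)).le
  have hHW : ∀ s ∈ Icc (0 : ℝ) 1, H s * W s = s ^ (k - 1) * w (B s) := by
    intro s hs
    have := (hwp _ (hA0 s hs)).ne'
    simp only [hH, hW]
    field_simp
  have hmA : ∀ s ∈ Icc (0 : ℝ) 1, ∀ s' ∈ Icc (0 : ℝ) 1, s ≤ s' → A s ≤ A s' := by
    intro s hs s' hs' hss
    have : s ^ 2 ≤ s' ^ 2 := pow_le_pow_left₀ hs.1 hss 2
    simp only [hA]
    nlinarith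
  have mg : MonotoneOn (fun s => q (A s)) (Ioc 0 1) := by
    intro s hs s' hs' hss
    exact hqm (hAx s (hsub s hs)) (hAx s' (hsub s' hs')) (hmA s (hsub s hs) s' (hsub s' hs') hss)
  have mh : MonotoneOn H (Ioc 0 1) := by
    intro s hs s' hs' hss
    have i := hsub s hs
    have i' := hsub s' hs'
    have hs2 : s ^ 2 ≤ s' ^ 2 := pow_le_pow_left₀ hs.1.le hss 2
    have hp := hAB s i
    have hr := hmA s i s' i' hss
    have e1 := hwl (A s) (B s - A s) (A s' - A s) (hA0 s i) (by linarith) (by linarith)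
    have e2 : A s + (B s - A s) = B s := by ring
    have e3 : A s + (A s' - A s) = A s' := by ring
    have e4 : A s + (B s - A s) + (A s' - A s) = B s + A s' - A s := by ring
    rw [e4, e2, e3] at e1
    have e5 : B s' ≤ B s + A s' - A s := by
      simp only [hA, hB]
      nlinarith
    have e6 : w (B s + A s' - A s) ≤ w (B s') :=
      hwa (hB0 s' i') (lt_of_lt_of_le (hB0 s' i') e5) e5
    have p1 := hwp _ (hA0 s i)
    have p2 := hwp _ (hA0 s' i')
    change w (B s) / w (A s) ≤ w (B s') / w (A s')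
    rw [div_le_div_iff₀ p1 p2]
    nlinarith
  have hche := h1 (Ioc 0 1) W (fun s => q (A s)) H measurableSet_Ioc
    (fun s hs => hW0 s (hsub s hs)) mg mh (hint _ cW) (hint _ (cqA.mul cW)) (hint _ (cH.mul cW))
    (hint _ ((cqA.mul cH).mul cW))
  have e1 : op k x (fun u => q u * w u) t = ∫ s in Ioc (0 : ℝ) 1, q (A s) * W s := by
    rw [op, intervalIntegral.integral_of_le zero_le_one]
    refine setIntegral_congr_fun measurableSet_Ioc fun s _ => ?_
    simp only [hW, hA]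
    ring
  have e2 : op k x' w t = ∫ s in Ioc (0 : ℝ) 1, H s * W s := by
    rw [op, intervalIntegral.integral_of_le zero_le_one]
    refine setIntegral_congr_fun measurableSet_Ioc fun s hs => ?_
    exact (hHW s (hsub s hs)).symm
  have e3 : op k x w t = ∫ s in Ioc (0 : ℝ) 1, W s := by
    rw [op, intervalIntegral.integral_of_le zero_le_one]
  have e4 : (∫ s in Ioc (0 : ℝ) 1, q (A s) * H s * W s) ≤ op k x' (fun u => q u * w u) t := by
    rw [op, intervalIntegral.integral_of_le zero_le_one]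
    refine setIntegral_mono_on (hint _ ((cqA.mul cH).mul cW)) (hint _ (ck.mul (cqB.mul cwB)))
      measurableSet_Ioc fun s hs => ?_
    have i := hsub s hs
    have hle : q (A s) ≤ q (B s) := hqm (hAx s i)
      ⟨hxx.trans (hBx s i).1, (hBx s i).2⟩ (hAB s i)
    have h5 : q (A s) * H s * W s = q (A s) * (s ^ (k - 1) * w (B s)) := by
      rw [mul_assoc, hHW s i]
    have h6 : 0 ≤ s ^ (k - 1) * w (B s) := mul_nonneg (pow_nonneg i.1 _) (hwp _ (hB0 s i)).le
    change q (A s) * H s * W s ≤ s ^ (k - 1) * (q (B s) * w (B s))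
    rw [h5]
    have h7 := mul_le_mul_of_nonneg_right hle h6
    linarith
  have e5 : 0 ≤ ∫ s in Ioc (0 : ℝ) 1, W s :=
    setIntegral_nonneg measurableSet_Ioc fun s hs => hW0 s (hsub s hs)
  rw [e1, e2, e3]
  exact hche.trans (mul_le_mul_of_nonneg_right e4 e5)

end Pool.Agent.H41R2.OP
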