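import Pool.Agent.H41R2.OP.Defs

set_option autoImplicit false

noncomputable section

open MeasureTheory Set
open scoped ENNReal Topology

namespace Pool.Agent.H41R2.OP

def MP_v {n : ℕ} (u : E (n + 1)) (φ : E n →ₗᵢ[ℝ] E (n + 1)) : Fin (n + 1) → E (n + 1) :=
  Fin.cons u (fun i => φ (EuclideanSpace.single i 1))

lemma MP_orth {n : ℕ} (u : E (n + 1)) (φ : E n →ₗᵢ[ℝ] E (n + 1)) (hu : ‖u‖ = 1)
    (h : ∀ w, inner ℝ u (φ w) = 0) : Orthonormal ℝ (MP_v u φ) := by
  rw [orthonormal_iff_ite]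
  intro i j
  refine Fin.cases ?_ (fun i' => ?_) i
  · refine Fin.cases ?_ (fun j' => ?_) j
    · simp [MP_v, hu]
    · simp only [MP_v, Fin.cons_zero, Fin.cons_succ, h]
      rw [if_neg (Fin.succ_ne_zero j').symm]
  · refine Fin.cases ?_ (fun j' => ?_) j
    · simp only [MP_v, Fin.cons_zero, Fin.cons_succ]
      rw [real_inner_comm, h, if_neg (Fin.succ_ne_zero i')]
    · simp only [MP_v, Fin.cons_succ, LinearIsometry.inner_map_map]
      simp [EuclideanSpace.inner_single_left, Fin.succ_inj, Pi.single_apply]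

def MP_b {n : ℕ} (u : E (n + 1)) (φ : E n →ₗᵢ[ℝ] E (n + 1)) (hu : ‖u‖ = 1)
    (h : ∀ w, inner ℝ u (φ w) = 0) : OrthonormalBasis (Fin (n + 1)) ℝ (E (n + 1)) :=
  (basisOfOrthonormalOfCardEqFinrank (MP_orth u φ hu h) (by simp)).toOrthonormalBasis
    (by rw [coe_basisOfOrthonormalOfCardEqFinrank]; exact MP_orth u φ hu h)

lemma MP_b_apply {n : ℕ} (u : E (n + 1)) (φ : E n →ₗᵢ[ℝ] E (n + 1)) (hu : ‖u‖ = 1)
    (h : ∀ w, inner ℝ u (φ w) = 0) (i : Fin (n + 1)) : MP_b u φ hu h i = MP_v u φ i := by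
  simp [MP_b]

lemma MP_phi {n : ℕ} (φ : E n →ₗᵢ[ℝ] E (n + 1)) (w : E n) :
    φ w = ∑ i, w i • φ (EuclideanSpace.single i 1) := by
  have : w = ∑ i, w i • (EuclideanSpace.single i (1:ℝ) : E n) := by
    ext j
    simp [Pi.single_apply]
  conv_lhs => rw [this]
  rw [map_sum]
  simp

theorem MP : S_MP := by
  intro n u φ hu h
  have key : (fun p : ℝ × E n => p.1 • u + φ p.2) =
      (MP_b u φ hu h).repr.symm ∘ (WithLp.toLp 2) ∘
        (MeasurableEquiv.piFinSuccAbove (fun _ : Fin (n + 1) => ℝ) 0).symm ∘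
          (Prod.map id (WithLp.ofLp : E n → Fin n → ℝ)) := by
    funext p
    simp only [Function.comp]
    rw [← OrthonormalBasis.sum_repr_symm, Fin.sum_univ_succ]
    rw [MP_phi φ p.2]
    simp only [MP_b_apply]
    simp [MP_v, MeasurableEquiv.piFinSuccAbove]
  rw [key]
  constructor
  · refine (OrthonormalBasis.measurePreserving_repr_symm _).comp ?_
    refine (PiLp.volume_preserving_toLp (Fin (n + 1))).comp ?_
    refine (volume_preserving_piFinSuccAbove (fun _ : Fin (n + 1) => ℝ) 0).symm.comp ?_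
    exact (MeasurePreserving.id volume).prod (PiLp.volume_preserving_ofLp (Fin n))
  · refine (MP_b u φ hu h).repr.symm.bijective.comp ?_
    refine (WithLp.toLp_bijective 2).comp ?_
    refine (MeasurableEquiv.piFinSuccAbove (fun _ : Fin (n + 1) => ℝ) 0).symm.bijective.comp ?_
    exact Function.bijective_id.prodMap (WithLp.ofLp_bijective 2)

end Pool.Agent.H41R2.OP
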