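import Pool.Agent.H41R2.OP.Defs

/-! Task NCON: continuity of `Nn`. -/

set_option autoImplicit false

noncomputable section

open MeasureTheory Set
open scoped ENNReal Topology

namespace Pool.Agent.H41R2.OP

theorem NCON_pre (q : ℝ) : (fun p : ℝ => p + q) ⁻¹' (Ioi q) = Ioi 0 := by
  ext p
  simp

theorem NCON_eq (c : ℝ → ℝ) (x q : ℝ) :
    Nn c x q = Real.exp (q * x) * ∫ s in Ioi q, Real.exp (-(s * x)) * c s := by
  have h1 : MeasurePreserving (fun p : ℝ => p + q) volume volume :=
    measurePreserving_add_right volume q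
  have h2 : MeasurableEmbedding (fun p : ℝ => p + q) := measurableEmbedding_addRight q
  have h3 := h1.setIntegral_preimage_emb h2 (fun s : ℝ => Real.exp (-(s * x)) * c s) (Ioi q)
  rw [NCON_pre] at h3
  rw [← h3, ← integral_const_mul]
  unfold Nn
  refine integral_congr_ae (Filter.Eventually.of_forall fun p => ?_)
  simp only
  rw [← mul_assoc, ← Real.exp_add]
  congr 2
  ring

theorem NCON_int (h : S_NPOS) {k : ℕ} {F c : ℝ → ℝ} {x : ℝ} (hL : LapRep k F c) (hx : 0 < x)
    {q : ℝ} (hq : 0 < q) : IntegrableOn (fun s : ℝ => Real.exp (-(s * x)) * c s) (Ioi q) := by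
  have h1 : MeasurePreserving (fun p : ℝ => p + q) volume volume :=
    measurePreserving_add_right volume q
  have h2 : MeasurableEmbedding (fun p : ℝ => p + q) := measurableEmbedding_addRight q
  rw [← h1.integrableOn_comp_preimage h2, NCON_pre]
  have h3 := ((h k F c x q hL hx hq).1).const_mul (Real.exp (-(q * x)))
  refine h3.congr (Filter.Eventually.of_forall fun p => ?_)
  simp only [Function.comp]
  rw [← mul_assoc, ← Real.exp_add]
  congr 2
  ring

theorem NCON (h : S_NPOS) : S_NCON := by
  intro k F c x hL hx q hq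
  have he : 0 < q / 2 := by
    have : 0 < q := hq
    linarith
  have h1 := (NCON_int h hL hx he).continuousOn_Ici_primitive_Ioi
  have h2 : ContinuousAt (fun b => ∫ s in Ioi b, Real.exp (-(s * x)) * c s) q :=
    h1.continuousAt (Ici_mem_nhds (by have : 0 < q := hq; linarith))
  have h3 : Nn c x = fun q => Real.exp (q * x) * ∫ s in Ioi q, Real.exp (-(s * x)) * c s :=
    funext fun q => NCON_eq c x q
  rw [h3]
  refine ContinuousAt.continuousWithinAt (ContinuousAt.mul ?_ h2)
  fun_prop

end Pool.Agent.H41R2.OP
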