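import Pool.Agent.H41R2.OP.Defs

set_option autoImplicit false

noncomputable section

open MeasureTheory Set
open scoped ENNReal Topology

namespace Pool.Agent.H41R2.OP

theorem NDU (h1 : S_PHI) (h2 : S_STEP) (h3 : S_PR) : S_NDU := by
  intro d n X S c0 m L x c hPk hF hcX hcS hav hx2 c' hc'X hc'S hne heq
  obtain ⟨φ, hφ⟩ := h1 n (av L m c) hav
  have hst := h2 d n X S c0 m L x c φ hPk hF hcX hcS hav hφ hx2
  have hfar := hst.far c' hc'X (by
    simp only [Finset.mem_insert, not_or]
    exact ⟨hne, hc'S⟩)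
  set a := av L m c with ha
  set b := bv m x c with hb
  set a' := av L m c' with ha'
  set b' := bv m x c' with hb'
  have ha0 : ‖a‖ ≠ 0 := norm_ne_zero_iff.mpr hav
  have e1 : inner ℝ a' (foot a b) = b' := by
    unfold foot
    rw [inner_smul_right]
    have e2 : inner ℝ (b • a') a = inner ℝ (b' • a) a := by rw [heq]
    rw [real_inner_smul_left, real_inner_smul_left, real_inner_self_eq_norm_sq] at e2
    have e3 : b / ‖a‖ ^ 2 * inner ℝ a' a = (b * inner ℝ a' a) / ‖a‖ ^ 2 := by ring
    rw [e3, e2]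
    field_simp
  have e4 : inner ℝ a' (foot a b) = 2 * inner ℝ (c' - m) (L (foot a b)) := by
    rw [ha']
    unfold av
    rw [real_inner_smul_left, (h3 (n + 1) d L (c' - m)).1]
  have e5 : ‖L (foot a b)‖ ^ 2 = hh a b ^ 2 := by
    rw [L.norm_map]
    unfold foot hh
    rw [norm_smul, mul_pow, Real.norm_eq_abs, sq_abs]
    field_simp
  have e6 : ‖c' - (m + L (foot a b))‖ ^ 2 = x + hh a b ^ 2 := by
    have e7 : c' - (m + L (foot a b)) = (c' - m) - L (foot a b) := by abel
    rw [e7, norm_sub_sq_real, e5]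
    have e8 : b' = ‖c' - m‖ ^ 2 - x := rfl
    have e9 : 2 * inner ℝ (c' - m) (L (foot a b)) = b' := by rw [← e4, e1]
    linarith
  rw [e6] at hfar
  linarith

end Pool.Agent.H41R2.OP
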