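import Pool.Agent.H41R2.OP.Defs

set_option autoImplicit false

noncomputable section

open MeasureTheory Set
open scoped ENNReal Topology

namespace Pool.Agent.H41R2.OP

theorem NLC_mul {f g : ℝ → ℝ} (hf : ∀ s : ℝ, 0 < s → 0 < f s) (hg : ∀ s : ℝ, 0 < s → 0 < g s)
    (h1 : LC f) (h2 : LC g) : LC (fun s => f s * g s) := by
  intro s t θ hs ht h0 h1'
  have hr : 0 < θ * s + (1 - θ) * t := by
    rcases h0.eq_or_lt with h | h
    · rw [← h]
      linarith
    · have := mul_pos h hs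
      have := mul_nonneg (sub_nonneg.2 h1') ht.le
      linarith
  show f _ * g _ ≤ (f s * g s) ^ θ * (f t * g t) ^ (1 - θ)
  rw [Real.mul_rpow (hf s hs).le (hg s hs).le, Real.mul_rpow (hf t ht).le (hg t ht).le]
  calc f (θ * s + (1 - θ) * t) * g (θ * s + (1 - θ) * t)
      ≤ ((f s) ^ θ * (f t) ^ (1 - θ)) * ((g s) ^ θ * (g t) ^ (1 - θ)) :=
        mul_le_mul (h1 s t θ hs ht h0 h1') (h2 s t θ hs ht h0 h1') (hg _ hr).le
          (mul_nonneg (Real.rpow_nonneg (hf s hs).le _) (Real.rpow_nonneg (hf t ht).le _))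
    _ = _ := by ring

theorem NLC_const {a : ℝ} (ha : 0 < a) : LC (fun _ => a) := by
  intro s t θ hs ht h0 h1
  show a ≤ a ^ θ * a ^ (1 - θ)
  rw [← Real.rpow_add ha]
  have : θ + (1 - θ) = 1 := by ring
  rw [this, Real.rpow_one]

theorem NLC_pow : LC (fun q : ℝ => q ^ (-(1 / 2) : ℝ)) := by
  intro s t θ hs ht h0 h1
  show (θ * s + (1 - θ) * t) ^ (-(1 / 2) : ℝ) ≤
    (s ^ (-(1 / 2) : ℝ)) ^ θ * (t ^ (-(1 / 2) : ℝ)) ^ (1 - θ)
  have h2 := Real.geom_mean_le_arith_mean2_weighted h0 (sub_nonneg.2 h1) hs.le ht.le (by ring)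
  have h3 : 0 < s ^ θ * t ^ (1 - θ) :=
    mul_pos (Real.rpow_pos_of_pos hs _) (Real.rpow_pos_of_pos ht _)
  have h4 := Real.rpow_le_rpow_of_nonpos h3 h2 (z := (-(1 / 2) : ℝ)) (by norm_num)
  refine h4.trans (le_of_eq ?_)
  rw [Real.mul_rpow (Real.rpow_pos_of_pos hs _).le (Real.rpow_pos_of_pos ht _).le,
    ← Real.rpow_mul hs.le, ← Real.rpow_mul ht.le, ← Real.rpow_mul hs.le, ← Real.rpow_mul ht.le,
    mul_comm θ, mul_comm (1 - θ)]

theorem NLC_Nn (h : S_NPOS) {k : ℕ} {F c : ℝ → ℝ} {x : ℝ} (hF : LapRep k F c) (hx : 0 < x) :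
    LC (Nn c x) := by
  intro s t θ hs ht h0 h1
  have hr : 0 < θ * s + (1 - θ) * t := by
    rcases h0.eq_or_lt with h | h
    · rw [← h]
      linarith
    · have := mul_pos h hs
      have := mul_nonneg (sub_nonneg.2 h1) ht.le
      linarith
  obtain ⟨is, ps⟩ := h k F c x s hF hx hs
  obtain ⟨it, pt⟩ := h k F c x t hF hx ht
  obtain ⟨ir, pr⟩ := h k F c x _ hF hx hr
  have hC : 0 < (Nn c x s) ^ θ * (Nn c x t) ^ (1 - θ) :=
    mul_pos (Real.rpow_pos_of_pos ps _) (Real.rpow_pos_of_pos pt _)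
  have hpt : ∀ p ∈ Ioi (0 : ℝ), Real.exp (-(p * x)) * c (p + (θ * s + (1 - θ) * t)) ≤
      (Nn c x s) ^ θ * (Nn c x t) ^ (1 - θ) *
        (θ * (Nn c x s)⁻¹ * (Real.exp (-(p * x)) * c (p + s)) +
          (1 - θ) * (Nn c x t)⁻¹ * (Real.exp (-(p * x)) * c (p + t))) := by
    intro p hp
    have hp' : (0 : ℝ) < p := hp
    have e : p + (θ * s + (1 - θ) * t) = θ * (p + s) + (1 - θ) * (p + t) := by ring
    have cs : 0 < c (p + s) := hF.pos _ (by linarith)
    have ct : 0 < c (p + t) := hF.pos _ (by linarith)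
    have l1 := hF.lc (p + s) (p + t) θ (by linarith) (by linarith) h0 h1
    rw [← e] at l1
    have hA : 0 < Real.exp (-(p * x)) * c (p + s) := mul_pos (Real.exp_pos _) cs
    have hB : 0 < Real.exp (-(p * x)) * c (p + t) := mul_pos (Real.exp_pos _) ct
    have l2 : Real.exp (-(p * x)) * c (p + (θ * s + (1 - θ) * t)) ≤
        (Real.exp (-(p * x)) * c (p + s)) ^ θ * (Real.exp (-(p * x)) * c (p + t)) ^ (1 - θ) := by
      refine (mul_le_mul_of_nonneg_left l1 (Real.exp_pos _).le).trans (le_of_eq ?_)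
      rw [Real.mul_rpow (Real.exp_pos _).le cs.le, Real.mul_rpow (Real.exp_pos _).le ct.le]
      have e2 : Real.exp (-(p * x)) =
          Real.exp (-(p * x)) ^ θ * Real.exp (-(p * x)) ^ (1 - θ) := by
        rw [← Real.rpow_add (Real.exp_pos _)]
        have : θ + (1 - θ) = 1 := by ring
        rw [this, Real.rpow_one]
      calc Real.exp (-(p * x)) * (c (p + s) ^ θ * c (p + t) ^ (1 - θ))
          = (Real.exp (-(p * x)) ^ θ * Real.exp (-(p * x)) ^ (1 - θ)) *
            (c (p + s) ^ θ * c (p + t) ^ (1 - θ)) := by rw [← e2]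
        _ = _ := by ring
    have l3 := Real.geom_mean_le_arith_mean2_weighted h0 (sub_nonneg.2 h1)
      (mul_pos (inv_pos.2 ps) hA).le (mul_pos (inv_pos.2 pt) hB).le (by ring)
    rw [Real.mul_rpow (inv_pos.2 ps).le hA.le, Real.mul_rpow (inv_pos.2 pt).le hB.le,
      Real.inv_rpow ps.le, Real.inv_rpow pt.le] at l3
    have l4 := mul_le_mul_of_nonneg_left l3 hC.le
    refine l2.trans (le_trans (le_of_eq ?_) (l4.trans (le_of_eq ?_)))
    · have n1 := (Real.rpow_pos_of_pos ps θ).ne'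
      have n2 := (Real.rpow_pos_of_pos pt (1 - θ)).ne'
      field_simp
    · ring
  have hle := setIntegral_mono_on ir
    (((is.const_mul (θ * (Nn c x s)⁻¹)).add (it.const_mul ((1 - θ) * (Nn c x t)⁻¹))).const_mul
      ((Nn c x s) ^ θ * (Nn c x t) ^ (1 - θ))) measurableSet_Ioi hpt
  refine hle.trans (le_of_eq ?_)
  simp only [Pi.add_apply]
  rw [integral_const_mul, integral_add (is.const_mul _) (it.const_mul _), integral_const_mul,
    integral_const_mul]
  have e1 : ∫ p in Ioi (0 : ℝ), Real.exp (-(p * x)) * c (p + s) = Nn c x s := rfl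
  have e2 : ∫ p in Ioi (0 : ℝ), Real.exp (-(p * x)) * c (p + t) = Nn c x t := rfl
  have e3 : θ * (Nn c x s)⁻¹ * Nn c x s + (1 - θ) * (Nn c x t)⁻¹ * Nn c x t = 1 := by
    rw [mul_assoc θ, inv_mul_cancel₀ ps.ne', mul_assoc (1 - θ), inv_mul_cancel₀ pt.ne']
    ring
  rw [e1, e2, e3, mul_one]

theorem NLC (h : S_NPOS) : S_NLC := by
  intro k F c x hF hx
  have e : nextc c x = fun q => ((1 / 2) * q ^ (-(1 / 2) : ℝ)) * Nn c x q := rfl
  rw [e]
  refine NLC_mul ?_ (fun q hq => (h k F c x q hF hx hq).2)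
    (NLC_mul (fun _ _ => by norm_num) (fun q hq => Real.rpow_pos_of_pos hq _)
      (NLC_const (by norm_num)) NLC_pow) (NLC_Nn h hF hx)
  intro q hq
  exact mul_pos (by norm_num) (Real.rpow_pos_of_pos hq _)

end Pool.Agent.H41R2.OP
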