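import Pool.Agent.H41R2.OP.Defs

set_option autoImplicit false

open MeasureTheory Set

namespace Pool.Agent.H41R2.OP

theorem NPOS : S_NPOS := by
  intro k F c x q hL hx hq
  -- the function on `Ioi q`
  have hg : IntegrableOn (fun s : ℝ => Real.exp (-((s - q) * x)) * c s) (Ioi q) := by
    have h1 : IntegrableOn (fun s : ℝ => (Real.exp (q * x) * (q ^ ((k : ℝ) / 2))⁻¹) *
        (Real.exp (-(s * x)) * s ^ ((k : ℝ) / 2) * c s)) (Ioi q) :=
      ((hL.int x hx).mono_set (Ioi_subset_Ioi hq.le)).const_mul _
    refine Integrable.mono' h1 ?_ ?_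
    · apply ContinuousOn.aestronglyMeasurable _ measurableSet_Ioi
      apply ContinuousOn.mul
      · fun_prop
      · exact hL.cont.mono (Ioi_subset_Ioi hq.le)
    · rw [ae_restrict_iff' measurableSet_Ioi]
      refine Filter.Eventually.of_forall fun s hs => ?_
      have hs' : q < s := hs
      have hs0 : 0 < s := hq.trans hs'
      have hc := hL.pos s hs0
      rw [Real.norm_of_nonneg (mul_nonneg (Real.exp_pos _).le hc.le)]
      have h2 : Real.exp (-((s - q) * x)) = Real.exp (q * x) * Real.exp (-(s * x)) := by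
        rw [← Real.exp_add]
        congr 1
        ring
      have hqk : 0 < q ^ ((k : ℝ) / 2) := Real.rpow_pos_of_pos hq _
      have h3 : 1 ≤ (q ^ ((k : ℝ) / 2))⁻¹ * s ^ ((k : ℝ) / 2) := by
        rw [← div_eq_inv_mul, one_le_div hqk]
        exact Real.rpow_le_rpow hq.le hs'.le (by positivity)
      rw [h2]
      calc Real.exp (q * x) * Real.exp (-(s * x)) * c s
          = 1 * (Real.exp (q * x) * Real.exp (-(s * x)) * c s) := (one_mul _).symm
        _ ≤ ((q ^ ((k : ℝ) / 2))⁻¹ * s ^ ((k : ℝ) / 2)) *
            (Real.exp (q * x) * Real.exp (-(s * x)) * c s) := by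
            apply mul_le_mul_of_nonneg_right h3
            positivity
        _ = (Real.exp (q * x) * (q ^ ((k : ℝ) / 2))⁻¹) *
            (Real.exp (-(s * x)) * s ^ ((k : ℝ) / 2) * c s) := by ring
  have hf : IntegrableOn (fun p : ℝ => Real.exp (-(p * x)) * c (p + q)) (Ioi 0) := by
    have h1 := (measurePreserving_add_right (volume : Measure ℝ) q).integrableOn_comp_preimage
      (MeasurableEquiv.addRight q).measurableEmbedding
      (f := fun s : ℝ => Real.exp (-((s - q) * x)) * c s) (s := Ioi q)
    have h2 := h1.2 hg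
    have h3 : (fun p : ℝ => p + q) ⁻¹' Ioi q = Ioi 0 := by
      ext p
      simp
    rw [h3] at h2
    refine h2.congr_fun (fun p _ => ?_) measurableSet_Ioi
    show Real.exp (-((p + q - q) * x)) * c (p + q) = Real.exp (-(p * x)) * c (p + q)
    rw [add_sub_cancel_right]
  refine ⟨hf, ?_⟩
  have hpos : ∀ p ∈ Ioi (0 : ℝ), 0 < Real.exp (-(p * x)) * c (p + q) := by
    intro p hp
    have hp' : 0 < p := hp
    exact mul_pos (Real.exp_pos _) (hL.pos _ (by linarith))
  unfold Nn
  rw [setIntegral_pos_iff_support_of_nonneg_ae _ hf]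
  · have h4 : Function.support (fun p : ℝ => Real.exp (-(p * x)) * c (p + q)) ∩ Ioi 0 = Ioi 0 := by
      ext p
      constructor
      · exact fun h => h.2
      · exact fun h => ⟨(hpos p h).ne', h⟩
    rw [h4, Real.volume_Ioi]
    exact ENNReal.coe_lt_top
  · rw [Filter.EventuallyLE, ae_restrict_iff' measurableSet_Ioi]
    exact Filter.Eventually.of_forall fun p hp => (hpos p hp).le

end Pool.Agent.H41R2.OP
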