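import Pool.Agent.H41R2.OP.Defs

set_option autoImplicit false

open MeasureTheory Set
open scoped ENNReal Topology

namespace Pool.Agent.H41R2.OP

theorem NUL_one {n : ℕ} (v : E n) (hv : v ≠ 0) :
    MeasurableSet {z : E n | inner ℝ v z = 0} ∧ volume {z : E n | inner ℝ v z = 0} = 0 := by
  have h1 : IsClosed {z : E n | inner ℝ v z = 0} :=
    isClosed_eq (continuous_const.inner continuous_id) continuous_const
  refine ⟨h1.measurableSet, ?_⟩
  have h2 : {z : E n | inner ℝ v z = 0} = ((Submodule.span ℝ {v})ᗮ : Submodule ℝ (E n)) := by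
    ext z
    rw [mem_ofPred_eq, SetLike.mem_coe, Submodule.mem_orthogonal_singleton_iff_inner_right]
  rw [h2]
  apply Measure.addHaar_submodule
  intro h3
  have h4 : v ∈ (Submodule.span ℝ {v})ᗮ := by rw [h3]; exact Submodule.mem_top
  rw [Submodule.mem_orthogonal_singleton_iff_inner_right] at h4
  exact hv (inner_self_eq_zero.1 h4)

theorem NUL : S_NUL := by
  intro n ι hι a b G h
  have h1 : Tie a b G = ⋃ j : ι, ⋃ l : ι, {z : E n | (j ∈ G ∧ l ≠ j) ∧
      inner ℝ (b l • a j - b j • a l) z = 0} := by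
    ext z
    simp only [Tie, mem_iUnion, mem_ofPred_eq]
    constructor
    · rintro ⟨j, hj, l, hl, hz⟩
      refine ⟨j, l, ⟨hj, hl⟩, ?_⟩
      rw [inner_sub_left, inner_smul_left, inner_smul_left]
      simp only [conj_trivial]
      linarith
    · rintro ⟨j, l, ⟨hj, hl⟩, hz⟩
      refine ⟨j, hj, l, hl, ?_⟩
      rw [inner_sub_left, inner_smul_left, inner_smul_left] at hz
      simp only [conj_trivial] at hz
      linarith
  have h2 : ∀ j l : ι, MeasurableSet {z : E n | (j ∈ G ∧ l ≠ j) ∧
      inner ℝ (b l • a j - b j • a l) z = 0} ∧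
      volume {z : E n | (j ∈ G ∧ l ≠ j) ∧ inner ℝ (b l • a j - b j • a l) z = 0} = 0 := by
    intro j l
    by_cases hc : j ∈ G ∧ l ≠ j
    · simp only [hc, ne_eq, not_false_eq_true, and_self, true_and]
      exact NUL_one _ (sub_ne_zero.2 (h j hc.1 l hc.2))
    · have : {z : E n | (j ∈ G ∧ l ≠ j) ∧ inner ℝ (b l • a j - b j • a l) z = 0} = ∅ := by
        ext z
        simp only [mem_ofPred_eq, mem_empty_iff_false, iff_false]
        exact fun h' => hc h'.1
      rw [this]
      exact ⟨MeasurableSet.empty, measure_empty⟩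
  rw [h1]
  refine ⟨MeasurableSet.iUnion fun j => MeasurableSet.iUnion fun l => (h2 j l).1, ?_⟩
  rw [measure_iUnion_null_iff]
  intro j
  rw [measure_iUnion_null_iff]
  intro l
  exact (h2 j l).2

end Pool.Agent.H41R2.OP
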