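import Pool.Agent.H41R2.OP.Defs

set_option autoImplicit false

noncomputable section

open MeasureTheory Set
open scoped ENNReal Topology

namespace Pool.Agent.H41R2.OP

theorem ONE_append (ps zs : List ℝ) (k : ℕ) (F : ℝ → ℝ) :
    fo (ps ++ zs) k F = fo zs (k - ps.length) (fo ps k F) := by
  induction ps generalizing k F with
  | nil => rfl
  | cons p ps ih =>
    rw [List.cons_append, fo, ih, fo, List.length_cons]
    congr 1
    omega

theorem ONE_op_congr (k : ℕ) {x v : ℝ} (hx : 0 < x) (hv : 0 < v) {F G : ℝ → ℝ}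
    (h : ∀ u : ℝ, 0 < u → F u = G u) : op k x F v = op k x G v := by
  unfold op
  apply intervalIntegral.integral_congr
  intro t ht
  rw [uIcc_of_le zero_le_one] at ht
  show t ^ (k - 1) * F _ = t ^ (k - 1) * G _
  rw [h]
  have h1 : 0 ≤ t ^ 2 := sq_nonneg t
  have h2 : t ^ 2 ≤ 1 := pow_le_one₀ ht.1 ht.2
  have e : x + t ^ 2 * (v - x) = (1 - t ^ 2) * x + t ^ 2 * v := by ring
  rw [e]
  rcases h2.eq_or_lt with h3 | h3
  · rw [h3]
    linarith
  · have := mul_pos (sub_pos.2 h3) hx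
    have := mul_nonneg h1 hv.le
    linarith

theorem ONE_fo_congr (ys : List ℝ) (k : ℕ) {F G : ℝ → ℝ} (hy : ∀ y ∈ ys, 0 < y)
    (h : ∀ u : ℝ, 0 < u → F u = G u) {v : ℝ} (hv : 0 < v) : fo ys k F v = fo ys k G v := by
  induction ys generalizing k F G with
  | nil => exact h v hv
  | cons y ys ih =>
    rw [fo, fo]
    exact ih (k - 1) (fun z hz => hy z (by simp [hz]))
      (fun u hu => ONE_op_congr k (hy y (by simp)) hu h)

theorem ONE (h1 : S_CNT) (h2 : S_OPP) (h3 : S_MONv) (h4 : S_MONx) (h5 : S_LAPE) (h6 : S_TPB)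
    (h7 : S_PRE) (h8 : S_SUF) (h9 : S_FOM) (h10 : S_FOP) : S_ONE := by
  intro k ps ys x x' U F0 E0 c0 a hlen ha hps pps hax hxx' hx'U hys pys hE hF hm
  have hx : 0 < x := lt_of_lt_of_le ha hax
  have hx' : 0 < x' := lt_of_lt_of_le hx hxx'
  have hU : 0 < U := lt_of_lt_of_le hx' hx'U
  obtain ⟨⟨c, hc⟩, hPc, hPm⟩ := h7 ps k F0 E0 c0 a x (by omega) ha hax hps pps hE hF hm
  simp only [ONE_append, fo]
  generalize fo ps k F0 = P at hPc hPm ⊢
  generalize fo ps k E0 = E at hc hPm ⊢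
  obtain ⟨k1, hk1⟩ : ∃ k1, k1 = k - ps.length := ⟨_, rfl⟩
  rw [← hk1] at hc ⊢
  have hk1' : 1 ≤ k1 := by omega
  obtain ⟨e1, e2, e3, e4⟩ := h5 k1 E c hc
  -- the quotient
  have hq : ContinuousOn (fun v => P v / E v) (Ioi 0) :=
    hPc.div e2 (fun v hv => (e1 v hv).ne')
  have hqE : ∀ u : ℝ, 0 < u → (fun u => (fun v => P v / E v) u * E u) u = P u := fun u hu =>
    div_mul_cancel₀ _ (e1 u hu).ne'
  have c1 := h1 k1 x E hx e2
  have c2 := h1 k1 x P hx hPc
  have c3 := h1 k1 x' E hx' e2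
  have c4 := h1 k1 x' P hx' hPc
  have p1 := h2 k1 x E hx e2 e1
  have p3 := h2 k1 x' E hx' e2 e1
  have hg : MonotoneOn (fun v => op k1 x P v / op k1 x E v) (Icc x' U) := by
    intro v hv v' hv' hvv'
    have hv0 : 0 < v := lt_of_lt_of_le hx' hv.1
    have hv0' : 0 < v' := lt_of_lt_of_le hx' hv'.1
    show op k1 x P v / op k1 x E v ≤ op k1 x P v' / op k1 x E v'
    rw [div_le_div_iff₀ (p1 v hv0) (p1 v' hv0')]
    have := h3 k1 x v v' E (fun v => P v / E v) hx (hxx'.trans hv.1) hvv' e2 hq e1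
      (hPm.mono (fun u hu => hu.1))
    rw [ONE_op_congr k1 hx hv0 hqE, ONE_op_congr k1 hx hv0' hqE] at this
    exact this
  have hh : MonotoneOn (fun v => op k1 x' E v / op k1 x E v) (Icc x' U) := by
    intro v hv v' hv' hvv'
    have hv0 : 0 < v := lt_of_lt_of_le hx' hv.1
    have hv0' : 0 < v' := lt_of_lt_of_le hx' hv'.1
    show op k1 x' E v / op k1 x E v ≤ op k1 x' E v' / op k1 x E v'
    rw [div_le_div_iff₀ (p1 v hv0) (p1 v' hv0')]
    exact h6 k1 E c x x' v v' hk1' hc hx hxx' hv0 hvv'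
  have hys0 : ∀ y ∈ ys, 0 < y := fun y hy => lt_of_lt_of_le hx' (hys y hy).1
  have s1 := h8 ys (k1 - 1) (op k1 x E) (fun v => op k1 x P v / op k1 x E v)
    (fun v => op k1 x' E v / op k1 x E v) x' U hx' hx'U hys pys c1
    (c2.div c1 (fun v hv => (p1 v hv).ne')) (c3.div c1 (fun v hv => (p1 v hv).ne')) p1 hg hh
  have s2 : fo ys (k1 - 1) (fun u => (fun v => op k1 x P v / op k1 x E v) u * op k1 x E u) U =
      fo ys (k1 - 1) (op k1 x P) U :=
    ONE_fo_congr ys _ hys0 (fun u hu => div_mul_cancel₀ _ (p1 u hu).ne') hU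
  have s3 : fo ys (k1 - 1) (fun u => (fun v => op k1 x' E v / op k1 x E v) u * op k1 x E u) U =
      fo ys (k1 - 1) (op k1 x' E) U :=
    ONE_fo_congr ys _ hys0 (fun u hu => div_mul_cancel₀ _ (p1 u hu).ne') hU
  have s4 : fo ys (k1 - 1) (fun u => (fun v => op k1 x P v / op k1 x E v) u *
      (fun v => op k1 x' E v / op k1 x E v) u * op k1 x E u) U ≤
      fo ys (k1 - 1) (op k1 x' P) U := by
    refine h9 ys (k1 - 1) _ _ x' U hx' hx'U hys pys ?_ c4 ?_
    · exact ((c2.div c1 (fun v hv => (p1 v hv).ne')).mul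
        (c3.div c1 (fun v hv => (p1 v hv).ne'))).mul c1
    · intro v hv
      have hv0 : 0 < v := lt_of_lt_of_le hx' hv.1
      have hm := h4 k1 x x' v E (fun v => P v / E v) hx hxx' hv.1 e2 hq e1 e3 e4
        (hPm.mono (fun u hu => hu.1))
      rw [ONE_op_congr k1 hx hv0 hqE, ONE_op_congr k1 hx' hv0 hqE] at hm
      have hp := p1 v hv0
      show op k1 x P v / op k1 x E v * (op k1 x' E v / op k1 x E v) * op k1 x E v ≤ op k1 x' P v
      have e : op k1 x P v / op k1 x E v * (op k1 x' E v / op k1 x E v) * op k1 x E v =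
          op k1 x P v * op k1 x' E v / op k1 x E v := by
        field_simp
      rw [e, div_le_iff₀ hp]
      exact hm
  have s5 : 0 < fo ys (k1 - 1) (op k1 x E) U := (h10 ys (k1 - 1) _ hys0 c1).2 p1 U hU
  rw [s2, s3] at s1
  exact s1.trans (mul_le_mul_of_nonneg_right s4 s5.le)

end Pool.Agent.H41R2.OP
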