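import Mathlib
import Pool.Agent.H41R2.OP.Defs

set_option autoImplicit false

noncomputable section

open MeasureTheory Set

namespace Pool.Agent.H41R2.OP

theorem ONTO : S_ONTO := by
  intro n a φ ha horth y hy
  haveI : Fact (Module.finrank ℝ (E (n + 1)) = n + 1) := ⟨by simp⟩
  have hf : Module.finrank ℝ ((ℝ ∙ a)ᗮ : Submodule ℝ (E (n + 1))) = n :=
    Submodule.finrank_orthogonal_span_singleton ha
  have hr : Module.finrank ℝ (LinearMap.range φ.toLinearMap) = n := by
    rw [LinearMap.finrank_range_of_inj φ.injective]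
    simp
  have hle : LinearMap.range φ.toLinearMap ≤ ((ℝ ∙ a)ᗮ : Submodule ℝ (E (n + 1))) := by
    rintro _ ⟨w, rfl⟩
    exact Submodule.mem_orthogonal_singleton_iff_inner_right.mpr (horth w)
  have heq := Submodule.eq_of_le_of_finrank_eq hle (by rw [hf, hr])
  have hmem : y ∈ ((ℝ ∙ a)ᗮ : Submodule ℝ (E (n + 1))) :=
    Submodule.mem_orthogonal_singleton_iff_inner_right.mpr hy
  rw [← heq] at hmem
  obtain ⟨w, hw⟩ := hmem
  exact ⟨w, hw⟩

end Pool.Agent.H41R2.OP
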