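import Pool.Agent.H41R2.OP.Defs

set_option autoImplicit false

noncomputable section

open MeasureTheory Set
open scoped ENNReal Topology

namespace Pool.Agent.H41R2.OP

theorem OPB : S_OPB := by
  intro k x F M hk hF hM
  have hM0 : 0 ≤ M := le_trans (abs_nonneg _) (hM 0)
  refine ⟨?_, fun v => ?_⟩
  · have h1 : Measurable (fun p : ℝ × ℝ => p.2 ^ (k - 1) * F (x + p.2 ^ 2 * (p.1 - x))) := by
      fun_prop
    have h2 : op k x F = fun v => ∫ t in Ioc (0:ℝ) 1, t ^ (k - 1) * F (x + t ^ 2 * (v - x)) := by
      funext v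
      unfold op
      rw [intervalIntegral.integral_of_le zero_le_one]
    rw [h2]
    exact (h1.stronglyMeasurable.integral_prod_right (ν := volume.restrict (Ioc (0:ℝ) 1))).measurable
  · unfold op
    have := intervalIntegral.norm_integral_le_of_norm_le_const (a := (0:ℝ)) (b := 1) (C := M)
      (f := fun t : ℝ => t ^ (k - 1) * F (x + t ^ 2 * (v - x))) (by
        intro t ht
        rw [uIoc_of_le zero_le_one] at ht
        rw [norm_mul, Real.norm_eq_abs, Real.norm_eq_abs]
        have h3 : |t ^ (k - 1)| ≤ 1 := by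
          rw [abs_of_nonneg (pow_nonneg ht.1.le _)]
          exact pow_le_one₀ ht.1.le ht.2
        calc |t ^ (k - 1)| * |F (x + t ^ 2 * (v - x))| ≤ 1 * M :=
              mul_le_mul h3 (hM _) (abs_nonneg _) zero_le_one
          _ = M := one_mul _)
    simpa using this

end Pool.Agent.H41R2.OP
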