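import Pool.Agent.H41R2.OP.Defs

set_option autoImplicit false

noncomputable section

open MeasureTheory Set
open scoped ENNReal Topology

namespace Pool.Agent.H41R2.OP

theorem OPC_maps {x v t : ℝ} (hxv : x ≤ v) (ht : t ∈ Icc (0 : ℝ) 1) :
    x + t ^ 2 * (v - x) ∈ Icc x v := by
  have h1 : 0 ≤ t ^ 2 := sq_nonneg t
  have h2 : t ^ 2 ≤ 1 := pow_le_one₀ ht.1 ht.2
  constructor <;> nlinarith

theorem OPC_mono {x v s t : ℝ} (hxv : x ≤ v) (hs : 0 ≤ s) (hst : s ≤ t) :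
    x + s ^ 2 * (v - x) ≤ x + t ^ 2 * (v - x) := by
  have h1 : s ^ 2 ≤ t ^ 2 := pow_le_pow_left₀ hs hst 2
  nlinarith

theorem OPC_int {k : ℕ} {x v : ℝ} {F : ℝ → ℝ} (hx : 0 < x) (hxv : x ≤ v)
    (hF : ContinuousOn F (Ioi 0)) :
    IntegrableOn (fun t : ℝ => t ^ (k - 1) * F (x + t ^ 2 * (v - x))) (Ioc 0 1) := by
  have h1 : ContinuousOn (fun t : ℝ => t ^ (k - 1) * F (x + t ^ 2 * (v - x))) (Icc 0 1) := by
    apply ContinuousOn.mul (by fun_prop)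
    apply hF.comp (by fun_prop)
    intro t ht
    exact lt_of_lt_of_le hx (OPC_maps hxv ht).1
  exact (h1.integrableOn_compact isCompact_Icc).mono_set Ioc_subset_Icc_self

theorem OPC_eq (k : ℕ) (x v : ℝ) (F : ℝ → ℝ) :
    op k x F v = ∫ t in Ioc (0 : ℝ) 1, t ^ (k - 1) * F (x + t ^ 2 * (v - x)) := by
  unfold op
  rw [intervalIntegral.integral_of_le zero_le_one]

theorem OPC (h : S_CHE) : S_OPC := by
  intro k x v w g f hx hxv hw hg hf hwp hgm hfm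
  have hsub : ∀ t : ℝ, t ∈ Ioc (0 : ℝ) 1 → t ∈ Icc (0 : ℝ) 1 := fun t ht => ⟨ht.1.le, ht.2⟩
  have key := h (Ioc 0 1) (fun t => t ^ (k - 1) * w (x + t ^ 2 * (v - x)))
    (fun t => g (x + t ^ 2 * (v - x))) (fun t => f (x + t ^ 2 * (v - x))) measurableSet_Ioc
    (fun t ht => mul_nonneg (pow_nonneg ht.1.le _)
      (hwp _ (lt_of_lt_of_le hx (OPC_maps hxv (hsub t ht)).1)).le)
    (fun s hs t ht hst => hgm (OPC_maps hxv (hsub s hs)) (OPC_maps hxv (hsub t ht))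
      (OPC_mono hxv hs.1.le hst))
    (fun s hs t ht hst => hfm (OPC_maps hxv (hsub s hs)) (OPC_maps hxv (hsub t ht))
      (OPC_mono hxv hs.1.le hst))
    (OPC_int hx hxv hw)
    ((OPC_int (k := k) hx hxv (hg.mul hw)).congr_fun (fun t _ => by
      simp only [Pi.mul_apply]; ring) measurableSet_Ioc)
    ((OPC_int (k := k) hx hxv (hf.mul hw)).congr_fun (fun t _ => by
      simp only [Pi.mul_apply]; ring) measurableSet_Ioc)
    ((OPC_int (k := k) hx hxv ((hg.mul hf).mul hw)).congr_fun (fun t _ => by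
      simp only [Pi.mul_apply]; ring) measurableSet_Ioc)
  rw [OPC_eq, OPC_eq, OPC_eq, OPC_eq]
  have e1 : ∫ t in Ioc (0 : ℝ) 1, t ^ (k - 1) * (g (x + t ^ 2 * (v - x)) * w (x + t ^ 2 * (v - x)))
      = ∫ p in Ioc (0 : ℝ) 1, g (x + p ^ 2 * (v - x)) * (p ^ (k - 1) * w (x + p ^ 2 * (v - x))) := by
    congr 1; funext t; ring
  have e2 : ∫ t in Ioc (0 : ℝ) 1, t ^ (k - 1) * (f (x + t ^ 2 * (v - x)) * w (x + t ^ 2 * (v - x)))
      = ∫ p in Ioc (0 : ℝ) 1, f (x + p ^ 2 * (v - x)) * (p ^ (k - 1) * w (x + p ^ 2 * (v - x))) := by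
    congr 1; funext t; ring
  have e3 : ∫ t in Ioc (0 : ℝ) 1, t ^ (k - 1) *
      (g (x + t ^ 2 * (v - x)) * f (x + t ^ 2 * (v - x)) * w (x + t ^ 2 * (v - x)))
      = ∫ p in Ioc (0 : ℝ) 1, g (x + p ^ 2 * (v - x)) * f (x + p ^ 2 * (v - x)) *
        (p ^ (k - 1) * w (x + p ^ 2 * (v - x))) := by
    congr 1; funext t; ring
  rw [e1, e2, e3]
  exact key

end Pool.Agent.H41R2.OP
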