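import Pool.Agent.H41R2.OP.Defs

set_option autoImplicit false

open MeasureTheory Set
open scoped ENNReal Topology

namespace Pool.Agent.H41R2.OP

theorem OPM_mem {x v t : ℝ} (ht : t ∈ Icc (0:ℝ) 1) : x + t ^ 2 * (v - x) ∈ uIcc x v := by
  obtain ⟨h0, h1⟩ := ht
  have h2 : t ^ 2 ≤ 1 := by nlinarith
  have h3 : 0 ≤ t ^ 2 := sq_nonneg t
  rw [mem_uIcc]
  rcases le_total x v with h | h
  · left
    constructor <;> nlinarith
  · right
    constructor <;> nlinarith

theorem OPM_cont (k : ℕ) (x v : ℝ) (F : ℝ → ℝ) (hx : 0 < x) (hv : 0 < v)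
    (hF : ContinuousOn F (Ioi 0)) :
    ContinuousOn (fun t : ℝ => t ^ (k - 1) * F (x + t ^ 2 * (v - x))) (Icc 0 1) := by
  refine ContinuousOn.mul (by fun_prop) ?_
  refine hF.comp (by fun_prop) ?_
  intro t ht
  have h := OPM_mem (x := x) (v := v) ht
  rw [mem_uIcc] at h
  show 0 < x + t ^ 2 * (v - x)
  rcases h with h | h
  · exact hx.trans_le h.1
  · exact hv.trans_le h.1

theorem OPM : S_OPM := by
  intro k x v F G hx hv hF hG h
  unfold op
  refine intervalIntegral.integral_mono_on zero_le_one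
    ((OPM_cont k x v F hx hv hF).intervalIntegrable_of_Icc zero_le_one)
    ((OPM_cont k x v G hx hv hG).intervalIntegrable_of_Icc zero_le_one) ?_
  intro t ht
  exact mul_le_mul_of_nonneg_left (h _ (OPM_mem ht)) (pow_nonneg ht.1 _)

end Pool.Agent.H41R2.OP
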