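import Pool.Agent.H41R2.OP.Defs

set_option autoImplicit false

noncomputable section

open MeasureTheory Set
open scoped ENNReal Topology

namespace Pool.Agent.H41R2.OP

theorem OPP : S_OPP := by
  intro k x F hx hF hpos v hv
  have harg : ∀ t ∈ Icc (0 : ℝ) 1, 0 < x + t ^ 2 * (v - x) := by
    intro t ht
    have h2 : t ^ 2 ≤ 1 := pow_le_one₀ ht.1 ht.2
    have h3 : 0 ≤ t ^ 2 := sq_nonneg t
    rcases le_total v x with h | h
    · nlinarith
    · nlinarith
  unfold op
  refine intervalIntegral.intervalIntegral_pos_of_pos_on ?_ ?_ zero_lt_one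
  · refine ContinuousOn.intervalIntegrable ?_
    rw [uIcc_of_le zero_le_one]
    refine ContinuousOn.mul (by fun_prop) ?_
    refine hF.comp (by fun_prop) ?_
    intro t ht
    exact harg t ht
  · intro t ht
    have h1 := hpos _ (harg t (Ioo_subset_Icc_self ht))
    have h2 : 0 < t ^ (k - 1) := pow_pos ht.1 _
    positivity

end Pool.Agent.H41R2.OP
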