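import Pool.Agent.H41R2.OP.Defs

set_option autoImplicit false

noncomputable section

open MeasureTheory Set
open scoped ENNReal Topology Pointwise

namespace Pool.Agent.H41R2.OP

/-- ordered chamber of the cube -/
def ORD_A (n : ℕ) : Set (Fin n → ℝ) := {y : Fin n → ℝ | Antitone y ∧ ∀ i, 0 ≤ y i ∧ y i ≤ 1}

theorem ORD_A_closed (n : ℕ) : IsClosed (ORD_A n) := by
  have h1 : IsClosed {y : Fin n → ℝ | Antitone y} := by
    have : {y : Fin n → ℝ | Antitone y} = ⋂ i : Fin n, ⋂ j : Fin n, ⋂ _ : i ≤ j, {y | y j ≤ y i} := by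
      ext y; simp only [mem_ofPred_eq, mem_iInter]; exact ⟨fun h i j hij => h hij, fun h i j hij => h i j hij⟩
    rw [this]
    exact isClosed_iInter fun i => isClosed_iInter fun j => isClosed_iInter fun _ =>
      isClosed_le (continuous_apply j) (continuous_apply i)
  have h2 : IsClosed {y : Fin n → ℝ | ∀ i, 0 ≤ y i ∧ y i ≤ 1} := by
    have : {y : Fin n → ℝ | ∀ i, 0 ≤ y i ∧ y i ≤ 1} = ⋂ i : Fin n, ({y | 0 ≤ y i} ∩ {y | y i ≤ 1}) := by
      ext y; simp
    rw [this]
    exact isClosed_iInter fun i => (isClosed_le continuous_const (continuous_apply i)).inter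
      (isClosed_le (continuous_apply i) continuous_const)
  exact h1.inter h2

theorem ORD_A_fin (n : ℕ) : volume (ORD_A n) < ∞ := by
  have hb : ORD_A n ⊆ Set.Icc (fun _ => (0:ℝ)) (fun _ => 1) := by
    intro y hy
    exact ⟨fun i => (hy.2 i).1, fun i => (hy.2 i).2⟩
  exact lt_of_le_of_lt (measure_mono hb) isCompact_Icc.measure_lt_top

theorem ORD_cons (n : ℕ) (t : ℝ) (y : Fin n → ℝ) :
    (Fin.cons t y : Fin (n + 1) → ℝ) ∈ ORD_A (n + 1) ↔
      (0 ≤ t ∧ t ≤ 1) ∧ Antitone y ∧ ∀ i, 0 ≤ y i ∧ y i ≤ t := by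
  constructor
  · rintro ⟨h1, h2⟩
    refine ⟨by simpa using h2 0, ?_, ?_⟩
    · intro i j hij
      have := h1 (Fin.succ_le_succ_iff.mpr hij)
      simpa using this
    · intro i
      refine ⟨by simpa using (h2 i.succ).1, ?_⟩
      have := h1 (Fin.zero_le i.succ)
      simpa using this
  · rintro ⟨h1, h2, h3⟩
    refine ⟨?_, ?_⟩
    · intro i j hij
      induction i using Fin.cases with
      | zero =>
        induction j using Fin.cases with
        | zero => exact le_rfl
        | succ j => simpa using (h3 j).2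
      | succ i =>
        induction j using Fin.cases with
        | zero => exact absurd hij (by simp)
        | succ j =>
          have := h2 (Fin.succ_le_succ_iff.mp hij)
          simpa using this
    · intro i
      induction i using Fin.cases with
      | zero => simpa using h1
      | succ i =>
        have := h3 i
        exact ⟨by simpa using this.1, by simpa using this.2.trans h1.2⟩

theorem ORD_smul (n : ℕ) (t : ℝ) (ht : 0 < t) (ht1 : t ≤ 1) (y : Fin n → ℝ) :
    (Fin.cons t y : Fin (n + 1) → ℝ) ∈ ORD_A (n + 1) ↔ y ∈ t • ORD_A n := by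
  rw [ORD_cons, Set.mem_smul_set_iff_inv_smul_mem₀ ht.ne']
  have hi : 0 < t⁻¹ := inv_pos.mpr ht
  constructor
  · rintro ⟨_, h2, h3⟩
    refine ⟨fun i j hij => ?_, fun i => ?_⟩
    · simp only [Pi.smul_apply, smul_eq_mul]
      exact mul_le_mul_of_nonneg_left (h2 hij) hi.le
    · simp only [Pi.smul_apply, smul_eq_mul]
      refine ⟨mul_nonneg hi.le (h3 i).1, ?_⟩
      calc t⁻¹ * y i ≤ t⁻¹ * t := mul_le_mul_of_nonneg_left (h3 i).2 hi.le
        _ = 1 := inv_mul_cancel₀ ht.ne'
  · rintro ⟨h2, h3⟩
    refine ⟨⟨ht.le, ht1⟩, fun i j hij => ?_, fun i => ?_⟩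
    · have := h2 hij
      simp only [Pi.smul_apply, smul_eq_mul] at this
      exact le_of_mul_le_mul_left this hi
    · have := h3 i
      simp only [Pi.smul_apply, smul_eq_mul] at this
      refine ⟨?_, ?_⟩
      · by_contra hc
        push_neg at hc
        have := mul_neg_of_pos_of_neg hi hc
        linarith [(h3 i).1]
      · have h4 : t * (t⁻¹ * y i) ≤ t * 1 := mul_le_mul_of_nonneg_left this.2 ht.le
        rw [← mul_assoc, mul_inv_cancel₀ ht.ne', one_mul, mul_one] at h4
        exact h4

theorem ORD_ins (n : ℕ) (p : ℝ × (Fin n → ℝ)) :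
    (Fin.insertNthEquiv (fun _ : Fin (n + 1) => ℝ) 0) p = Fin.cons p.1 p.2 := by
  funext i
  refine Fin.cases ?_ (fun j => ?_) i <;> simp [Fin.insertNthEquiv]

theorem ORD_int {α : Type*} [MeasurableSpace α] (μ : Measure α) (s : Set α) (hs : MeasurableSet s)
    (hf : μ s < ∞) (G : α → ℝ) (hG : Measurable G) (M : ℝ) (hM : ∀ y, |G y| ≤ M) :
    Integrable (s.indicator G) μ := by
  rw [integrable_indicator_iff hs]
  exact IntegrableOn.of_bound hf hG.aestronglyMeasurable M
    (Filter.Eventually.of_forall fun y => by simpa using hM y)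

theorem ORD_peel (n : ℕ) (G : (Fin (n + 1) → ℝ) → ℝ) (hG : Measurable G) (M : ℝ)
    (hM : ∀ y, |G y| ≤ M) :
    ∫ y in ORD_A (n + 1), G y =
      ∫ t in Ioc (0:ℝ) 1, t ^ n * ∫ y in ORD_A n, G (Fin.cons t (t • y)) := by
  have hA := (ORD_A_closed (n + 1)).measurableSet
  have hmp := (volume_preserving_piFinSuccAbove (fun _ : Fin (n + 1) => ℝ) 0).symm
  have e1 : ∫ y in ORD_A (n + 1), G y =
      ∫ p : ℝ × (Fin n → ℝ), (ORD_A (n + 1)).indicator G (Fin.cons p.1 p.2) := by
    rw [← integral_indicator hA, ← hmp.integral_comp' ]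
    refine integral_congr_ae (Filter.Eventually.of_forall fun p => ?_)
    simp only [MeasurableEquiv.piFinSuccAbove_symm_apply]
    rw [ORD_ins]
  have hint : Integrable (fun p : ℝ × (Fin n → ℝ) =>
      (ORD_A (n + 1)).indicator G (Fin.cons p.1 p.2)) (volume.prod volume) := by
    have h0 := ORD_int volume _ hA (ORD_A_fin (n + 1)) G hG M hM
    have h1 := (hmp.integrable_comp_emb (MeasurableEquiv.measurableEmbedding _)).mpr h0
    refine h1.congr (Filter.Eventually.of_forall fun p => ?_)
    simp only [Function.comp, MeasurableEquiv.piFinSuccAbove_symm_apply]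
    rw [ORD_ins]
  rw [e1]
  rw [show (volume : Measure (ℝ × (Fin n → ℝ))) = volume.prod volume from rfl, integral_prod _ hint]
  rw [← integral_indicator measurableSet_Ioc]
  have h0 : ∀ᵐ t : ℝ, t ≠ 0 := by
    have : volume ({0} : Set ℝ) = 0 := by simp
    exact measure_mono_null (fun t ht => by simpa using ht) this
  refine integral_congr_ae ?_
  filter_upwards [h0] with t ht
  by_cases htt : t ∈ Ioc (0:ℝ) 1
  · rw [indicator_of_mem htt]
    have e2 : (fun y : Fin n → ℝ => (ORD_A (n + 1)).indicator G (Fin.cons t y)) =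
        (t • ORD_A n).indicator (fun y => G (Fin.cons t y)) := by
      funext y
      by_cases hy : (Fin.cons t y : Fin (n + 1) → ℝ) ∈ ORD_A (n + 1)
      · rw [indicator_of_mem hy, indicator_of_mem ((ORD_smul n t htt.1 htt.2 y).mp hy)]
      · rw [indicator_of_notMem hy, indicator_of_notMem (fun h => hy ((ORD_smul n t htt.1 htt.2 y).mpr h))]
    rw [e2, integral_indicator ((ORD_A_closed n).measurableSet.const_smul₀ t)]
    have e3 := Measure.setIntegral_comp_smul_of_pos (μ := (volume : Measure (Fin n → ℝ)))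
      (fun y => G (Fin.cons t y)) (ORD_A n) htt.1
    rw [e3]
    simp only [Module.finrank_fintype_fun_eq_card, Fintype.card_fin, smul_eq_mul]
    rw [← mul_assoc, mul_inv_cancel₀ (pow_ne_zero n ht), one_mul]
  · rw [indicator_of_notMem htt]
    have e2 : (fun y : Fin n → ℝ => (ORD_A (n + 1)).indicator G (Fin.cons t y)) = fun _ => 0 := by
      funext y
      apply indicator_of_notMem
      intro hy
      have := (ORD_cons n t y).mp hy
      exact htt ⟨lt_of_le_of_ne this.1.1 (Ne.symm ht), this.1.2⟩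
    rw [e2, integral_zero]

theorem ORD (h : S_OPB) : S_ORD := by
  intro n
  induction n with
  | zero =>
    intro x F M hF hM
    have hA : {y : Fin 0 → ℝ | Antitone y ∧ ∀ i, 0 ≤ y i ∧ y i ≤ 1} = univ := by
      ext y
      simp only [mem_ofPred_eq, mem_univ, iff_true]
      exact ⟨fun i => i.elim0, fun i => i.elim0⟩
    rw [hA]
    simp [fo, Measure.restrict_univ, integral_unique, Measure.real, volume_pi, Measure.pi_of_empty]
  | succ n ih =>
    intro x F M hF hM
    obtain ⟨hF', hM'⟩ := h (n + 1) (x 0) F M (Nat.le_add_left 1 n) hF hM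
    have hrhs : fo ((List.range (n + 1)).map x) (n + 1) F (x (n + 1)) =
        fo ((List.range n).map (fun i => x (i + 1))) n (op (n + 1) (x 0) F) (x (n + 1)) := by
      rw [List.range_succ_eq_map, List.map_cons, List.map_map]
      rfl
    rw [hrhs, ← ih (fun i => x (i + 1)) (op (n + 1) (x 0) F) M hF' hM']
    have hmeas : Measurable (fun y : Fin (n + 1) → ℝ =>
        F (x 0 + ∑ i : Fin (n + 1), (x ((i : ℕ) + 1) - x i) * y i ^ 2)) := by
      apply hF.comp
      fun_prop
    change ∫ y in ORD_A (n + 1), _ = ∫ y in ORD_A n, _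
    rw [ORD_peel n _ hmeas M (fun y => hM _)]
    have e1 : ∀ t : ℝ, ∀ y : Fin n → ℝ,
        x 0 + ∑ i : Fin (n + 1), (x ((i : ℕ) + 1) - x i) * (Fin.cons t (t • y) : Fin (n + 1) → ℝ) i ^ 2
        = x 0 + t ^ 2 * ((x 1 + ∑ i : Fin n, (x ((i : ℕ) + 1 + 1) - x ((i : ℕ) + 1)) * y i ^ 2) - x 0) := by
      intro t y
      rw [Fin.sum_univ_succ]
      simp only [Fin.val_zero, Fin.cons_zero, Fin.val_succ, Fin.cons_succ, Pi.smul_apply, smul_eq_mul, mul_pow]
      have : ∑ i : Fin n, (x ((i : ℕ) + 1 + 1) - x ((i : ℕ) + 1)) * (t ^ 2 * y i ^ 2) =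
          t ^ 2 * ∑ i : Fin n, (x ((i : ℕ) + 1 + 1) - x ((i : ℕ) + 1)) * y i ^ 2 := by
        rw [Finset.mul_sum]
        exact Finset.sum_congr rfl fun i _ => by ring
      rw [this, zero_add]
      ring
    simp only [e1]
    simp only [← integral_const_mul]
    rw [integral_integral_swap]
    · refine integral_congr_ae (Filter.Eventually.of_forall fun y => ?_)
      simp only [op, Nat.add_sub_cancel]
      rw [intervalIntegral.integral_of_le zero_le_one]
    · have hm : Measurable (Function.uncurry fun (t : ℝ) (y : Fin n → ℝ) =>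
          t ^ n * F (x 0 + t ^ 2 * ((x 1 + ∑ i : Fin n, (x ((i : ℕ) + 1 + 1) - x ((i : ℕ) + 1)) * y i ^ 2) - x 0))) := by
        apply Measurable.mul
        · fun_prop
        · apply hF.comp
          fun_prop
      have hM0 : 0 ≤ M := le_trans (abs_nonneg _) (hM 0)
      rw [Measure.prod_restrict]
      refine IntegrableOn.of_bound ?_ hm.aestronglyMeasurable M ?_
      · rw [Measure.prod_prod]
        exact ENNReal.mul_lt_top (by simp) (ORD_A_fin n)
      · refine (ae_restrict_iff' (measurableSet_Ioc.prod (ORD_A_closed n).measurableSet)).mpr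
          (Filter.Eventually.of_forall ?_)
        rintro ⟨t, y⟩ ⟨ht, _⟩
        simp only [Function.uncurry, norm_mul, Real.norm_eq_abs]
        have h1 : |t ^ n| ≤ 1 := by
          rw [abs_of_nonneg (pow_nonneg ht.1.le n)]
          exact pow_le_one₀ ht.1.le ht.2
        calc _ ≤ 1 * M := mul_le_mul h1 (hM _) (abs_nonneg _) zero_le_one
          _ = M := one_mul M

end Pool.Agent.H41R2.OP
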