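import Pool.Agent.H41R2.OP.Defs

/-! ORT (helper778 for helper41). -/

set_option autoImplicit false

noncomputable section

open MeasureTheory Set
open scoped ENNReal Topology

namespace Pool.Agent.H41R2.OP

theorem ORT (h : S_PR) : S_ORT := by
  intro d n X S c0 m L x c φ hF hc hcS ha horth
  set a := av L m c with hadef
  set b := bv m x c with hbdef
  have ha0 : ‖a‖ ≠ 0 := norm_ne_zero_iff.2 ha
  have hinner : ∀ z, inner ℝ (c - m) (L z) = (1 / 2) * inner ℝ a z := by
    intro z
    rw [hadef, av, real_inner_smul_left, (h _ _ L (c - m)).1 z]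
    ring
  have hff : ‖L (foot a b)‖ ^ 2 = hh a b ^ 2 := by
    rw [L.norm_map, foot, norm_smul, hh, mul_pow, Real.norm_eq_abs, sq_abs]
    field_simp
  have haf : inner ℝ a (foot a b) = b := by
    rw [foot, real_inner_smul_right, real_inner_self_eq_norm_sq]
    field_simp
  have hfw : ∀ w, inner ℝ (L (foot a b)) (L (φ w)) = 0 := by
    intro w
    rw [L.inner_map_map, foot, real_inner_smul_left, horth w, mul_zero]
  intro c' hc'
  have e : ∀ c', c' - (m + L (foot a b)) = (c' - m) - L (foot a b) := by intro c'; abel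
  rw [Finset.mem_insert] at hc'
  rw [e c']
  rcases hc' with rfl | hc'
  · refine ⟨?_, fun w => ?_⟩
    · rw [norm_sub_sq_real, hinner, hff, haf]
      have : b = ‖c' - m‖ ^ 2 - x := rfl
      linarith
    · show inner ℝ (c' - m - L (foot a b)) (L (φ w)) = 0
      rw [inner_sub_left, hinner, hfw, horth w]
      ring
  · refine ⟨?_, fun w => ?_⟩
    · rw [norm_sub_sq_real, hF.orth c' hc', hF.rad c' hc', hff]
      ring
    · show inner ℝ (c' - m - L (foot a b)) (L (φ w)) = 0
      rw [inner_sub_left, hF.orth c' hc', hfw]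
      ring

end Pool.Agent.H41R2.OP
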