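import Pool.Agent.H41R2.OP.Defs

/-! Task P1: the averaging operator applied to the indicator. -/

set_option autoImplicit false

noncomputable section

open MeasureTheory Set

namespace Pool.Agent.H41R2.OP

theorem P1_ind {ρ w t : ℝ} (hρ : 0 ≤ ρ) (hw : 0 < w) (ht : 0 ≤ t) (ht1 : t ≤ 1) :
    t ≤ min 1 (ρ / w) ↔ t ^ 2 * w ^ 2 ≤ ρ ^ 2 := by
  rw [le_min_iff, le_div_iff₀ hw, ← mul_pow]
  constructor
  · rintro ⟨-, h⟩
    exact pow_le_pow_left₀ (by positivity) h 2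
  · intro h
    exact ⟨ht1, (pow_le_pow_iff_left₀ (by positivity) hρ (by norm_num)).1 h⟩

theorem P1_pow {ρ w : ℝ} (hρ : 0 ≤ ρ) (hw : 0 < w) (d : ℕ) :
    (min 1 (ρ / w)) ^ d = min (w ^ d) (ρ ^ d) * (w ^ d)⁻¹ := by
  have hwd : 0 < w ^ d := by positivity
  rcases le_total w ρ with h | h
  · have h1 : 1 ≤ ρ / w := by rw [le_div_iff₀ hw]; linarith
    have h2 : w ^ d ≤ ρ ^ d := pow_le_pow_left₀ hw.le h d
    rw [min_eq_left h1, min_eq_left h2, one_pow, mul_inv_cancel₀ hwd.ne']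
  · have h1 : ρ / w ≤ 1 := by rw [div_le_iff₀ hw]; linarith
    have h2 : ρ ^ d ≤ w ^ d := pow_le_pow_left₀ hρ h d
    rw [min_eq_right h1, min_eq_right h2, div_pow, div_eq_mul_inv]

theorem P1 : S_P1 := by
  intro d ρ v hd hρ hv
  have hv0 : 0 < v := by linarith
  have hρ0 : 0 ≤ ρ := by linarith
  obtain ⟨w, hw⟩ : ∃ w, w = Real.sqrt v := ⟨_, rfl⟩
  have hw0 : 0 < w := by rw [hw]; exact Real.sqrt_pos.2 hv0
  have hvw : v = w ^ 2 := by rw [hw, Real.sq_sqrt hv0.le]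
  have hs0 : 0 ≤ min 1 (ρ / w) := le_min zero_le_one (by positivity)
  have hs1 : min 1 (ρ / w) ≤ 1 := min_le_left _ _
  have e1 : op d 0 (ind ρ) v =
      ∫ t in (0:ℝ)..1, indicator {x | x ≤ min 1 (ρ / w)} (fun t : ℝ => t ^ (d - 1)) t := by
    unfold op
    apply intervalIntegral.integral_congr
    intro t ht
    rw [uIcc_of_le zero_le_one] at ht
    simp only [ind, zero_add, sub_zero, indicator, mem_ofPred_eq]
    rw [hvw]
    by_cases h : t ≤ min 1 (ρ / w)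
    · rw [if_pos h, if_pos ((P1_ind hρ0 hw0 ht.1 ht.2).1 h), mul_one]
    · rw [if_neg h, if_neg (fun h' => h ((P1_ind hρ0 hw0 ht.1 ht.2).2 h')), mul_zero]
  rw [e1, intervalIntegral.integral_indicator (mem_Icc.2 ⟨hs0, hs1⟩), integral_pow]
  have hd1 : d - 1 + 1 = d := Nat.sub_add_cancel hd
  have hd2 : ((d - 1 : ℕ) : ℝ) + 1 = d := by exact_mod_cast hd1
  rw [hd1, hd2, zero_pow (by omega), sub_zero, P1_pow hρ0 hw0]
  have e2 : v ^ ((d : ℝ) / 2) = w ^ d := by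
    rw [Real.rpow_div_two_eq_sqrt _ hv0.le, ← hw, Real.rpow_natCast]
  rw [Real.rpow_neg hv0.le, e2]
  ring

end Pool.Agent.H41R2.OP
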