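import Pool.Agent.H41R2.OP.Defs

set_option autoImplicit false

noncomputable section

open MeasureTheory Set
open scoped ENNReal Topology

namespace Pool.Agent.H41R2.OP

theorem PAD_app (zs : List ℝ) : ∀ (xs : List ℝ) (k : ℕ) (F : ℝ → ℝ),
    fo (xs ++ zs) k F = fo zs (k - xs.length) (fo xs k F) := by
  intro xs
  induction xs with
  | nil => intro k F; simp [fo]
  | cons x xs ih =>
    intro k F
    rw [List.cons_append]
    show fo (xs ++ zs) (k - 1) (op k x F) = fo zs (k - (x :: xs).length) (fo xs (k - 1) (op k x F))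
    rw [ih (k - 1) (op k x F), List.length_cons]
    congr 1
    omega

theorem PAD_op (m : ℕ) (U : ℝ) (G : ℝ → ℝ) :
    op (m + 1) U G U = (1 / ((m : ℝ) + 1)) * G U := by
  unfold op
  have h : ∀ t : ℝ, t ^ (m + 1 - 1) * G (U + t ^ 2 * (U - U)) = t ^ m * G U := by
    intro t
    simp
  simp only [h]
  rw [intervalIntegral.integral_mul_const, integral_pow]
  simp

theorem PAD_rep (U : ℝ) : ∀ (m : ℕ) (G : ℝ → ℝ),
    fo (List.replicate m U) m G U = (1 / (m.factorial : ℝ)) * G U := by
  intro m
  induction m with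
  | zero => intro G; simp [fo]
  | succ m ih =>
    intro G
    rw [List.replicate_succ]
    show fo (List.replicate m U) (m + 1 - 1) (op (m + 1) U G) U = _
    rw [Nat.add_sub_cancel, ih (op (m + 1) U G), PAD_op, Nat.factorial_succ]
    push_cast
    field_simp

theorem PAD : S_PAD := by
  intro xs k m U hk
  refine ⟨1 / (m.factorial : ℝ), by positivity, ?_⟩
  intro F
  rw [PAD_app]
  have h : k - xs.length = m := by omega
  rw [h, PAD_rep]

end Pool.Agent.H41R2.OP
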