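import Mathlib
import Pool.Agent.H41R2.OP.Defs

set_option autoImplicit false

noncomputable section

open MeasureTheory Set

namespace Pool.Agent.H41R2.OP

theorem PHI : S_PHI := by
  intro n a ha
  haveI : Fact (Module.finrank ℝ (E (n + 1)) = n + 1) := ⟨by simp⟩
  have hf : Module.finrank ℝ ((ℝ ∙ a)ᗮ : Submodule ℝ (E (n + 1))) = n :=
    Submodule.finrank_orthogonal_span_singleton ha
  let b : OrthonormalBasis (Fin n) ℝ ((ℝ ∙ a)ᗮ : Submodule ℝ (E (n + 1))) :=
    (stdOrthonormalBasis ℝ _).reindex (finCongr hf)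
  refine ⟨((ℝ ∙ a)ᗮ : Submodule ℝ (E (n + 1))).subtypeₗᵢ.comp
    b.repr.symm.toLinearIsometry, fun w => ?_⟩
  exact Submodule.mem_orthogonal_singleton_iff_inner_right.mp (b.repr.symm w).2

end Pool.Agent.H41R2.OP
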