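import Pool.Agent.H41R2.OP.Defs

set_option autoImplicit false

noncomputable section

open MeasureTheory Set
open scoped ENNReal Topology

namespace Pool.Agent.H41R2.OP

lemma POS_fo_append (zs : List ℝ) : ∀ (k : ℕ) (x : ℝ) (F : ℝ → ℝ),
    fo (zs ++ [x]) k F = op (k - zs.length) x (fo zs k F) := by
  induction zs with
  | nil => intro k x F; simp [fo]
  | cons z zs ih =>
    intro k x F
    simp only [List.cons_append, fo, List.length_cons]
    rw [ih]
    congr 1
    omega

lemma POS_ideal_lt (d : ℕ) : ideal d < 2 := by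
  unfold ideal
  rw [div_lt_iff₀ (by positivity)]
  nlinarith [Nat.cast_nonneg (α := ℝ) d]

lemma POS_ideal_nonneg (d : ℕ) : 0 ≤ ideal d := by unfold ideal; positivity

lemma POS_phi_ideal (j : ℕ) : phi (ideal j) = ideal (j + 1) := by
  unfold phi ideal
  have h : (0:ℝ) ≤ j := Nat.cast_nonneg j
  have h1 : (j:ℝ) + 1 ≠ 0 := by positivity
  have h2 : (4:ℝ) - 2 * j / (j + 1) = (2 * j + 4) / (j + 1) := by field_simp; ring
  rw [h2]
  push_cast
  have h3 : (2 * (j:ℝ) + 4) ≠ 0 := by positivity
  have h4 : ((j:ℝ) + 1 + 1) ≠ 0 := by positivity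
  field_simp
  ring

lemma POS_phi_mono {x y : ℝ} (h : x ≤ y) (hy : y < 4) : phi x ≤ phi y := by
  unfold phi
  apply div_le_div_of_nonneg_left (by norm_num) (by linarith) (by linarith)

lemma POS_le_phi {x : ℝ} (hx : x < 4) : x ≤ phi x := by
  unfold phi
  rw [le_div_iff₀ (by linarith)]
  nlinarith [sq_nonneg (x - 2)]

lemma POS_aux (d : ℕ) (F : ℝ → ℝ)
    (H : ∀ xs : List ℝ, xs.length < d → xs.Pairwise (· ≤ ·) →
    (∀ (j : ℕ) (h : j < xs.length), ideal (j + 1) ≤ xs[j] ∧ xs[j] < ideal d) →
    0 ≤ fo (0 :: xs) d F (ideal d)) :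
    ∀ (k : ℕ) (zs : List ℝ) (x : ℝ) (xs : List ℝ), zs.length + k = d → zs ++ [x] = 0 :: xs →
      xs.Pairwise (· ≤ ·) → (∀ y ∈ xs, y ≤ x) →
      (∀ (j : ℕ) (h : j < xs.length), ideal (j + 1) ≤ xs[j] ∧ xs[j] < ideal d) →
      ideal xs.length ≤ x → x < ideal d → Pos (ideal d) k x (fo zs d F) := by
  intro k
  induction k with
  | zero =>
    intro zs x xs h1 h2 h3 h4 h5 h6 h7
    exfalso
    have := congrArg List.length h2
    simp at this
    have h8 : xs.length = d := by omega
    rw [h8] at h6
    linarith
  | succ k ih =>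
    intro zs x xs h1 h2 h3 h4 h5 h6 h7
    have hlen := congrArg List.length h2
    simp at hlen
    have hx2 : x < 2 := lt_trans h7 (POS_ideal_lt d)
    have hk : d - zs.length = k + 1 := by omega
    have hop : op (k + 1) x (fo zs d F) = fo (zs ++ [x]) d F := by
      rw [POS_fo_append, hk]
    refine ⟨?_, ?_⟩
    · rw [hop, h2]
      exact H xs (by omega) h3 h5
    · intro x' hx' hxU
      rw [hop]
      have hxx' : x ≤ x' := le_trans (POS_le_phi (by linarith)) hx'
      have hid : ideal (xs.length + 1) ≤ x' := by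
        rw [← POS_phi_ideal]
        exact le_trans (POS_phi_mono h6 (by linarith)) hx'
      apply ih (zs ++ [x]) x' (xs ++ [x'])
      · simp; omega
      · rw [h2]; simp
      · rw [List.pairwise_append]
        refine ⟨h3, by simp, ?_⟩
        intro a ha b hb
        simp at hb
        rw [hb]
        exact le_trans (h4 a ha) hxx'
      · intro y hy
        simp at hy
        rcases hy with hy | hy
        · exact le_trans (h4 y hy) hxx'
        · rw [hy]
      · intro j hj
        simp at hj
        by_cases hjl : j < xs.length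
        · rw [List.getElem_append_left hjl]
          exact h5 j hjl
        · have hjj : j = xs.length := by omega
          subst hjj
          simp
          exact ⟨hid, hxU⟩
      · simpa using hid
      · exact hxU

theorem POS : S_POS := by
  intro d F hd H
  have h0 : (0:ℝ) < ideal d := by
    unfold ideal
    have : (0:ℝ) < d := by exact_mod_cast hd
    positivity
  have := POS_aux d F H d [] 0 [] (by simp) (by simp) (by simp) (by simp) (by simp)
    (by simp [ideal]) h0
  simpa [fo] using this

end Pool.Agent.H41R2.OP
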