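import Pool.Agent.H41R2.OP.Defs

set_option autoImplicit false

noncomputable section

open MeasureTheory Set
open scoped ENNReal Topology

namespace Pool.Agent.H41R2.OP

theorem PR : S_PR := by
  intro k d L v
  have h1 : ∀ z, inner ℝ (pr L v) z = inner ℝ v (L z) := by
    intro z
    unfold pr
    rw [ContinuousLinearMap.adjoint_inner_left]
    rfl
  refine ⟨h1, ?_⟩
  have h2 := h1 (pr L v)
  rw [real_inner_self_eq_norm_sq] at h2
  have h3 : inner ℝ v (L (pr L v)) ≤ ‖v‖ * ‖L (pr L v)‖ := real_inner_le_norm _ _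
  rw [L.norm_map, ← h2] at h3
  by_cases h0 : ‖pr L v‖ = 0
  · rw [h0]; exact norm_nonneg _
  · have : 0 < ‖pr L v‖ := lt_of_le_of_ne (norm_nonneg _) (Ne.symm h0)
    nlinarith

end Pool.Agent.H41R2.OP
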