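import Mathlib
import Pool.Agent.H41R2.OP.Defs

set_option autoImplicit false

noncomputable section

open MeasureTheory Set
open scoped ENNReal Topology

namespace Pool.Agent.H41R2.OP

theorem PRM_null (n : ℕ) : volume {y : Fin n → ℝ | ¬ Function.Injective y} = 0 := by
  have hsub : {y : Fin n → ℝ | ¬ Function.Injective y} ⊆
      ⋃ p : {p : Fin n × Fin n // p.1 ≠ p.2}, {y : Fin n → ℝ | y p.1.1 = y p.1.2} := by
    intro y hy
    simp only [Set.mem_ofPred_eq, Function.Injective] at hy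
    push Not at hy
    obtain ⟨i, j, h1, h2⟩ := hy
    simp only [Set.mem_iUnion, Set.mem_ofPred_eq]
    exact ⟨⟨(i, j), h2⟩, h1⟩
  refine measure_mono_null hsub ?_
  rw [measure_iUnion_null_iff]
  rintro ⟨⟨i, j⟩, hij⟩
  simp only at hij ⊢
  let L : (Fin n → ℝ) →ₗ[ℝ] ℝ :=
    (LinearMap.proj (R := ℝ) (φ := fun _ : Fin n => ℝ) i) -
      (LinearMap.proj (R := ℝ) (φ := fun _ : Fin n => ℝ) j)
  have hL : {y : Fin n → ℝ | y i = y j} = (LinearMap.ker L : Set (Fin n → ℝ)) := by
    ext y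
    simp [L, sub_eq_zero]
  rw [hL]
  refine MeasureTheory.Measure.addHaar_submodule volume _ ?_
  intro htop
  rw [LinearMap.ker_eq_top] at htop
  have h1 : L (Pi.single i 1) = 0 := by rw [htop]; rfl
  simp [L, hij.symm] at h1

/-- the piece of B sorted by sigma -/
def PRM_T {n : ℕ} (B : Set (Fin n → ℝ)) (σ : Equiv.Perm (Fin n)) : Set (Fin n → ℝ) :=
  {y | y ∈ B ∧ Antitone (fun i => y (σ i))}

theorem PRM_meas_antitone (n : ℕ) : MeasurableSet {y : Fin n → ℝ | Antitone y} := by
  have h : {y : Fin n → ℝ | Antitone y} =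
      ⋂ i : Fin n, ⋂ j : Fin n, {y : Fin n → ℝ | i ≤ j → y j ≤ y i} := by
    ext y
    simp only [Set.mem_ofPred_eq, Set.mem_iInter, Antitone]
  rw [h]
  refine MeasurableSet.iInter fun i => MeasurableSet.iInter fun j => ?_
  by_cases hij : i ≤ j
  · have h2 : {y : Fin n → ℝ | i ≤ j → y j ≤ y i} = {y : Fin n → ℝ | y j ≤ y i} := by
      ext y; simp [hij]
    rw [h2]
    exact measurableSet_le (measurable_pi_apply j) (measurable_pi_apply i)
  · have h2 : {y : Fin n → ℝ | i ≤ j → y j ≤ y i} = Set.univ := by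
      ext y; simp [hij]
    rw [h2]
    exact MeasurableSet.univ

theorem PRM_mp (n : ℕ) (σ : Equiv.Perm (Fin n)) :
    MeasurePreserving (fun (y : Fin n → ℝ) => fun i => y (σ i)) volume volume := by
  have h := MeasureTheory.volume_measurePreserving_piCongrLeft (fun _ : Fin n => ℝ) σ.symm
  have h2 : (fun (y : Fin n → ℝ) => fun i => y (σ i)) =
      ⇑(MeasurableEquiv.piCongrLeft (fun _ : Fin n => ℝ) σ.symm) := by
    funext y i
    have h3 := Equiv.piCongrLeft_apply_apply (P := fun _ : Fin n => ℝ) (e := σ.symm) y (σ i)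
    simp only [Equiv.symm_apply_apply] at h3
    rw [MeasurableEquiv.coe_piCongrLeft, h3]
  rw [h2]
  exact h

theorem PRM_T_eq {n : ℕ} (B : Set (Fin n → ℝ))
    (hB : ∀ σ : Equiv.Perm (Fin n), ∀ y ∈ B, (fun i => y (σ i)) ∈ B) (σ : Equiv.Perm (Fin n)) :
    PRM_T B σ = (fun (y : Fin n → ℝ) => fun i => y (σ i)) ⁻¹' (B ∩ {y | Antitone y}) := by
  ext y
  simp only [PRM_T, Set.mem_ofPred_eq, Set.mem_preimage, Set.mem_inter_iff]
  constructor
  · rintro ⟨h1, h2⟩
    exact ⟨hB σ y h1, h2⟩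
  · rintro ⟨h1, h2⟩
    refine ⟨?_, h2⟩
    have h3 := hB σ.symm _ h1
    simpa using h3

theorem PRM_T_vol {n : ℕ} (B : Set (Fin n → ℝ)) (hm : MeasurableSet B)
    (hB : ∀ σ : Equiv.Perm (Fin n), ∀ y ∈ B, (fun i => y (σ i)) ∈ B) (σ : Equiv.Perm (Fin n)) :
    MeasurableSet (PRM_T B σ) ∧ volume (PRM_T B σ) = volume (B ∩ {y | Antitone y}) := by
  have hm2 : MeasurableSet (B ∩ {y : Fin n → ℝ | Antitone y}) := hm.inter (PRM_meas_antitone n)
  rw [PRM_T_eq B hB σ]
  exact ⟨(PRM_mp n σ).measurable hm2, (PRM_mp n σ).measure_preimage hm2.nullMeasurableSet⟩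

theorem PRM_unique {n : ℕ} (y : Fin n → ℝ) (hy : Function.Injective y)
    (σ τ : Equiv.Perm (Fin n)) (h1 : Antitone (fun i => y (σ i)))
    (h2 : Antitone (fun i => y (τ i))) : σ = τ := by
  have s1 : StrictMono (fun i => -y (σ i)) := by
    have : Monotone (fun i => -y (σ i)) := fun i j hij => neg_le_neg (h1 hij)
    refine this.strictMono_of_injective ?_
    intro i j hij
    exact σ.injective (hy (neg_injective hij))
  have s2 : StrictMono (fun i => -y (τ i)) := by
    have : Monotone (fun i => -y (τ i)) := fun i j hij => neg_le_neg (h2 hij)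
    refine this.strictMono_of_injective ?_
    intro i j hij
    exact τ.injective (hy (neg_injective hij))
  have h3 : (fun i => -y (σ i)) = (fun i => -y (τ i)) := by
    refine StrictMono.range_inj s1 s2 |>.1 ?_
    ext x
    simp only [Set.mem_range]
    constructor
    · rintro ⟨i, hi⟩
      exact ⟨τ.symm (σ i), by simpa using hi⟩
    · rintro ⟨i, hi⟩
      exact ⟨σ.symm (τ i), by simpa using hi⟩
  ext i
  have h4 := congrFun h3 i
  exact congrArg Fin.val (hy (neg_injective h4))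

theorem PRM_exists {n : ℕ} (y : Fin n → ℝ) : ∃ σ : Equiv.Perm (Fin n), Antitone (fun i => y (σ i)) := by
  refine ⟨Tuple.sort (fun i => -y i), ?_⟩
  intro i j hij
  have h := Tuple.monotone_sort (fun i => -y i) hij
  simp only [Function.comp_apply] at h
  simpa using h

theorem PRM : S_PRM := by
  intro n B hm hB
  have hN := PRM_null n
  have hae : (⋃ σ : Equiv.Perm (Fin n), PRM_T B σ) = B := by
    ext y
    simp only [Set.mem_iUnion, PRM_T, Set.mem_ofPred_eq]
    constructor
    · rintro ⟨σ, h, _⟩; exact h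
    · intro h
      obtain ⟨σ, hσ⟩ := PRM_exists y
      exact ⟨σ, h, hσ⟩
  have hdis : Pairwise (Function.onFun (AEDisjoint volume) (PRM_T B)) := by
    intro σ τ hne
    refine measure_mono_null ?_ hN
    rintro y ⟨h1, h2⟩
    intro hinj
    exact hne (PRM_unique y hinj σ τ h1.2 h2.2)
  calc volume B = volume (⋃ σ : Equiv.Perm (Fin n), PRM_T B σ) := by rw [hae]
    _ = ∑' σ : Equiv.Perm (Fin n), volume (PRM_T B σ) :=
        measure_iUnion₀ hdis (fun σ => (PRM_T_vol B hm hB σ).1.nullMeasurableSet)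
    _ = ∑ σ : Equiv.Perm (Fin n), volume (PRM_T B σ) := tsum_fintype _
    _ = ∑ _σ : Equiv.Perm (Fin n), volume (B ∩ {y | Antitone y}) :=
        Finset.sum_congr rfl (fun σ _ => (PRM_T_vol B hm hB σ).2)
    _ = (n.factorial : ℝ≥0∞) * volume (B ∩ {y | Antitone y}) := by
        rw [Finset.sum_const, Finset.card_univ, Fintype.card_perm, Fintype.card_fin, nsmul_eq_mul]

end Pool.Agent.H41R2.OP
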