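import Mathlib
import Pool.Agent.H41R2.OP.Defs

/-!
Project OP, task QID: the change of variables for the regular simplex diagonalizes the quadratic
form.
-/

set_option autoImplicit false

noncomputable section

open MeasureTheory Set
open scoped ENNReal Topology

namespace Pool.Agent.H41R2.OP

theorem QID_cast (d : ℕ) (l : Fin (d + 1 + 1) → ℝ) (j : Fin (d + 1)) :
    lam2y (d + 1) l j.castSucc = lam2y d (fun i => l i.castSucc) j -
      l (Fin.last (d + 1)) / (((d : ℝ) + 1) * ((d : ℝ) + 2)) := by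
  unfold lam2y
  rw [Finset.sum_filter, Finset.sum_filter, Fin.sum_univ_castSucc]
  rw [if_pos (Fin.castSucc_lt_last j)]
  simp only [Fin.castSucc_lt_castSucc_iff, Fin.val_castSucc, Fin.val_last]
  push_cast
  ring

theorem QID_last (d : ℕ) (l : Fin (d + 1 + 1) → ℝ) :
    lam2y (d + 1) l (Fin.last (d + 1)) = l (Fin.last (d + 1)) / ((d : ℝ) + 2) := by
  unfold lam2y
  rw [Finset.sum_filter, Finset.sum_eq_zero]
  · rw [Fin.val_last]
    push_cast
    ring
  · intro i _
    rw [if_neg (not_lt.mpr (Fin.le_last i))]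

theorem QID : S_QID := by
  intro d
  induction d with
  | zero =>
    intro l
    have h : lam2y 0 l 0 = l 0 := by
      unfold lam2y
      rw [Finset.sum_filter, Finset.sum_eq_zero]
      · simp
      · intro i _
        rw [if_neg]
        intro h
        have := Fin.eq_zero i
        rw [this] at h
        exact lt_irrefl _ h
    constructor
    · rw [Fin.sum_univ_one, h]
    · rw [Fin.sum_univ_one, h]
      simp only [Finset.univ_eq_empty, Finset.sum_empty]
      ring
  | succ d ih =>
    intro l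
    set m := l (Fin.last (d + 1)) with hm
    set c := m / (((d : ℝ) + 1) * ((d : ℝ) + 2)) with hc
    obtain ⟨ih1, ih2⟩ := ih (fun i => l i.castSucc)
    simp only [Fin.castSucc_zero] at ih1 ih2
    have h0 : lam2y (d + 1) l 0 = lam2y d (fun i => l i.castSucc) 0 - c := by
      have := QID_cast d l 0
      rw [Fin.castSucc_zero] at this
      exact this
    have hd1 : (0 : ℝ) < (d : ℝ) + 1 := by positivity
    have hd2 : (0 : ℝ) < (d : ℝ) + 2 := by positivity
    have hs : ∑ j : Fin (d + 1), (lam2y d (fun i => l i.castSucc) j - c) =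
        l 0 - ((d : ℝ) + 1) * c := by
      rw [Finset.sum_sub_distrib, ih1, Finset.sum_const, Finset.card_univ, Fintype.card_fin,
        nsmul_eq_mul]
      push_cast
      ring
    have hs2 : ∑ j : Fin (d + 1), (lam2y d (fun i => l i.castSucc) j - c) ^ 2 =
        ∑ j : Fin (d + 1), lam2y d (fun i => l i.castSucc) j ^ 2 - 2 * c * l 0 +
          ((d : ℝ) + 1) * c ^ 2 := by
      have e1 : ∀ j : Fin (d + 1), (lam2y d (fun i => l i.castSucc) j - c) ^ 2 =
          lam2y d (fun i => l i.castSucc) j ^ 2 - 2 * c * lam2y d (fun i => l i.castSucc) j +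
            c ^ 2 := fun j => by ring
      simp only [e1]
      rw [Finset.sum_add_distrib, Finset.sum_sub_distrib, ← Finset.mul_sum, ih1,
        Finset.sum_const, Finset.card_univ, Fintype.card_fin, nsmul_eq_mul]
      push_cast
      ring
    have hc1 : ((d : ℝ) + 1) * c = m / ((d : ℝ) + 2) := by
      rw [hc]; field_simp
    have hc2 : ((d : ℝ) + 1) * c ^ 2 + (m / ((d : ℝ) + 2)) ^ 2 =
        1 / (((d : ℝ) + 1) * ((d : ℝ) + 2)) * m ^ 2 := by
      rw [hc]; field_simp; ring
    constructor
    · rw [Fin.sum_univ_castSucc]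
      simp only [QID_cast, QID_last]
      rw [← hm, ← hc, hs, hc1]
      ring
    · have e5 : ∑ j, lam2y (d + 1) l j ^ 2 =
          ∑ j : Fin (d + 1), lam2y d (fun i => l i.castSucc) j ^ 2 - 2 * c * l 0 +
          ((d : ℝ) + 1) * c ^ 2 + (m / ((d : ℝ) + 2)) ^ 2 := by
        rw [Fin.sum_univ_castSucc]
        simp only [QID_cast, QID_last]
        rw [← hm, ← hc, hs2]
      have e6 : ∑ i : Fin (d + 1), 2 / (((i : ℕ) + 1 : ℝ) * ((i : ℕ) + 2)) * l i.succ ^ 2 =
          ∑ i : Fin d, 2 / (((i : ℕ) + 1 : ℝ) * ((i : ℕ) + 2)) * l i.succ.castSucc ^ 2 +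
            2 / (((d : ℝ) + 1) * ((d : ℝ) + 2)) * m ^ 2 := by
        rw [Fin.sum_univ_castSucc]
        simp only [Fin.val_castSucc, Fin.val_last, Fin.succ_castSucc, Fin.succ_last]
        rw [hm]
      have e7 : 2 / (((d : ℝ) + 1) * ((d : ℝ) + 2)) * m ^ 2 =
          2 * (1 / (((d : ℝ) + 1) * ((d : ℝ) + 2)) * m ^ 2) := by ring
      rw [e5, e6, h0, ← ih2, e7, ← hc2]
      ring

end Pool.Agent.H41R2.OP
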