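import Pool.Agent.H41R2.OP.Defs

set_option autoImplicit false

noncomputable section

open MeasureTheory Set Metric
open scoped ENNReal Topology

namespace Pool.Agent.H41R2.OP

theorem RAD_dim (n : ℕ) : Module.finrank ℝ (E (n + 1)) - 1 = n := by
  rw [finrank_euclideanSpace_fin]
  rfl

theorem RAD_polar (n : ℕ) (f : E (n + 1) → ℝ) :
    ∫ z, f z = ∫ y : sphere (0 : E (n + 1)) 1 × Ioi (0 : ℝ), f ((y.2 : ℝ) • (y.1 : E (n + 1)))
      ∂((volume : Measure (E (n + 1))).toSphere.prod (.volumeIoiPow n)) := by
  have h1 : ∫ z, f z = ∫ z : ({(0 : E (n + 1))}ᶜ : Set (E (n + 1))), f z.1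
      ∂((volume : Measure (E (n + 1))).comap (↑)) := by
    rw [integral_subtype_comap (measurableSet_singleton _).compl fun z ↦ f z,
      restrict_compl_singleton]
  have h2 := (volume : Measure (E (n + 1))).measurePreserving_homeomorphUnitSphereProd.integral_comp
    (Homeomorph.measurableEmbedding _)
    (fun y : sphere (0 : E (n + 1)) 1 × Ioi (0 : ℝ) => f ((y.2 : ℝ) • (y.1 : E (n + 1))))
  rw [RAD_dim] at h2
  rw [h1, ← h2]
  congr 1
  funext z
  congr 1
  have hz : z.1 ≠ 0 := z.2
  have hz' : ‖z.1‖ ≠ 0 := norm_ne_zero_iff.2 hz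
  simp [homeomorphUnitSphereProd, smul_smul, hz']

theorem RAD : S_RAD := by
  intro n R D g M hR hD hDR hDc hg hM
  set A : Set (sphere (0 : E (n + 1)) 1) := {ω | (R / 2) • (ω : E (n + 1)) ∈ D} with hA
  refine ⟨(∫ ω, A.indicator (fun _ => (1 : ℝ)) ω ∂((volume : Measure (E (n + 1))).toSphere)) *
    R ^ (n + 1), ?_, ?_⟩
  · apply mul_nonneg _ (pow_nonneg hR.le _)
    apply integral_nonneg
    intro ω
    exact indicator_nonneg (fun _ _ => zero_le_one) _
  · rw [← integral_indicator hD, RAD_polar]
    have h1 : ∀ y : sphere (0 : E (n + 1)) 1 × Ioi (0 : ℝ),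
        D.indicator (fun z => g ‖z‖) ((y.2 : ℝ) • (y.1 : E (n + 1))) =
        A.indicator (fun _ => (1 : ℝ)) y.1 *
          (Iio R).indicator g (y.2 : ℝ) := by
      rintro ⟨ω, r⟩
      have hr : (0 : ℝ) < r := r.2
      have hω : ‖(ω : E (n + 1))‖ = 1 := by
        have := ω.2
        rwa [mem_sphere_zero_iff_norm] at this
      have hn : ‖(r : ℝ) • (ω : E (n + 1))‖ = r := by
        rw [norm_smul, hω, mul_one, Real.norm_of_nonneg hr.le]
      have hn2 : ‖(R / 2) • (ω : E (n + 1))‖ = R / 2 := by
        rw [norm_smul, hω, mul_one, Real.norm_of_nonneg (by linarith)]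
      show D.indicator (fun z => g ‖z‖) ((r : ℝ) • (ω : E (n + 1))) =
        A.indicator (fun _ => (1 : ℝ)) ω * (Iio R).indicator g (r : ℝ)
      by_cases h2 : (r : ℝ) < R
      · rw [indicator_of_mem (s := Iio R) h2]
        by_cases h3 : (r : ℝ) • (ω : E (n + 1)) ∈ D
        · have h4 : ω ∈ A := by
            show (R / 2) • (ω : E (n + 1)) ∈ D
            have h5 := hDc _ h3 ((R / 2) / r) (by positivity) (by
              rw [smul_smul, div_mul_cancel₀ _ hr.ne', hn2]
              linarith)
            rwa [smul_smul, div_mul_cancel₀ _ hr.ne'] at h5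
          rw [indicator_of_mem h3, indicator_of_mem h4, one_mul, hn]
        · have h4 : ω ∉ A := by
            intro h4
            apply h3
            have h4' : (R / 2) • (ω : E (n + 1)) ∈ D := h4
            have hR2 : R / 2 ≠ 0 := by positivity
            have h5 := hDc _ h4' (r / (R / 2)) (by positivity) (by
              rw [smul_smul, div_mul_cancel₀ _ hR2, hn]
              exact h2)
            rwa [smul_smul, div_mul_cancel₀ _ hR2] at h5
          rw [indicator_of_notMem h3, indicator_of_notMem h4, zero_mul]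
      · rw [indicator_of_notMem (s := Iio R) h2, mul_zero]
        apply indicator_of_notMem
        intro h3
        have := hDR _ h3
        rw [hn] at this
        exact h2 this
    have h2 : ∫ y : sphere (0 : E (n + 1)) 1 × Ioi (0 : ℝ),
        D.indicator (fun z => g ‖z‖) ((y.2 : ℝ) • (y.1 : E (n + 1)))
          ∂((volume : Measure (E (n + 1))).toSphere.prod (.volumeIoiPow n)) =
        (∫ ω, A.indicator (fun _ => (1 : ℝ)) ω ∂((volume : Measure (E (n + 1))).toSphere)) *
          ∫ r : Ioi (0 : ℝ), (Iio R).indicator g (r : ℝ) ∂(.volumeIoiPow n) := by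
      rw [← integral_prod_mul]
      exact integral_congr_ae (Filter.Eventually.of_forall h1)
    rw [h2, mul_assoc]
    congr 1
    have h3 : ∫ r : Ioi (0 : ℝ), (Iio R).indicator g (r : ℝ) ∂(.volumeIoiPow n) =
        ∫ r in Ioi (0 : ℝ), r ^ n * (Iio R).indicator g r := by
      simp only [Measure.volumeIoiPow, ENNReal.ofReal]
      rw [integral_withDensity_eq_integral_smul,
        integral_subtype_comap measurableSet_Ioi
          fun a ↦ Real.toNNReal (a ^ n) • (Iio R).indicator g a,
        setIntegral_congr_fun measurableSet_Ioi fun x hx ↦ ?_]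
      · rw [NNReal.smul_def, Real.coe_toNNReal _ (pow_nonneg (le_of_lt hx) _), smul_eq_mul]
      · exact (measurable_subtype_coe.pow_const _).real_toNNReal
    rw [h3]
    have h4 : ∫ r in Ioi (0 : ℝ), r ^ n * (Iio R).indicator g r =
        ∫ r in (0 : ℝ)..R, r ^ n * g r := by
      have e : (fun r : ℝ => r ^ n * (Iio R).indicator g r) =
          (Iio R).indicator (fun r => r ^ n * g r) := by
        funext r
        by_cases hr : r ∈ Iio R
        · rw [indicator_of_mem hr, indicator_of_mem hr]
        · rw [indicator_of_notMem hr, indicator_of_notMem hr, mul_zero]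
      rw [e, setIntegral_indicator measurableSet_Iio, Ioi_inter_Iio,
        intervalIntegral.integral_of_le hR.le, integral_Ioc_eq_integral_Ioo]
    rw [h4]
    have h5 := intervalIntegral.integral_comp_mul_right (a := 0) (b := 1)
      (fun r : ℝ => r ^ n * g r) hR.ne'
    rw [zero_mul, one_mul, smul_eq_mul] at h5
    have h6 : ∫ t in (0 : ℝ)..1, (t * R) ^ n * g (t * R) =
        R ^ n * ∫ t in (0 : ℝ)..1, t ^ n * g (t * R) := by
      rw [← intervalIntegral.integral_const_mul]
      congr 1
      funext t
      rw [mul_pow]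
      ring
    rw [h6] at h5
    rw [pow_succ, mul_comm (R ^ n) R, mul_assoc, h5, ← mul_assoc, mul_inv_cancel₀ hR.ne', one_mul]

end Pool.Agent.H41R2.OP
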