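import Pool.Agent.H41R2.OP.Defs

/-! Task SCL: peeling off the first coordinate. -/

set_option autoImplicit false

noncomputable section

open MeasureTheory Set
open scoped ENNReal Topology Pointwise

namespace Pool.Agent.H41R2.OP

theorem SCL_cons {d : ℕ} {x : ℝ} {y : Fin d → ℝ} :
    Antitone (Fin.cons x y : Fin (d + 1) → ℝ) ↔ Antitone y ∧ ∀ i, y i ≤ x := by
  constructor
  · intro h
    refine ⟨fun i j hij => ?_, fun i => ?_⟩
    · have := h (Fin.succ_le_succ_iff.2 hij)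
      simpa using this
    · have := h (Fin.zero_le i.succ)
      simpa using this
  · rintro ⟨h1, h2⟩ i j hij
    induction i using Fin.cases with
    | zero =>
      induction j using Fin.cases with
      | zero => exact le_rfl
      | succ j => simpa using h2 j
    | succ i =>
      induction j using Fin.cases with
      | zero => exact absurd hij (not_le.2 (Fin.succ_pos i))
      | succ j =>
        have := h1 (Fin.succ_le_succ_iff.1 hij)
        simpa using this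

theorem SCL_meas (d : ℕ) (ρ : ℝ) : MeasurableSet (lball d ρ) := by
  have h1 : MeasurableSet {y : Fin (d + 1) → ℝ | Antitone y} := isClosed_antitone.measurableSet
  have h2 : MeasurableSet {y : Fin (d + 1) → ℝ | ∀ i, 0 ≤ y i} := by
    rw [Set.setOf_forall]
    exact MeasurableSet.iInter fun i => measurableSet_le measurable_const (measurable_pi_apply i)
  have h3 : MeasurableSet {y : Fin (d + 1) → ℝ | 0 < y 0} :=
    measurableSet_lt measurable_const (measurable_pi_apply 0)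
  have h4 : MeasurableSet {y : Fin (d + 1) → ℝ | y 0 ≤ 1} :=
    measurableSet_le (measurable_pi_apply 0) measurable_const
  have h5 : MeasurableSet {y : Fin (d + 1) → ℝ |
      ∑ i : Fin d, 2 / (((i : ℕ) + 1 : ℝ) * ((i : ℕ) + 2)) * y i.succ ^ 2 ≤ ρ ^ 2 * y 0 ^ 2} := by
    refine measurableSet_le ?_ ?_
    · fun_prop
    · fun_prop
  have e : lball d ρ = {y | Antitone y} ∩ ({y | ∀ i, 0 ≤ y i} ∩ ({y | 0 < y 0} ∩ ({y | y 0 ≤ 1} ∩
      {y : Fin (d + 1) → ℝ |
        ∑ i : Fin d, 2 / (((i : ℕ) + 1 : ℝ) * ((i : ℕ) + 2)) * y i.succ ^ 2 ≤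
          ρ ^ 2 * y 0 ^ 2}))) := by
    ext y
    rfl
  rw [e]
  exact h1.inter (h2.inter (h3.inter (h4.inter h5)))

theorem SCL_slice {d : ℕ} {ρ x : ℝ} (hx : x ∈ Ioc (0 : ℝ) 1) :
    {y : Fin d → ℝ | (Fin.cons x y : Fin (d + 1) → ℝ) ∈ lball d ρ} = x • mball d ρ := by
  have hx0 := hx.1
  ext y
  rw [Set.mem_smul_set_iff_inv_smul_mem₀ hx0.ne']
  have hq : (∑ i : Fin d, 2 / (((i : ℕ) + 1 : ℝ) * ((i : ℕ) + 2)) * ((x⁻¹ • y) i) ^ 2) =
      (x ^ 2)⁻¹ * ∑ i : Fin d, 2 / (((i : ℕ) + 1 : ℝ) * ((i : ℕ) + 2)) * y i ^ 2 := by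
    rw [Finset.mul_sum]
    refine Finset.sum_congr rfl fun i _ => ?_
    rw [Pi.smul_apply, smul_eq_mul, mul_pow, inv_pow]
    ring
  have hq' : (x ^ 2)⁻¹ * (∑ i : Fin d, 2 / (((i : ℕ) + 1 : ℝ) * ((i : ℕ) + 2)) * y i ^ 2) ≤ ρ ^ 2 ↔
      (∑ i : Fin d, 2 / (((i : ℕ) + 1 : ℝ) * ((i : ℕ) + 2)) * y i ^ 2) ≤ ρ ^ 2 * x ^ 2 := by
    rw [inv_mul_le_iff₀ (by positivity), mul_comm]
  show (Antitone (Fin.cons x y : Fin (d + 1) → ℝ) ∧
      (∀ i, 0 ≤ (Fin.cons x y : Fin (d + 1) → ℝ) i) ∧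
      0 < (Fin.cons x y : Fin (d + 1) → ℝ) 0 ∧ (Fin.cons x y : Fin (d + 1) → ℝ) 0 ≤ 1 ∧
      ∑ i : Fin d, 2 / (((i : ℕ) + 1 : ℝ) * ((i : ℕ) + 2)) *
        (Fin.cons x y : Fin (d + 1) → ℝ) i.succ ^ 2 ≤
        ρ ^ 2 * (Fin.cons x y : Fin (d + 1) → ℝ) 0 ^ 2) ↔
    (Antitone (x⁻¹ • y) ∧ (∀ i, 0 ≤ (x⁻¹ • y) i ∧ (x⁻¹ • y) i ≤ 1) ∧
      ∑ i : Fin d, 2 / (((i : ℕ) + 1 : ℝ) * ((i : ℕ) + 2)) * ((x⁻¹ • y) i) ^ 2 ≤ ρ ^ 2)
  rw [hq, hq', SCL_cons]
  simp only [Fin.cons_succ, Fin.cons_zero]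
  have hanti : Antitone (x⁻¹ • y) ↔ Antitone y := by
    constructor
    · intro h i j hij
      have := h hij
      simp only [Pi.smul_apply, smul_eq_mul] at this
      exact le_of_mul_le_mul_left this (inv_pos.2 hx0)
    · intro h i j hij
      simp only [Pi.smul_apply, smul_eq_mul]
      exact mul_le_mul_of_nonneg_left (h hij) (inv_pos.2 hx0).le
  rw [hanti]
  have h01 : ∀ i, (0 ≤ (x⁻¹ • y) i ∧ (x⁻¹ • y) i ≤ 1) ↔ (0 ≤ y i ∧ y i ≤ x) := by
    intro i
    simp only [Pi.smul_apply, smul_eq_mul]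
    constructor
    · rintro ⟨h1, h2⟩
      refine ⟨?_, ?_⟩
      · by_contra hc
        push Not at hc
        have := mul_neg_of_pos_of_neg (inv_pos.2 hx0) hc
        linarith
      · rwa [inv_mul_le_iff₀ hx0, mul_one] at h2
    · rintro ⟨h1, h2⟩
      refine ⟨mul_nonneg (inv_pos.2 hx0).le h1, ?_⟩
      rwa [inv_mul_le_iff₀ hx0, mul_one]
  constructor
  · rintro ⟨⟨h1, h2⟩, h3, -, -, h6⟩
    refine ⟨h1, fun i => (h01 i).2 ⟨?_, h2 i⟩, h6⟩
    have := h3 i.succ
    simpa using this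
  · rintro ⟨h1, h2, h3⟩
    refine ⟨⟨h1, fun i => ((h01 i).1 (h2 i)).2⟩, ?_, hx0, hx.2, h3⟩
    intro i
    induction i using Fin.cases with
    | zero => exact hx0.le
    | succ i => simpa using ((h01 i).1 (h2 i)).1

theorem SCL : S_SCL := by
  intro d ρ _
  have hmp := (volume_preserving_piFinSuccAbove (fun _ : Fin (d + 1) => ℝ) 0).symm
  have hm := SCL_meas d ρ
  rw [← hmp.measure_preimage hm.nullMeasurableSet, Measure.volume_eq_prod,
    Measure.prod_apply (hmp.measurable hm)]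
  have hsl : ∀ x : ℝ, volume (Prod.mk x ⁻¹'
      ((MeasurableEquiv.piFinSuccAbove (fun _ : Fin (d + 1) => ℝ) 0).symm ⁻¹' lball d ρ)) =
      (Ioc (0 : ℝ) 1).indicator (fun x => ENNReal.ofReal (x ^ d) * volume (mball d ρ)) x := by
    intro x
    have e : (Prod.mk x ⁻¹'
        ((MeasurableEquiv.piFinSuccAbove (fun _ : Fin (d + 1) => ℝ) 0).symm ⁻¹' lball d ρ)) =
        {y : Fin d → ℝ | (Fin.cons x y : Fin (d + 1) → ℝ) ∈ lball d ρ} := by
      ext y
      have e2 : (MeasurableEquiv.piFinSuccAbove (fun _ : Fin (d + 1) => ℝ) 0).symm (x, y) =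
          (Fin.cons x y : Fin (d + 1) → ℝ) := by
        show (Fin.insertNth 0 x y : Fin (d + 1) → ℝ) = (Fin.cons x y : Fin (d + 1) → ℝ)
        exact Fin.insertNth_zero' x y
      show (MeasurableEquiv.piFinSuccAbove (fun _ : Fin (d + 1) => ℝ) 0).symm (x, y) ∈ lball d ρ ↔ _
      rw [e2]
      rfl
    rw [e]
    by_cases hx : x ∈ Ioc (0 : ℝ) 1
    · rw [Set.indicator_of_mem hx, SCL_slice hx, Measure.addHaar_smul, Module.finrank_fin_fun,
        abs_of_nonneg (pow_nonneg hx.1.le d)]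
    · rw [Set.indicator_of_notMem hx]
      have : {y : Fin d → ℝ | (Fin.cons x y : Fin (d + 1) → ℝ) ∈ lball d ρ} = ∅ := by
        ext y
        constructor
        · rintro ⟨-, -, h3, h4, -⟩
          exact (hx ⟨h3, h4⟩).elim
        · intro h
          exact h.elim
      rw [this, measure_empty]
  simp only [hsl]
  rw [lintegral_indicator measurableSet_Ioc, lintegral_mul_const']
  · congr 1
    rw [← ofReal_integral_eq_lintegral_ofReal]
    · congr 1
      rw [← intervalIntegral.integral_of_le zero_le_one, integral_pow]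
      simp
    · exact ((continuous_pow d).continuousOn.integrableOn_Icc (a := 0) (b := 1)).mono_set
        Ioc_subset_Icc_self
    · exact (ae_restrict_iff' measurableSet_Ioc).2
        (Filter.Eventually.of_forall fun x hx => pow_nonneg hx.1.le d)
  · have hsub : mball d ρ ⊆ Set.pi Set.univ fun _ => Icc (0 : ℝ) 1 := by
      intro y hy i _
      exact hy.2.1 i
    refine ((measure_mono hsub).trans_lt ?_).ne
    rw [volume_pi_pi]
    exact ENNReal.prod_lt_top fun i _ => by rw [Real.volume_Icc]; exact ENNReal.ofReal_lt_top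

end Pool.Agent.H41R2.OP
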