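import Pool.Agent.H41R2.OP.Defs

set_option autoImplicit false

noncomputable section

open MeasureTheory Set
open scoped ENNReal Topology

namespace Pool.Agent.H41R2.OP

lemma SIM_sub {d : ℕ} (t : Fin (d + 1) → E d) (y : Fin (d + 1) → ℝ) (_hs : 0 < ∑ i, y i) :
    (∑ i, y i)⁻¹ • ∑ i, y i • t i = ∑ i, ((∑ i, y i)⁻¹ * y i) • t i := by
  rw [Finset.smul_sum]
  exact Finset.sum_congr rfl fun i _ => smul_smul _ _ _

lemma SIM_mem {d : ℕ} (h1 : S_BAR) (t : Fin (d + 1) → E d) (ht : Reg t) (ρ : ℝ) (hρ : 0 ≤ ρ)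
    (y : Fin (d + 1) → ℝ) (h0 : ∀ i, 0 ≤ y i) (hs : 0 < ∑ i, y i) :
    ((∑ i, y i)⁻¹ • ∑ i, y i • t i ∈ convexHull ℝ (range t) ∩ ⋃ i, Metric.closedBall (t i) ρ) ↔
    ∃ j, 2 * (∑ i, y i ^ 2 - 2 * y j * ∑ i, y i + (∑ i, y i) ^ 2) ≤ ρ ^ 2 * (∑ i, y i) ^ 2 := by
  set s := ∑ i, y i with hsd
  have hβ : ∑ i, (s⁻¹ * y i) = 1 := by
    rw [← Finset.mul_sum, ← hsd, inv_mul_cancel₀ hs.ne']
  have hc : s⁻¹ • ∑ i, y i • t i ∈ convexHull ℝ (range t) := by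
    rw [SIM_sub t y hs]
    refine (convex_convexHull ℝ _).sum_mem (fun i _ => ?_) hβ (fun i _ => ?_)
    · exact mul_nonneg (inv_nonneg.2 hs.le) (h0 i)
    · exact subset_convexHull ℝ _ ⟨i, rfl⟩
  have hq : ∀ j, ‖s⁻¹ • ∑ i, y i • t i - t j‖ ^ 2 * s ^ 2 =
      2 * (∑ i, y i ^ 2 - 2 * y j * s + s ^ 2) := by
    intro j
    have h := h1 d t ht (fun i => s⁻¹ * y i) hβ j
    rw [SIM_sub t y hs, h]
    have h2 : ∑ i, (s⁻¹ * y i) ^ 2 = (s⁻¹) ^ 2 * ∑ i, y i ^ 2 := by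
      rw [Finset.mul_sum]; exact Finset.sum_congr rfl fun i _ => by ring
    simp only [h2]
    field_simp
  constructor
  · rintro ⟨-, h⟩
    rw [mem_iUnion] at h
    obtain ⟨j, hj⟩ := h
    refine ⟨j, ?_⟩
    rw [mem_closedBall_iff_norm] at hj
    rw [← hq j]
    have := pow_le_pow_left₀ (norm_nonneg _) hj 2
    exact mul_le_mul_of_nonneg_right this (sq_nonneg _)
  · rintro ⟨j, hj⟩
    refine ⟨hc, ?_⟩
    rw [mem_iUnion]
    refine ⟨j, ?_⟩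
    rw [mem_closedBall_iff_norm]
    rw [← hq j] at hj
    have h3 : ‖s⁻¹ • ∑ i, y i • t i - t j‖ ^ 2 ≤ ρ ^ 2 :=
      le_of_mul_le_mul_right hj (by positivity)
    exact le_of_sq_le_sq h3 hρ |> fun h => h

theorem SIM (h1 : S_BAR) (h2 : S_CNV) (h3 : S_PRM) (h4 : S_LAM) (h5 : S_SCL) (h6 : S_MBW) :
    S_SIM := by
  intro d t hd ht
  obtain ⟨K1, hK1, hC⟩ := h2 d t hd ht
  obtain ⟨K2, hK2, hL⟩ := h4 d
  refine ⟨K1 * (((d + 1).factorial : ℝ≥0∞) * (K2 * ENNReal.ofReal (1 / ((d : ℝ) + 1)))), ?_, ?_⟩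
  · exact ENNReal.mul_ne_top hK1 (ENNReal.mul_ne_top (ENNReal.natCast_ne_top _)
      (ENNReal.mul_ne_top hK2 ENNReal.ofReal_ne_top))
  intro ρ hρ
  set A := convexHull ℝ (range t) ∩ ⋃ i, Metric.closedBall (t i) ρ with hA
  have hAm : MeasurableSet A := by
    refine MeasurableSet.inter ?_ (MeasurableSet.iUnion fun i => Metric.isClosed_closedBall.measurableSet)
    exact ((finite_range t).isCompact_convexHull (𝕜 := ℝ)).isClosed.measurableSet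
  rw [hC A inter_subset_left hAm]
  have hchar : yreg t A = {y : Fin (d + 1) → ℝ | (∀ i, 0 ≤ y i) ∧ 0 < ∑ i, y i ∧ ∑ i, y i ≤ 1 ∧
      ∃ j, 2 * (∑ i, y i ^ 2 - 2 * y j * ∑ i, y i + (∑ i, y i) ^ 2) ≤ ρ ^ 2 * (∑ i, y i) ^ 2} := by
    ext y
    simp only [yreg, mem_setOf_eq]
    constructor
    · rintro ⟨h0, hs, hs1, hm⟩
      exact ⟨h0, hs, hs1, (SIM_mem h1 t ht ρ hρ y h0 hs).1 hm⟩
    · rintro ⟨h0, hs, hs1, hm⟩
      exact ⟨h0, hs, hs1, (SIM_mem h1 t ht ρ hρ y h0 hs).2 hm⟩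
  have hBm : MeasurableSet (yreg t A) := by
    rw [hchar]
    have e : {y : Fin (d + 1) → ℝ | (∀ i, 0 ≤ y i) ∧ 0 < ∑ i, y i ∧ ∑ i, y i ≤ 1 ∧
      ∃ j, 2 * (∑ i, y i ^ 2 - 2 * y j * ∑ i, y i + (∑ i, y i) ^ 2) ≤ ρ ^ 2 * (∑ i, y i) ^ 2} =
      (⋂ i, {y | 0 ≤ y i}) ∩ ({y | 0 < ∑ i, y i} ∩ ({y | ∑ i, y i ≤ 1} ∩
      ⋃ j, {y | 2 * (∑ i, y i ^ 2 - 2 * y j * ∑ i, y i + (∑ i, y i) ^ 2)
        ≤ ρ ^ 2 * (∑ i, y i) ^ 2})) := by
      ext y; simp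
    rw [e]
    refine MeasurableSet.inter (MeasurableSet.iInter fun i => ?_) (MeasurableSet.inter ?_
      (MeasurableSet.inter ?_ (MeasurableSet.iUnion fun j => ?_)))
    · exact (isClosed_le continuous_const (continuous_apply i)).measurableSet
    · exact (isOpen_lt continuous_const (by fun_prop)).measurableSet
    · exact (isClosed_le (by fun_prop) continuous_const).measurableSet
    · exact (isClosed_le (by fun_prop) (by fun_prop)).measurableSet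
  have hperm : ∀ σ : Equiv.Perm (Fin (d + 1)), ∀ y ∈ yreg t A, (fun i => y (σ i)) ∈ yreg t A := by
    intro σ y hy
    rw [hchar] at hy ⊢
    obtain ⟨h0, hs, hs1, j, hj⟩ := hy
    have e1 : ∑ i, y (σ i) = ∑ i, y i := Equiv.sum_comp σ y
    have e2 : ∑ i, y (σ i) ^ 2 = ∑ i, y i ^ 2 := Equiv.sum_comp σ (fun i => y i ^ 2)
    refine ⟨fun i => h0 _, ?_, ?_, σ.symm j, ?_⟩
    · simpa only [e1] using hs
    · simpa only [e1] using hs1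
    · simpa only [e1, e2, Equiv.apply_symm_apply] using hj
  rw [h3 (d + 1) (yreg t A) hBm hperm]
  have hyb : yreg t A ∩ {y | Antitone y} = yball d ρ := by
    rw [hchar]
    ext y
    simp only [mem_inter_iff, mem_setOf_eq, yball]
    constructor
    · rintro ⟨⟨h0, hs, hs1, j, hj⟩, ha⟩
      refine ⟨ha, h0, hs, hs1, le_trans ?_ hj⟩
      have := ha (Fin.zero_le j)
      nlinarith
    · rintro ⟨ha, h0, hs, hs1, hj⟩
      exact ⟨⟨h0, hs, hs1, 0, hj⟩, ha⟩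
  rw [hyb, hL ρ, h5 d ρ hρ, h6 d ρ hd]
  ring

end Pool.Agent.H41R2.OP
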