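import Mathlib
import Pool.Agent.H41R2.OP.Defs

set_option autoImplicit false

noncomputable section

open MeasureTheory Set
open scoped ENNReal Topology

namespace Pool.Agent.H41R2.OP

theorem STEP (h1 : S_ORT) (h2 : S_WGT) (h3 : S_FAR) : S_STEP := by
  intro d n X S c0 m L x c φ hPk hF hcX hcS hav hφ hx2
  have hO := h1 d n X S c0 m L x c φ hF hcX hcS hav hφ
  have hsub : insert c S ⊆ X := by
    intro q hq
    rcases Finset.mem_insert.mp hq with rfl | hq
    · exact hcX
    · exact hF.sub hq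
  have hcard : (insert c S).card + n = d + 1 := by
    rw [Finset.card_insert_of_notMem hcS]
    have := hF.card
    omega
  have hneg : ∀ c1 ∈ insert c S, ∀ c2 ∈ insert c S, c1 ≠ c2 →
      inner ℝ (c1 - (m + L (foot (av L m c) (bv m x c))))
        (c2 - (m + L (foot (av L m c) (bv m x c)))) < 0 := by
    intro c1 hc1 c2 hc2 hne
    have e1 := (hO c1 hc1).1
    have e2 := (hO c2 hc2).1
    have hd : 2 ≤ ‖c1 - c2‖ := hPk c1 (hsub hc1) c2 (hsub hc2) hne
    have hsq := norm_sub_sq_real (c1 - (m + L (foot (av L m c) (bv m x c))))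
      (c2 - (m + L (foot (av L m c) (bv m x c))))
    have heq : (c1 - (m + L (foot (av L m c) (bv m x c)))) -
      (c2 - (m + L (foot (av L m c) (bv m x c)))) = c1 - c2 := by abel
    rw [heq, e1, e2] at hsq
    have h4 : (4:ℝ) ≤ ‖c1 - c2‖ ^ 2 := by nlinarith
    nlinarith
  obtain ⟨μ, hμ0, hμ1, hμs⟩ := h2 d n (insert c S) (m + L (foot (av L m c) (bv m x c)))
    (L.comp φ) hcard (fun c' hc' w => (hO c' hc').2 w) hneg
  refine ⟨hsub, Finset.mem_insert_of_mem hF.mem, hcard, fun c' hc' => (hO c' hc').1,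
    fun c' hc' => (hO c' hc').2, ?_⟩
  intro q hqX hqS
  refine h3 d (insert c S) (m + L (foot (av L m c) (bv m x c))) q
    (x + hh (av L m c) (bv m x c) ^ 2) μ hμ0 hμ1 hμs (fun c' hc' => (hO c' hc').1) ?_
  intro c1 hc1
  refine hPk q hqX c1 (hsub hc1) ?_
  rintro rfl
  exact hqS hc1

end Pool.Agent.H41R2.OP
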