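import Mathlib
import Pool.Agent.H41R2.OP.Defs

set_option autoImplicit false

noncomputable section

open MeasureTheory Set

namespace Pool.Agent.H41R2.OP

theorem SUB_foot {n : ℕ} (a : E n) (b : ℝ) (ha : a ≠ 0) : inner ℝ a (foot a b) = b := by
  unfold foot
  rw [inner_smul_right, real_inner_self_eq_norm_sq]
  have : ‖a‖ ^ 2 ≠ 0 := by positivity
  field_simp

theorem SUB_norm {n : ℕ} (a : E n) (b : ℝ) (ha : a ≠ 0) : ‖foot a b‖ ^ 2 = hh a b ^ 2 := by
  unfold foot hh
  rw [norm_smul, Real.norm_eq_abs, mul_pow, sq_abs]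
  have : ‖a‖ ≠ 0 := norm_ne_zero_iff.mpr ha
  field_simp

theorem SUB : S_SUB := by
  intro n ι _ a b φ G U x hsys j hj
  rintro z ⟨t, ht, w, hw, rfl⟩
  have haj : a j ≠ 0 := ((hsys.good j).mp hj).1
  refine ⟨fun l => ?_, ?_⟩
  · rw [inner_smul_right]
    have hbl := hsys.bpos l
    by_cases hl : l = j
    · subst hl
      rw [inner_add_right, SUB_foot _ _ haj, hsys.orth l hj, add_zero]
      exact mul_le_of_le_one_left hbl.le ht.2
    · have h1 := hw.1 l hl
      rcases le_total (inner ℝ (a l) (foot (a j) (b j) + φ j w)) 0 with h | h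
      · exact (mul_nonpos_of_nonneg_of_nonpos ht.1.le h).trans hbl.le
      · exact (mul_le_of_le_one_left h ht.2).trans h1.le
  · have h0 : inner ℝ (foot (a j) (b j)) (φ j w) = 0 := by
      unfold foot
      rw [inner_smul_left, hsys.orth j hj, mul_zero]
    have h1 : ‖foot (a j) (b j) + φ j w‖ ^ 2 = hh (a j) (b j) ^ 2 + ‖w‖ ^ 2 := by
      rw [norm_add_sq_real, h0, SUB_norm _ _ haj, (φ j).norm_map]
      ring
    have h2 : ‖t • (foot (a j) (b j) + φ j w)‖ ^ 2 ≤ hh (a j) (b j) ^ 2 + ‖w‖ ^ 2 := by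
      rw [norm_smul, mul_pow, h1, Real.norm_eq_abs, sq_abs]
      have h3 : t ^ 2 ≤ 1 := by nlinarith [ht.1, ht.2]
      exact mul_le_of_le_one_left (by positivity) h3
    have h3 := hw.2
    linarith

end Pool.Agent.H41R2.OP
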