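import Pool.Agent.H41R2.OP.Defs

set_option autoImplicit false

noncomputable section

open MeasureTheory Set
open scoped ENNReal Topology

namespace Pool.Agent.H41R2.OP

theorem SUF (h1 : S_CNT) (h2 : S_OPP) (h3 : S_OPC) (h4 : S_MONv) (h5 : S_FOM) (h6 : S_FOP) :
    S_SUF := by
  intro ys
  induction ys with
  | nil =>
    intro k w g h a U _ _ _ _ _ _ _ _ _ _
    show g U * w U * (h U * w U) ≤ g U * h U * w U * w U
    apply le_of_eq
    ring
  | cons y ys ih =>
    intro k w g h a U ha haU hys hpw hw hg hh hwp hgm hhm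
    have hy := hys y (List.mem_cons_self)
    have hy0 : 0 < y := lt_of_lt_of_le ha hy.1
    rw [List.pairwise_cons] at hpw
    have hys' : ∀ z ∈ ys, y ≤ z ∧ z ≤ U := fun z hz =>
      ⟨hpw.1 z hz, (hys z (List.mem_cons_of_mem _ hz)).2⟩
    have cgw : ContinuousOn (fun u => g u * w u) (Ioi 0) := hg.mul hw
    have chw : ContinuousOn (fun u => h u * w u) (Ioi 0) := hh.mul hw
    have cghw : ContinuousOn (fun u => g u * h u * w u) (Ioi 0) := (hg.mul hh).mul hw
    have cw1 := h1 k y w hy0 hw
    have cg1 := h1 k y _ hy0 cgw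
    have ch1 := h1 k y _ hy0 chw
    have cgh1 := h1 k y _ hy0 cghw
    have pw1 : ∀ v : ℝ, 0 < v → 0 < op k y w v := h2 k y w hy0 hw hwp
    have cg2 : ContinuousOn (fun u => op k y (fun u => g u * w u) u / op k y w u) (Ioi 0) :=
      cg1.div cw1 (fun u hu => (pw1 u hu).ne')
    have ch2 : ContinuousOn (fun u => op k y (fun u => h u * w u) u / op k y w u) (Ioi 0) :=
      ch1.div cw1 (fun u hu => (pw1 u hu).ne')
    have mono : ∀ q : ℝ → ℝ, ContinuousOn q (Ioi 0) → MonotoneOn q (Icc a U) →
        MonotoneOn (fun u => op k y (fun u => q u * w u) u / op k y w u) (Icc y U) := by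
      intro q hq hqm v hv v' hv' hvv
      have hv0 : 0 < v := lt_of_lt_of_le hy0 hv.1
      have hv0' : 0 < v' := lt_of_lt_of_le hy0 hv'.1
      show op k y (fun u => q u * w u) v / op k y w v ≤
        op k y (fun u => q u * w u) v' / op k y w v'
      rw [div_le_div_iff₀ (pw1 v hv0) (pw1 v' hv0')]
      exact h4 k y v v' w q hy0 hv.1 hvv hw hq hwp
        (hqm.mono (Icc_subset_Icc hy.1 hv'.2))
    have key := ih (k - 1) (op k y w) _ _ y U hy0 hy.2 hys' hpw.2 cw1 cg2 ch2 pw1
      (mono g hg hgm) (mono h hh hhm)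
    have e1 : ∀ q : ℝ → ℝ, ContinuousOn q (Ioi 0) →
        fo ys (k - 1) (fun u => op k y (fun u => q u * w u) u / op k y w u * op k y w u) U
          = fo ys (k - 1) (op k y (fun u => q u * w u)) U := by
      intro q hq
      have c1 : ContinuousOn (op k y (fun u => q u * w u)) (Ioi 0) := h1 k y _ hy0 (hq.mul hw)
      have c2 : ContinuousOn
          (fun u => op k y (fun u => q u * w u) u / op k y w u * op k y w u) (Ioi 0) :=
        (c1.div cw1 (fun u hu => (pw1 u hu).ne')).mul cw1
      have e : ∀ v ∈ Icc y U, op k y (fun u => q u * w u) v / op k y w v * op k y w v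
          = op k y (fun u => q u * w u) v := by
        intro v hv
        exact div_mul_cancel₀ _ (pw1 v (lt_of_lt_of_le hy0 hv.1)).ne'
      apply le_antisymm
      · exact h5 ys (k - 1) _ _ y U hy0 hy.2 hys' hpw.2 c2 c1 (fun v hv => (e v hv).le)
      · exact h5 ys (k - 1) _ _ y U hy0 hy.2 hys' hpw.2 c1 c2 (fun v hv => (e v hv).ge)
    have e2 : fo ys (k - 1) (fun u => op k y (fun u => g u * w u) u / op k y w u
        * (op k y (fun u => h u * w u) u / op k y w u) * op k y w u) U
        ≤ fo ys (k - 1) (op k y (fun u => g u * h u * w u)) U := by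
      refine h5 ys (k - 1) _ _ y U hy0 hy.2 hys' hpw.2 ((cg2.mul ch2).mul cw1) cgh1 ?_
      intro v hv
      have hv0 : 0 < v := lt_of_lt_of_le hy0 hv.1
      have hp := pw1 v hv0
      have h7 := h3 k y v w g h hy0 hv.1 hw hg hh hwp
        (hgm.mono (Icc_subset_Icc hy.1 hv.2)) (hhm.mono (Icc_subset_Icc hy.1 hv.2))
      have e : op k y (fun u => g u * w u) v / op k y w v
          * (op k y (fun u => h u * w u) v / op k y w v) * op k y w v
          = op k y (fun u => g u * w u) v * op k y (fun u => h u * w u) v / op k y w v := by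
        field_simp
      show op k y (fun u => g u * w u) v / op k y w v
          * (op k y (fun u => h u * w u) v / op k y w v) * op k y w v ≤ _
      rw [e, div_le_iff₀ hp]
      exact h7
    have hU0 : 0 < U := lt_of_lt_of_le ha haU
    have e3 : 0 < fo ys (k - 1) (op k y w) U :=
      (h6 ys (k - 1) (op k y w) (fun z hz => lt_of_lt_of_le hy0 (hys' z hz).1) cw1).2 pw1 U hU0
    show fo ys (k - 1) (op k y (fun u => g u * w u)) U * fo ys (k - 1) (op k y (fun u => h u * w u)) U
      ≤ fo ys (k - 1) (op k y (fun u => g u * h u * w u)) U * fo ys (k - 1) (op k y w) U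
    rw [← e1 g hg, ← e1 h hh]
    exact key.trans (mul_le_mul_of_nonneg_right e2 e3.le)

end Pool.Agent.H41R2.OP
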