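import Pool.Agent.H41R2.OP.Defs

set_option autoImplicit false

noncomputable section

open MeasureTheory Set
open scoped ENNReal Topology

namespace Pool.Agent.H41R2.OP

theorem SYM_norm {d : ℕ} (h1 : S_BAR) {t : Fin (d + 1) → E d} (ht : Reg t) (i : Fin (d + 1))
    (y : Fin (d + 1) → ℝ) (hs : 0 < ∑ l, y l) :
    ‖(∑ l, y l)⁻¹ • ∑ l, y l • t l - t i‖ =
      ‖(∑ l, y l)⁻¹ • ∑ l, y (Equiv.swap 0 i l) • t l - t 0‖ := by
  have e : ∀ z : Fin (d + 1) → ℝ,
      (∑ l, y l)⁻¹ • ∑ l, z l • t l = ∑ l, ((∑ l, y l)⁻¹ * z l) • t l := by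
    intro z
    rw [Finset.smul_sum]
    simp [smul_smul]
  rw [e, e (fun l => y (Equiv.swap 0 i l))]
  have hsum1 : ∑ l, ((∑ l, y l)⁻¹ * y l) = 1 := by
    rw [← Finset.mul_sum]
    exact inv_mul_cancel₀ hs.ne'
  have hsum2 : ∑ l, ((∑ l, y l)⁻¹ * y (Equiv.swap 0 i l)) = 1 := by
    rw [Equiv.sum_comp (Equiv.swap 0 i) (fun l => (∑ l, y l)⁻¹ * y l)]
    exact hsum1
  have a1 := h1 d t ht _ hsum1 i
  have a2 := h1 d t ht _ hsum2 0
  have a3 : ∑ l, ((∑ l, y l)⁻¹ * y (Equiv.swap 0 i l)) ^ 2 = ∑ l, ((∑ l, y l)⁻¹ * y l) ^ 2 :=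
    Equiv.sum_comp (Equiv.swap 0 i) (fun l => ((∑ l, y l)⁻¹ * y l) ^ 2)
  rw [a3, Equiv.swap_apply_left] at a2
  rw [← a1] at a2
  have a4 := (sq_eq_sq₀ (norm_nonneg _) (norm_nonneg _)).1 a2
  exact a4.symm

theorem SYM_conv {d : ℕ} (t : Fin (d + 1) → E d) (y : Fin (d + 1) → ℝ) (hy : ∀ i, 0 ≤ y i)
    (hs : 0 < ∑ l, y l) :
    (∑ l, y l)⁻¹ • ∑ l, y l • t l ∈ convexHull ℝ (range t) := by
  have e : (∑ l, y l)⁻¹ • ∑ l, y l • t l = ∑ l, ((∑ l, y l)⁻¹ * y l) • t l := by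
    rw [Finset.smul_sum]
    simp [smul_smul]
  rw [e]
  apply (convex_convexHull ℝ (range t)).sum_mem
  · intro l _
    exact mul_nonneg (inv_nonneg.2 hs.le) (hy l)
  · rw [← Finset.mul_sum]
    exact inv_mul_cancel₀ hs.ne'
  · intro l _
    exact subset_convexHull ℝ _ ⟨l, rfl⟩

/-- swapping the coordinates -/
def SYM_sw {d : ℕ} (i : Fin (d + 1)) : (Fin (d + 1) → ℝ) ≃ᵐ (Fin (d + 1) → ℝ) :=
  MeasurableEquiv.arrowCongr' (Equiv.swap 0 i) (MeasurableEquiv.refl ℝ)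

theorem SYM_sw_apply {d : ℕ} (i : Fin (d + 1)) (y : Fin (d + 1) → ℝ) (j : Fin (d + 1)) :
    SYM_sw i y j = y (Equiv.swap 0 i j) := by
  rfl

theorem SYM_mp {d : ℕ} (i : Fin (d + 1)) :
    MeasurePreserving (SYM_sw i) (volume : Measure (Fin (d + 1) → ℝ)) volume :=
  volume_preserving_arrowCongr' _ _ (MeasurePreserving.id _)

theorem SYM_set {d : ℕ} (h1 : S_BAR) {t : Fin (d + 1) → E d} (ht : Reg t) (i : Fin (d + 1))
    (ρ : ℝ) : yreg t (convexHull ℝ (range t) ∩ Metric.closedBall (t i) ρ) =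
      SYM_sw i ⁻¹' yreg t (convexHull ℝ (range t) ∩ Metric.closedBall (t 0) ρ) := by
  ext y
  have hsum : ∑ l, SYM_sw i y l = ∑ l, y l := Equiv.sum_comp (Equiv.swap 0 i) y
  have hsum2 : ∑ l, SYM_sw i y l • t l = ∑ l, y (Equiv.swap 0 i l) • t l := rfl
  simp only [yreg, mem_preimage, mem_ofPred_eq, mem_inter_iff, Metric.mem_closedBall,
    dist_eq_norm]
  rw [hsum, hsum2]
  constructor
  · rintro ⟨a1, a2, a3, a4, a5⟩
    refine ⟨fun j => a1 _, a2, a3, ?_, ?_⟩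
    · have := SYM_conv t (SYM_sw i y) (fun j => a1 _) (by rw [hsum]; exact a2)
      rw [hsum, hsum2] at this
      exact this
    · rw [← SYM_norm h1 ht i y a2]
      exact a5
  · rintro ⟨a1, a2, a3, a4, a5⟩
    have a1' : ∀ j, 0 ≤ y j := by
      intro j
      have := a1 (Equiv.swap 0 i j)
      rw [SYM_sw_apply, Equiv.swap_apply_self] at this
      exact this
    refine ⟨a1', a2, a3, SYM_conv t y a1' a2, ?_⟩
    rw [SYM_norm h1 ht i y a2]
    exact a5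

theorem SYM (h1 : S_BAR) (h2 : S_CNV) : S_SYM := by
  intro d t ρ hd ht
  obtain ⟨K, hK, hKv⟩ := h2 d t hd ht
  have hcm : MeasurableSet (convexHull ℝ (range t)) :=
    ((finite_range t).isCompact_convexHull (𝕜 := ℝ)).measurableSet
  have hm : ∀ i, MeasurableSet (convexHull ℝ (range t) ∩ Metric.closedBall (t i) ρ) :=
    fun i => hcm.inter Metric.isClosed_closedBall.measurableSet
  have heq : ∀ i, volume (convexHull ℝ (range t) ∩ Metric.closedBall (t i) ρ) =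
      volume (convexHull ℝ (range t) ∩ Metric.closedBall (t 0) ρ) := by
    intro i
    rw [hKv _ inter_subset_left (hm i), hKv _ inter_subset_left (hm 0), SYM_set h1 ht i ρ,
      (SYM_mp i).measure_preimage_equiv]
  calc volume (convexHull ℝ (range t) ∩ ⋃ i, Metric.closedBall (t i) ρ)
      = volume (⋃ i, convexHull ℝ (range t) ∩ Metric.closedBall (t i) ρ) := by
        rw [inter_iUnion]
    _ ≤ ∑ i, volume (convexHull ℝ (range t) ∩ Metric.closedBall (t i) ρ) :=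
        measure_iUnion_fintype_le _ _
    _ = ((d : ℝ≥0∞) + 1) * volume (convexHull ℝ (range t) ∩ Metric.closedBall (t 0) ρ) := by
        simp only [heq, Finset.sum_const, Finset.card_univ, Fintype.card_fin, nsmul_eq_mul]
        push_cast
        rfl

end Pool.Agent.H41R2.OP
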