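import Pool.Agent.H41R2.OP.Defs

set_option autoImplicit false

noncomputable section

open MeasureTheory Set
open scoped ENNReal Topology

namespace Pool.Agent.H41R2.OP

theorem TOP_ideal_pos (d : ℕ) (hd : 1 ≤ d) : 0 < ideal d := by
  unfold ideal
  have : (0 : ℝ) < d := by exact_mod_cast hd
  positivity

theorem TOP_ideal_lt (d : ℕ) : ideal d < 2 := by
  unfold ideal
  have h : (0 : ℝ) ≤ d := Nat.cast_nonneg d
  rw [div_lt_iff₀ (by linarith)]
  linarith

theorem TOP_ind_meas (ρ : ℝ) : Measurable (ind ρ) := by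
  unfold ind
  exact Measurable.ite measurableSet_Iic measurable_const measurable_const

theorem TOP_phi_meas (d : ℕ) (r : ℝ) : Measurable (Phi0 d r) := by
  unfold Phi0
  exact (TOP_ind_meas r).sub ((TOP_ind_meas 1).const_mul _)

theorem TOP_ind_abs (ρ v : ℝ) : |ind ρ v| ≤ 1 := by
  unfold ind
  split_ifs <;> simp

theorem TOP_phi_bdd (d : ℕ) (r v : ℝ) : |Phi0 d r v| ≤ 1 + |tau d r| := by
  unfold Phi0
  have h1 := TOP_ind_abs r v
  have h2 := TOP_ind_abs 1 v
  calc |ind r v - tau d r * ind 1 v| ≤ |ind r v| + |tau d r * ind 1 v| := abs_sub _ _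
    _ ≤ 1 + |tau d r| * 1 := by
        rw [abs_mul]
        exact add_le_add h1 (mul_le_mul_of_nonneg_left h2 (abs_nonneg _))
    _ = 1 + |tau d r| := by ring

theorem TOP_face (d : ℕ) (X : Finset (E d)) (c0 : E d) (hX : Pk X) (hc : c0 ∈ X) :
    IsFace d X {c0} c0 c0 LinearIsometry.id 0 := by
  refine ⟨?_, ?_, ?_, ?_, ?_, ?_⟩
  · intro c h
    rw [Finset.mem_singleton] at h
    rw [h]; exact hc
  · exact Finset.mem_singleton_self c0
  · rw [Finset.card_singleton]; ring
  · intro c h
    rw [Finset.mem_singleton] at h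
    rw [h]; simp
  · intro c h z
    rw [Finset.mem_singleton] at h
    rw [h]; simp
  · intro c h1 h2
    rw [Finset.mem_singleton] at h2
    have h3 := hX c h1 c0 hc h2
    nlinarith

theorem TOP_null (d : ℕ) (c0 c : E d) (h : c ≠ c0) :
    volume {z : E d | ‖z‖ = ‖c0 + z - c‖} = 0 := by
  have h1 : {z : E d | ‖z‖ = ‖c0 + z - c‖} =
      (AffineSubspace.perpBisector (0 : E d) (c - c0) : Set (E d)) := by
    ext z
    rw [SetLike.mem_coe, AffineSubspace.mem_perpBisector_iff_dist_eq, dist_zero_right,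
      dist_eq_norm]
    have : z - (c - c0) = c0 + z - c := by abel
    rw [this]
    rfl
  rw [h1]
  refine Measure.addHaar_affineSubspace _ _ ?_
  intro htop
  have h2 : (0 : E d) ∈ AffineSubspace.perpBisector (0 : E d) (c - c0) := by
    rw [htop]; trivial
  rw [AffineSubspace.left_mem_perpBisector] at h2
  exact h (sub_eq_zero.mp h2.symm)

theorem TOP (h1 : S_GEO) (h2 : S_AN) : S_TOP := by
  intro d r X c0 hd hr hr2 hX hc
  have hr0 : 0 < r := by linarith
  have hU := TOP_ideal_pos d (by omega)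
  have hJ := h1 d d X {c0} c0 c0 LinearIsometry.id 0 (ideal d) (Phi0 d r) (1 + |tau d r|) hX
    (TOP_face d X c0 hX hc) hU (TOP_ideal_lt d) (TOP_phi_meas d r) (TOP_phi_bdd d r)
    (h2 d r hd hr hr2)
  set C : Set (E d) := fcell X {c0} c0 c0 LinearIsometry.id with hC
  have hCm : ∀ z : E d, z ∈ C ↔ ∀ c ∈ X, c ≠ c0 → ‖z‖ ≤ ‖c0 + z - c‖ := by
    intro z
    have e1 : c0 + z - c0 = z := by abel
    constructor
    · intro hz c hcX hne
      have h3 := hz c hcX (by rw [Finset.mem_singleton]; exact hne)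
      change ‖c0 + z - c0‖ ≤ ‖c0 + z - c‖ at h3
      rwa [e1] at h3
    · intro hz c hcX hne
      rw [Finset.mem_singleton] at hne
      change ‖c0 + z - c0‖ ≤ ‖c0 + z - c‖
      rw [e1]
      exact hz c hcX hne
  have hCmeas : MeasurableSet C := by
    have e : C = ⋂ c ∈ X, ⋂ _ : c ≠ c0, {z : E d | ‖z‖ ≤ ‖c0 + z - c‖} := by
      ext z
      rw [hCm]
      simp only [Set.mem_iInter]
      rfl
    rw [e]
    refine Finset.measurableSet_biInter X fun c _ => MeasurableSet.iInter fun _ => ?_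
    exact (isClosed_le (by fun_prop) (by fun_prop)).measurableSet
  have hA : MeasurableSet {z : E d | z ∈ C ∧ 0 + ‖z‖ ^ 2 < ideal d} := by
    have hopen : IsOpen {z : E d | 0 + ‖z‖ ^ 2 < ideal d} :=
      isOpen_lt (by fun_prop) (by fun_prop)
    exact hCmeas.inter hopen.measurableSet
  set A : Set (E d) := {z : E d | z ∈ C ∧ 0 + ‖z‖ ^ 2 < ideal d} with hAdef
  have hInt : ∀ ρ : ℝ, 0 < ρ → ρ ^ 2 < ideal d →
      IntegrableOn (fun z : E d => ind ρ (0 + ‖z‖ ^ 2)) A ∧
      ∫ z in A, ind ρ (0 + ‖z‖ ^ 2) = (volume (C ∩ Metric.closedBall 0 ρ)).toReal := by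
    intro ρ hρ hρU
    have e1 : (fun z : E d => ind ρ (0 + ‖z‖ ^ 2)) =
        (Metric.closedBall (0 : E d) ρ).indicator (fun _ => (1 : ℝ)) := by
      funext z
      unfold ind
      by_cases hz : ‖z‖ ≤ ρ
      · have hz' : z ∈ Metric.closedBall (0 : E d) ρ := mem_closedBall_zero_iff.mpr hz
        rw [Set.indicator_of_mem hz', if_pos]
        rw [zero_add]
        exact pow_le_pow_left₀ (norm_nonneg _) hz 2
      · have hz' : z ∉ Metric.closedBall (0 : E d) ρ := fun h => hz (mem_closedBall_zero_iff.mp h)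
        rw [Set.indicator_of_notMem hz', if_neg]
        rw [zero_add]
        intro h
        exact hz ((sq_le_sq₀ (norm_nonneg _) hρ.le).mp h)
    have hsub : A ∩ Metric.closedBall 0 ρ = C ∩ Metric.closedBall 0 ρ := by
      ext z
      constructor
      · rintro ⟨⟨h3, _⟩, h4⟩
        exact ⟨h3, h4⟩
      · rintro ⟨h3, h4⟩
        refine ⟨⟨h3, ?_⟩, h4⟩
        have h5 := pow_le_pow_left₀ (norm_nonneg _) (mem_closedBall_zero_iff.mp h4) 2
        linarith
    have hfin : volume (C ∩ Metric.closedBall (0 : E d) ρ) ≠ ∞ :=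
      ((measure_mono Set.inter_subset_right).trans_lt measure_closedBall_lt_top).ne
    rw [e1]
    constructor
    · rw [integrableOn_indicator_iff Metric.isClosed_closedBall.measurableSet]
      refine integrableOn_const ?_
      rw [Set.inter_comm, hsub]
      exact hfin
    · rw [setIntegral_indicator Metric.isClosed_closedBall.measurableSet, hsub,
        setIntegral_const, smul_eq_mul, mul_one]
      rfl
  obtain ⟨i1, e1⟩ := hInt 1 one_pos (by nlinarith)
  obtain ⟨ir, er⟩ := hInt r hr0 hr2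
  have hJ2 : J d (ideal d) 0 C (Phi0 d r) = (volume (C ∩ Metric.closedBall 0 r)).toReal -
      tau d r * (volume (C ∩ Metric.closedBall 0 1)).toReal := by
    unfold J Phi0
    rw [integral_sub ir (i1.const_mul _), integral_const_mul, er, e1]
  have hB1 : C ∩ Metric.closedBall (0 : E d) 1 = Metric.closedBall 0 1 := by
    refine Set.inter_eq_right.mpr fun z hz => ?_
    rw [hCm]
    intro c hcX hne
    have h3 := hX c hcX c0 hc hne
    have h4 := mem_closedBall_zero_iff.mp hz
    have h5 : ‖c - c0‖ ≤ ‖c0 + z - c‖ + ‖z‖ := by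
      calc ‖c - c0‖ = ‖z - (c0 + z - c)‖ := by congr 1; abel
        _ ≤ ‖z‖ + ‖c0 + z - c‖ := norm_sub_le _ _
        _ = _ := add_comm _ _
    linarith
  rw [hJ2, hB1] at hJ
  have hfin1 : volume (Metric.closedBall (0 : E d) 1) ≠ ∞ := measure_closedBall_lt_top.ne
  have hfinr : volume (C ∩ Metric.closedBall (0 : E d) r) ≠ ∞ :=
    ((measure_mono Set.inter_subset_right).trans_lt measure_closedBall_lt_top).ne
  have step1 : ENNReal.ofReal (tau d r) * volume (Metric.closedBall (0 : E d) 1) ≤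
      volume (C ∩ Metric.closedBall (0 : E d) r) := by
    calc ENNReal.ofReal (tau d r) * volume (Metric.closedBall (0 : E d) 1)
        = ENNReal.ofReal (tau d r) *
          ENNReal.ofReal (volume (Metric.closedBall (0 : E d) 1)).toReal := by
          rw [ENNReal.ofReal_toReal hfin1]
      _ = ENNReal.ofReal (tau d r * (volume (Metric.closedBall (0 : E d) 1)).toReal) := by
          rw [ENNReal.ofReal_mul' ENNReal.toReal_nonneg]
      _ ≤ ENNReal.ofReal (volume (C ∩ Metric.closedBall (0 : E d) r)).toReal :=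
          ENNReal.ofReal_le_ofReal (by linarith)
      _ = volume (C ∩ Metric.closedBall (0 : E d) r) := ENNReal.ofReal_toReal hfinr
  refine step1.trans ?_
  have hsub : C ∩ Metric.closedBall (0 : E d) r ⊆
      {z : E d | ‖z‖ ≤ r ∧ ∀ c ∈ X, c ≠ c0 → ‖z‖ < ‖c0 + z - c‖} ∪
      ⋃ c ∈ X.filter (fun c => c ≠ c0), {z : E d | ‖z‖ = ‖c0 + z - c‖} := by
    rintro z ⟨hz1, hz2⟩
    rw [hCm] at hz1
    by_cases hall : ∀ c ∈ X, c ≠ c0 → ‖z‖ < ‖c0 + z - c‖
    · left
      exact ⟨mem_closedBall_zero_iff.mp hz2, hall⟩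
    · right
      push Not at hall
      obtain ⟨c, hcX, hne, hle⟩ := hall
      simp only [Set.mem_iUnion]
      refine ⟨c, Finset.mem_filter.mpr ⟨hcX, hne⟩, ?_⟩
      exact le_antisymm (hz1 c hcX hne) hle
  refine (measure_mono hsub).trans ((measure_union_le _ _).trans ?_)
  have hnull : volume (⋃ c ∈ X.filter (fun c => c ≠ c0), {z : E d | ‖z‖ = ‖c0 + z - c‖}) = 0 := by
    refine (measure_biUnion_null_iff (Finset.countable_toSet (X.filter (fun c => c ≠ c0)))).mpr ?_
    intro c hc'
    exact TOP_null d c0 c (Finset.mem_filter.mp (Finset.mem_coe.mp hc')).2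
  rw [hnull, add_zero]

end Pool.Agent.H41R2.OP
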