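import Pool.Agent.H41R2.OP.Defs

set_option autoImplicit false

open MeasureTheory Set
open scoped ENNReal Topology

namespace Pool.Agent.H41R2.OP

theorem TPA (h1 : S_CHE) (h2 : S_NPOS) (h3 : S_LC4) : S_TPA := by
  intro k F c x x' q q' hL hx hxx hq hqq
  have hx' : 0 < x' := lt_of_lt_of_le hx hxx
  have hq' : 0 < q' := lt_of_lt_of_le hq hqq
  have hlc := h3 c hL.pos hL.lc
  have i1 := (h2 k F c x q hL hx hq).1
  have i2 := (h2 k F c x' q hL hx' hq).1
  have i3 := (h2 k F c x q' hL hx hq').1
  have i4 := (h2 k F c x' q' hL hx' hq').1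
  have cpos : ∀ p ∈ Ioi (0:ℝ), ∀ a : ℝ, 0 < a → 0 < c (p + a) := fun p hp a ha =>
    hL.pos _ (add_pos hp ha)
  have e1 : ∀ p : ℝ, Real.exp (-(p * x')) = Real.exp (-(p * (x' - x))) * Real.exp (-(p * x)) := by
    intro p
    rw [← Real.exp_add]; congr 1; ring
  have eg : EqOn (fun p => (-Real.exp (-(p * (x' - x)))) * (Real.exp (-(p * x)) * c (p + q)))
      (fun p => -(Real.exp (-(p * x')) * c (p + q))) (Ioi 0) := by
    intro p _
    show (-Real.exp (-(p * (x' - x)))) * (Real.exp (-(p * x)) * c (p + q)) =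
      -(Real.exp (-(p * x')) * c (p + q))
    rw [e1]; ring
  have eh : EqOn (fun p => (c (p + q') / c (p + q)) * (Real.exp (-(p * x)) * c (p + q)))
      (fun p => Real.exp (-(p * x)) * c (p + q')) (Ioi 0) := by
    intro p hp
    have := (cpos p hp q hq).ne'
    show (c (p + q') / c (p + q)) * (Real.exp (-(p * x)) * c (p + q)) =
      Real.exp (-(p * x)) * c (p + q')
    field_simp
  have egh : EqOn (fun p => (-Real.exp (-(p * (x' - x)))) * (c (p + q') / c (p + q)) *
      (Real.exp (-(p * x)) * c (p + q))) (fun p => -(Real.exp (-(p * x')) * c (p + q')))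
      (Ioi 0) := by
    intro p hp
    have := (cpos p hp q hq).ne'
    show (-Real.exp (-(p * (x' - x)))) * (c (p + q') / c (p + q)) *
      (Real.exp (-(p * x)) * c (p + q)) = -(Real.exp (-(p * x')) * c (p + q'))
    rw [e1]
    field_simp
  have key := h1 (Ioi 0) (fun p => Real.exp (-(p * x)) * c (p + q))
    (fun p => -Real.exp (-(p * (x' - x)))) (fun p => c (p + q') / c (p + q))
    measurableSet_Ioi
    (fun p hp => mul_nonneg (Real.exp_nonneg _) (cpos p hp q hq).le)
    (by
      intro p _ p' _ hpp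
      show -Real.exp (-(p * (x' - x))) ≤ -Real.exp (-(p' * (x' - x)))
      apply neg_le_neg
      apply Real.exp_le_exp.2
      nlinarith [mul_le_mul_of_nonneg_right hpp (sub_nonneg.2 hxx)])
    (by
      intro p hp p' hp' hpp
      show c (p + q') / c (p + q) ≤ c (p' + q') / c (p' + q)
      rw [div_le_div_iff₀ (cpos p hp q hq) (cpos p' hp' q hq)]
      have h := hlc (p + q) (q' - q) (p' - p) (add_pos hp hq) (by linarith) (by linarith)
      have a1 : p + q + (q' - q) = p + q' := by ring
      have a2 : p + q + (p' - p) = p' + q := by ring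
      have a3 : p + q + (q' - q) + (p' - p) = p' + q' := by ring
      rw [a3, a1, a2] at h
      linarith)
    i1 ((integrableOn_congr_fun eg measurableSet_Ioi).2 i2.neg)
    ((integrableOn_congr_fun eh measurableSet_Ioi).2 i3)
    ((integrableOn_congr_fun egh measurableSet_Ioi).2 i4.neg)
  have r1 := setIntegral_congr_fun (μ := volume) measurableSet_Ioi eg
  have r2 := setIntegral_congr_fun (μ := volume) measurableSet_Ioi eh
  have r3 := setIntegral_congr_fun (μ := volume) measurableSet_Ioi egh
  rw [integral_neg] at r1 r3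
  rw [r1, r2, r3] at key
  unfold Nn
  linarith

end Pool.Agent.H41R2.OP
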