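import Pool.Agent.H41R2.OP.Defs

set_option autoImplicit false

open MeasureTheory Set
open scoped ENNReal Topology

namespace Pool.Agent.H41R2.OP

theorem TPB (h1 : S_CHE) (h2 : S_NPOS) (h3 : S_LAPI) (h4 : S_TPA) : S_TPB := by
  intro k F c x x' t t' hk hL hx hxx ht htt
  have hx' : 0 < x' := lt_of_lt_of_le hx hxx
  have ht' : 0 < t' := lt_of_lt_of_le ht htt
  obtain ⟨i1, o1⟩ := h3 k F c x t hk hL hx ht
  obtain ⟨i2, o2⟩ := h3 k F c x' t hk hL hx' ht
  obtain ⟨i3, o3⟩ := h3 k F c x t' hk hL hx ht'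
  obtain ⟨i4, o4⟩ := h3 k F c x' t' hk hL hx' ht'
  have npos : ∀ q ∈ Ioi (0:ℝ), 0 < Nn c x q := fun q hq => (h2 k F c x q hL hx hq).2
  have e1 : ∀ q : ℝ, Real.exp (-(q * t')) = Real.exp (-(q * (t' - t))) * Real.exp (-(q * t)) := by
    intro q
    rw [← Real.exp_add]; congr 1; ring
  have eg : EqOn (fun q => (-(Nn c x' q / Nn c x q)) *
      (Real.exp (-(q * t)) * q ^ ((k : ℝ) / 2 - 1) * Nn c x q))
      (fun q => -(Real.exp (-(q * t)) * q ^ ((k : ℝ) / 2 - 1) * Nn c x' q)) (Ioi 0) := by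
    intro q hq
    have := (npos q hq).ne'
    show (-(Nn c x' q / Nn c x q)) *
      (Real.exp (-(q * t)) * q ^ ((k : ℝ) / 2 - 1) * Nn c x q) =
      -(Real.exp (-(q * t)) * q ^ ((k : ℝ) / 2 - 1) * Nn c x' q)
    field_simp
  have eh : EqOn (fun q => (-Real.exp (-(q * (t' - t)))) *
      (Real.exp (-(q * t)) * q ^ ((k : ℝ) / 2 - 1) * Nn c x q))
      (fun q => -(Real.exp (-(q * t')) * q ^ ((k : ℝ) / 2 - 1) * Nn c x q)) (Ioi 0) := by
    intro q _
    show (-Real.exp (-(q * (t' - t)))) *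
      (Real.exp (-(q * t)) * q ^ ((k : ℝ) / 2 - 1) * Nn c x q) =
      -(Real.exp (-(q * t')) * q ^ ((k : ℝ) / 2 - 1) * Nn c x q)
    rw [e1]; ring
  have egh : EqOn (fun q => (-(Nn c x' q / Nn c x q)) * (-Real.exp (-(q * (t' - t)))) *
      (Real.exp (-(q * t)) * q ^ ((k : ℝ) / 2 - 1) * Nn c x q))
      (fun q => Real.exp (-(q * t')) * q ^ ((k : ℝ) / 2 - 1) * Nn c x' q) (Ioi 0) := by
    intro q hq
    have := (npos q hq).ne'
    show (-(Nn c x' q / Nn c x q)) * (-Real.exp (-(q * (t' - t)))) *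
      (Real.exp (-(q * t)) * q ^ ((k : ℝ) / 2 - 1) * Nn c x q) =
      Real.exp (-(q * t')) * q ^ ((k : ℝ) / 2 - 1) * Nn c x' q
    rw [e1]
    field_simp
  have key := h1 (Ioi 0) (fun q => Real.exp (-(q * t)) * q ^ ((k : ℝ) / 2 - 1) * Nn c x q)
    (fun q => -(Nn c x' q / Nn c x q)) (fun q => -Real.exp (-(q * (t' - t))))
    measurableSet_Ioi
    (fun q hq => mul_nonneg (mul_nonneg (Real.exp_nonneg _)
      (Real.rpow_nonneg (le_of_lt hq) _)) (npos q hq).le)
    (by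
      intro q hq q' hq' hqq
      show -(Nn c x' q / Nn c x q) ≤ -(Nn c x' q' / Nn c x q')
      apply neg_le_neg
      rw [div_le_div_iff₀ (npos q' hq') (npos q hq)]
      exact h4 k F c x x' q q' hL hx hxx hq hqq)
    (by
      intro q _ q' _ hqq
      show -Real.exp (-(q * (t' - t))) ≤ -Real.exp (-(q' * (t' - t)))
      apply neg_le_neg
      apply Real.exp_le_exp.2
      nlinarith [mul_le_mul_of_nonneg_right hqq (sub_nonneg.2 htt)])
    i1 ((integrableOn_congr_fun eg measurableSet_Ioi).2 i2.neg)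
    ((integrableOn_congr_fun eh measurableSet_Ioi).2 i3.neg)
    ((integrableOn_congr_fun egh measurableSet_Ioi).2 i4)
  have r1 := setIntegral_congr_fun (μ := volume) measurableSet_Ioi eg
  have r2 := setIntegral_congr_fun (μ := volume) measurableSet_Ioi eh
  have r3 := setIntegral_congr_fun (μ := volume) measurableSet_Ioi egh
  rw [integral_neg] at r1 r2
  rw [r1, r2, r3] at key
  rw [o1, o2, o3, o4]
  nlinarith

end Pool.Agent.H41R2.OP
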