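import Pool.Agent.H41R2.OP.Defs

set_option autoImplicit false

noncomputable section

open MeasureTheory Set
open scoped ENNReal Topology

namespace Pool.Agent.H41R2.OP

theorem WGT_dep (d n : ℕ) (S : Finset (E d)) (m : E d) (L : E n →ₗᵢ[ℝ] E d)
    (hcard : S.card + n = d + 1) (horth : ∀ c ∈ S, ∀ w, inner ℝ (c - m) (L w) = 0) :
    ¬ LinearIndependent ℝ (fun c : {c // c ∈ S} => (c : E d) - m) := by
  intro hli
  have h1 : Submodule.span ℝ (Set.range (fun c : {c // c ∈ S} => (c : E d) - m)) ≤
      (LinearMap.range L.toLinearMap)ᗮ := by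
    rw [Submodule.span_le]
    rintro _ ⟨c, rfl⟩
    rw [SetLike.mem_coe, Submodule.mem_orthogonal]
    rintro _ ⟨w, rfl⟩
    rw [real_inner_comm]
    exact horth c c.2 w
  have h2 := Submodule.finrank_mono h1
  rw [finrank_span_eq_card hli] at h2
  have h3 := (LinearMap.range L.toLinearMap).finrank_add_finrank_orthogonal
  have h4 : Module.finrank ℝ (LinearMap.range L.toLinearMap) = n := by
    rw [LinearMap.finrank_range_of_inj L.injective]
    simp
  have h5 : Module.finrank ℝ (E d) = d := by simp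
  rw [h4, h5] at h3
  rw [Fintype.card_coe] at h2
  omega

theorem WGT (h : S_NEG) : S_WGT := by
  intro d n S m L hcard horth hneg
  obtain ⟨μ, hμ0, hμ1, hμ2⟩ := h d {c // c ∈ S} inferInstance (fun c => (c : E d) - m)
    (fun i j hij => hneg i i.2 j j.2 (fun he => hij (Subtype.ext he)))
    (WGT_dep d n S m L hcard horth)
  refine ⟨fun c => if hc : c ∈ S then μ ⟨c, hc⟩ else 0, ?_, ?_, ?_⟩
  · intro c hc
    simp only [dif_pos hc]
    exact hμ0 _
  · rw [← Finset.sum_coe_sort S, ← hμ1]
    apply Finset.sum_congr rfl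
    intro c _
    simp only [dif_pos c.2]
  · rw [← Finset.sum_coe_sort S, ← hμ2]
    apply Finset.sum_congr rfl
    intro c _
    simp only [dif_pos c.2]

end Pool.Agent.H41R2.OP
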