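import Pool.Agent.H41R2.OP.Defs

set_option autoImplicit false

noncomputable section

open MeasureTheory Set
open scoped ENNReal Topology

namespace Pool.Agent.H41R2.OP

theorem WPOS (h1 : S_CONG) (h2 : S_P1) (h3 : S_FOP) : S_WPOS := by
  intro d ρ hd hρ
  obtain ⟨m, rfl⟩ : ∃ m, d = m + 1 := ⟨d - 1, by omega⟩
  have hid : ∀ j : ℕ, 1 ≤ ideal (j + 1) := by
    intro j
    unfold ideal
    rw [le_div_iff₀ (by positivity)]
    push_cast
    have : (0:ℝ) ≤ j := Nat.cast_nonneg j
    linarith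
  have hid0 : ideal 0 = 0 := by simp [ideal]
  have hρ0 : 0 < ρ := by linarith
  unfold W
  rw [List.range_succ_eq_map, List.map_cons, hid0, List.map_map]
  simp only [fo, Nat.add_sub_cancel]
  set rest := List.map (ideal ∘ Nat.succ) (List.range m) with hrest
  set G : ℝ → ℝ := fun v => (1 / ((m + 1 : ℕ) : ℝ)) *
    (min (v ^ (((m + 1 : ℕ) : ℝ) / 2)) (ρ ^ (m + 1)) * v ^ (-(((m + 1 : ℕ) : ℝ) / 2))) with hG
  have hrest1 : ∀ y ∈ rest, 1 ≤ y := by
    intro y hy
    rw [hrest, List.mem_map] at hy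
    obtain ⟨j, _, rfl⟩ := hy
    exact hid j
  have e := h1 rest m (op (m + 1) 0 (ind ρ)) G 1 (ideal (m + 1)) hrest1 (hid m) (by
    intro u hu
    rw [h2 (m + 1) ρ u hd hρ hu])
  rw [e]
  have hGc : ContinuousOn G (Ioi 0) := by
    have c1 : ∀ s : ℝ, ContinuousOn (fun v : ℝ => v ^ s) (Ioi 0) := by
      intro s v hv
      exact (Real.continuousAt_rpow_const v s (Or.inl (ne_of_gt hv))).continuousWithinAt
    exact continuousOn_const.mul ((continuous_min.comp_continuousOn
      ((c1 _).prodMk continuousOn_const)).mul (c1 _))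
  refine (h3 rest m G (fun y hy => lt_of_lt_of_le one_pos (hrest1 y hy)) hGc).2 ?_ _
    (lt_of_lt_of_le one_pos (hid m))
  intro v hv
  simp only [hG]
  refine mul_pos (by positivity) (mul_pos (lt_min (Real.rpow_pos_of_pos hv _) (by positivity))
    (Real.rpow_pos_of_pos hv _))

end Pool.Agent.H41R2.OP
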