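import Pool.Agent.H41R2.OP.Defs

/-! XST (helper778 for helper41). -/

set_option autoImplicit false

noncomputable section

open MeasureTheory Set
open scoped ENNReal Topology

namespace Pool.Agent.H41R2.OP

theorem XST (h : S_PR) : S_XST := by
  intro d k X S c0 m L x c hF hx hc hcS ha
  have hx0 : 0 ≤ x := by
    rw [← hF.rad c0 hF.mem]; positivity
  have hfar := hF.far c hc hcS
  have hb : 0 < bv m x c := by
    unfold bv; linarith
  refine ⟨hb, hx0, ?_⟩
  have ha0 : 0 < ‖av L m c‖ := norm_pos_iff.2 ha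
  have hav : ‖av L m c‖ ≤ 2 * ‖c - m‖ := by
    rw [av, norm_smul, Real.norm_eq_abs, abs_of_pos (by norm_num : (0:ℝ) < 2)]
    exact mul_le_mul_of_nonneg_left (h _ _ L (c - m)).2 (by norm_num)
  set y := ‖c - m‖ ^ 2 with hy
  have hav2 : ‖av L m c‖ ^ 2 ≤ 4 * y := by
    have := pow_le_pow_left₀ ha0.le hav 2
    rw [hy]; nlinarith
  have hy0 : 0 < y := by linarith
  have hbv : bv m x c = y - x := rfl
  have hhh : (y - x) ^ 2 / (4 * y) ≤ hh (av L m c) (bv m x c) ^ 2 := by
    rw [hh, div_pow, hbv]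
    exact div_le_div_of_nonneg_left (sq_nonneg _) (by positivity) hav2
  have hphi : phi x ≤ x + (y - x) ^ 2 / (4 * y) := by
    unfold phi
    have h4 : 0 < 4 - x := by linarith
    rw [div_le_iff₀ h4, add_mul, div_mul_eq_mul_div, ← sub_le_iff_le_add', le_div_iff₀ (by positivity)]
    have h5 : 0 ≤ (y - (4 - x)) * ((4 - x) * y - x ^ 2) := by
      apply mul_nonneg (by linarith)
      nlinarith
    nlinarith
  linarith

end Pool.Agent.H41R2.OP
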