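import Pool.Agent.H41R2.OP.Defs
import Pool.Agent.H41R2.OP.NULm
import Pool.Agent.H41R2.OP.DIS
import Pool.Agent.H41R2.OP.SUB
import Pool.Agent.H41R2.OP.ONTO
import Pool.Agent.H41R2.OP.DEC
import Pool.Agent.H41R2.OP.MP
import Pool.Agent.H41R2.OP.CONE
import Pool.Agent.H41R2.OP.KNU
import Pool.Agent.H41R2.OP.CPC
import Pool.Agent.H41R2.OP.RAD
import Pool.Agent.H41R2.OP.CDL
import Pool.Agent.H41R2.OP.PR
import Pool.Agent.H41R2.OP.ORT
import Pool.Agent.H41R2.OP.NEG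
import Pool.Agent.H41R2.OP.WGT
import Pool.Agent.H41R2.OP.FAR
import Pool.Agent.H41R2.OP.STEP
import Pool.Agent.H41R2.OP.CEQ
import Pool.Agent.H41R2.OP.PHI
import Pool.Agent.H41R2.OP.NDU
import Pool.Agent.H41R2.OP.XST
import Pool.Agent.H41R2.OP.OPB
import Pool.Agent.H41R2.OP.CEL
import Pool.Agent.H41R2.OP.GEO
import Pool.Agent.H41R2.OP.LAP0x
import Pool.Agent.H41R2.OP.CHE
import Pool.Agent.H41R2.OP.LAPE
import Pool.Agent.H41R2.OP.CNT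
import Pool.Agent.H41R2.OP.OPP
import Pool.Agent.H41R2.OP.FOP
import Pool.Agent.H41R2.OP.MONv
import Pool.Agent.H41R2.OP.OPM
import Pool.Agent.H41R2.OP.MONx
import Pool.Agent.H41R2.OP.NPOS
import Pool.Agent.H41R2.OP.LAPI
import Pool.Agent.H41R2.OP.LC4
import Pool.Agent.H41R2.OP.TPA
import Pool.Agent.H41R2.OP.TPB
import Pool.Agent.H41R2.OP.NCON
import Pool.Agent.H41R2.OP.NLC
import Pool.Agent.H41R2.OP.LAPS
import Pool.Agent.H41R2.OP.PRE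
import Pool.Agent.H41R2.OP.OPC
import Pool.Agent.H41R2.OP.FOM
import Pool.Agent.H41R2.OP.SUF
import Pool.Agent.H41R2.OP.ONE
import Pool.Agent.H41R2.OP.ML
import Pool.Agent.H41R2.OP.PAD
import Pool.Agent.H41R2.OP.CONG
import Pool.Agent.H41R2.OP.P1
import Pool.Agent.H41R2.OP.FOL
import Pool.Agent.H41R2.OP.WPOS
import Pool.Agent.H41R2.OP.AN1
import Pool.Agent.H41R2.OP.POS
import Pool.Agent.H41R2.OP.AN
import Pool.Agent.H41R2.OP.TOP
import Pool.Agent.H41R2.OP.VOR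
import Pool.Agent.H41R2.OP.BAR
import Pool.Agent.H41R2.OP.CNV
import Pool.Agent.H41R2.OP.PRM
import Pool.Agent.H41R2.OP.QID
import Pool.Agent.H41R2.OP.LAM
import Pool.Agent.H41R2.OP.SCL
import Pool.Agent.H41R2.OP.ORD
import Pool.Agent.H41R2.OP.MBW
import Pool.Agent.H41R2.OP.SIM
import Pool.Agent.H41R2.OP.SYM
import Pool.Agent.H41R2.OP.FIN

set_option autoImplicit false

namespace Pool.Agent.H41R2.OP

theorem m_NUL : S_NUL := NUL 
theorem m_DIS : S_DIS := DIS 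
theorem m_SUB : S_SUB := SUB 
theorem m_ONTO : S_ONTO := ONTO 
theorem m_DEC : S_DEC := DEC m_ONTO
theorem m_MP : S_MP := MP 
theorem m_CONE : S_CONE := CONE m_MP
theorem m_KNU : S_KNU := KNU 
theorem m_CPC : S_CPC := CPC m_CONE m_KNU
theorem m_RAD : S_RAD := RAD 
theorem m_CDL : S_CDL := CDL m_NUL m_DIS m_SUB m_DEC m_CPC m_RAD
theorem m_PR : S_PR := PR 
theorem m_ORT : S_ORT := ORT m_PR
theorem m_NEG : S_NEG := NEG 
theorem m_WGT : S_WGT := WGT m_NEG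
theorem m_FAR : S_FAR := FAR 
theorem m_STEP : S_STEP := STEP m_ORT m_WGT m_FAR
theorem m_CEQ : S_CEQ := CEQ m_ORT
theorem m_PHI : S_PHI := PHI 
theorem m_NDU : S_NDU := NDU m_PHI m_STEP m_PR
theorem m_XST : S_XST := XST m_PR
theorem m_OPB : S_OPB := OPB 
theorem m_CEL : S_CEL := CEL m_PR
theorem m_GEO : S_GEO := GEO m_CDL m_STEP m_CEQ m_NDU m_XST m_PHI m_OPB m_CEL
theorem m_LAP0 : S_LAP0 := LAP0x 
theorem m_CHE : S_CHE := CHE 
theorem m_LAPE : S_LAPE := LAPE m_CHE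
theorem m_CNT : S_CNT := CNT 
theorem m_OPP : S_OPP := OPP 
theorem m_FOP : S_FOP := FOP m_CNT m_OPP
theorem m_MONv : S_MONv := MONv m_CHE
theorem m_OPM : S_OPM := OPM 
theorem m_MONx : S_MONx := MONx m_CHE m_OPM
theorem m_NPOS : S_NPOS := NPOS 
theorem m_LAPI : S_LAPI := LAPI m_NPOS
theorem m_LC4 : S_LC4 := LC4t 
theorem m_TPA : S_TPA := TPA m_CHE m_NPOS m_LC4
theorem m_TPB : S_TPB := TPB m_CHE m_NPOS m_LAPI m_TPA
theorem m_NCON : S_NCON := NCON m_NPOS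
theorem m_NLC : S_NLC := NLC m_NPOS
theorem m_LAPS : S_LAPS := LAPS m_NPOS m_NCON m_NLC m_LAPI
theorem m_PRE : S_PRE := PRE m_CNT m_LAPS m_LAPE m_MONv
theorem m_OPC : S_OPC := OPC m_CHE
theorem m_FOM : S_FOM := FOM m_CNT m_OPM
theorem m_SUF : S_SUF := SUF m_CNT m_OPP m_OPC m_MONv m_FOM m_FOP
theorem m_ONE : S_ONE := ONE m_CNT m_OPP m_MONv m_MONx m_LAPE m_TPB m_PRE m_SUF m_FOM m_FOP
theorem m_ML : S_ML := ML m_LAPE m_FOP m_ONE
theorem m_PAD : S_PAD := PAD 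
theorem m_CONG : S_CONG := CONG 
theorem m_P1 : S_P1 := P1 
theorem m_FOL : S_FOL := FOL m_OPB
theorem m_WPOS : S_WPOS := WPOS m_CONG m_P1 m_FOP
theorem m_AN1 : S_AN1 := AN1 m_LAP0 m_ML m_PAD m_CONG m_P1 m_FOL m_WPOS m_FOP m_LAPE
theorem m_POS : S_POS := POS 
theorem m_AN : S_AN := AN m_AN1 m_POS
theorem m_TOP : S_TOP := TOP m_GEO m_AN
theorem m_VOR : S_VOR := VOR 
theorem m_BAR : S_BAR := BAR 
theorem m_CNV : S_CNV := CNV m_BAR
theorem m_PRM : S_PRM := PRM 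
theorem m_QID : S_QID := QID 
theorem m_LAM : S_LAM := LAM m_QID
theorem m_SCL : S_SCL := SCL 
theorem m_ORD : S_ORD := ORD m_OPB
theorem m_MBW : S_MBW := MBW m_ORD
theorem m_SIM : S_SIM := SIM m_BAR m_CNV m_PRM m_LAM m_SCL m_MBW
theorem m_SYM : S_SYM := SYM m_BAR m_CNV
theorem m_FIN : S_FIN := FIN m_TOP m_VOR m_SIM m_SYM m_WPOS

end Pool.Agent.H41R2.OP
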