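import Pool.Agent.H41R2.OP.Defs

set_option autoImplicit false

open MeasureTheory Set
open scoped ENNReal Topology

namespace Pool.Agent.H41R2.OP

/-- the sums over the positive and the negative coefficients -/
theorem NEG_sign (d : ℕ) (ι : Type) [Fintype ι] (u : ι → E d)
    (hu : ∀ i j, i ≠ j → inner ℝ (u i) (u j) < 0) (g : ι → ℝ) (hg : ∑ i, g i • u i = 0) :
    (∀ i, 0 ≤ g i) ∨ (∀ i, g i ≤ 0) := by
  classical
  by_contra hcon
  push Not at hcon
  obtain ⟨⟨a, ha⟩, ⟨b, hb⟩⟩ := hcon
  set v : E d := ∑ i, (max (g i) 0) • u i with hv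
  have hv2 : v = ∑ i, (max (-g i) 0) • u i := by
    have h1 : ∑ i, (max (g i) 0) • u i - ∑ i, (max (-g i) 0) • u i = 0 := by
      rw [← Finset.sum_sub_distrib, ← hg]
      apply Finset.sum_congr rfl
      intro i _
      rw [← sub_smul]
      congr 1
      rcases le_total (g i) 0 with h | h
      · rw [max_eq_right h, max_eq_left (by linarith)]; ring
      · rw [max_eq_left h, max_eq_right (by linarith)]; ring
    rw [hv]
    exact sub_eq_zero.1 h1
  have h2 : inner ℝ v v = ∑ i, ∑ j, (max (g i) 0) * (max (-g j) 0) * inner ℝ (u i) (u j) := by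
    conv_lhs => rw [hv2]
    conv_lhs => 
      lhs
      rw [← hv2, hv]
    rw [sum_inner]
    apply Finset.sum_congr rfl
    intro i _
    rw [inner_sum]
    apply Finset.sum_congr rfl
    intro j _
    rw [inner_smul_left, inner_smul_right]
    simp only [conj_trivial]
    ring
  have h3 : ∀ i j, (max (g i) 0) * (max (-g j) 0) * inner ℝ (u i) (u j) ≤ 0 := by
    intro i j
    rcases eq_or_ne i j with h | h
    · subst h
      have : (max (g i) 0) * (max (-g i) 0) = 0 := by
        rcases le_total (g i) 0 with h | h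
        · rw [max_eq_right h]; ring
        · rw [max_eq_right (by linarith : -g i ≤ 0)]; ring
      rw [this, zero_mul]
    · exact mul_nonpos_of_nonneg_of_nonpos (mul_nonneg (le_max_right _ _) (le_max_right _ _))
        (hu i j h).le
  have h4 : inner ℝ v v < 0 := by
    rw [h2]
    have hba : b ≠ a := by
      rintro rfl
      linarith
    apply Finset.sum_neg' (fun i _ => Finset.sum_nonpos fun j _ => h3 i j)
    refine ⟨b, Finset.mem_univ _, ?_⟩
    apply Finset.sum_neg' (fun j _ => h3 b j)
    refine ⟨a, Finset.mem_univ _, ?_⟩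
    rw [max_eq_left hb.le, max_eq_left (by linarith)]
    exact mul_neg_of_pos_of_neg (mul_pos hb (by linarith)) (hu b a hba)
  have h5 : 0 ≤ inner ℝ v v := real_inner_self_nonneg
  linarith

theorem NEG : S_NEG := by
  intro d ι _ u hu hli
  rw [Fintype.not_linearIndependent_iff] at hli
  obtain ⟨g, hg, i0, hi0⟩ := hli
  have key : ∀ g : ι → ℝ, ∑ i, g i • u i = 0 → (∀ i, 0 ≤ g i) → g i0 ≠ 0 →
      ∃ μ : ι → ℝ, (∀ i, 0 ≤ μ i) ∧ ∑ i, μ i = 1 ∧ ∑ i, μ i • u i = 0 := by
    intro g hg hpos hi0
    have hs : 0 < ∑ i, g i := by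
      apply Finset.sum_pos' (fun i _ => hpos i)
      exact ⟨i0, Finset.mem_univ _, lt_of_le_of_ne (hpos i0) (Ne.symm hi0)⟩
    refine ⟨fun i => g i / ∑ i, g i, fun i => div_nonneg (hpos i) hs.le, ?_, ?_⟩
    · rw [← Finset.sum_div, div_self hs.ne']
    · have : ∑ i, (g i / ∑ i, g i) • u i = (∑ i, g i)⁻¹ • ∑ i, g i • u i := by
        rw [Finset.smul_sum]
        apply Finset.sum_congr rfl
        intro i _
        rw [smul_smul]
        congr 1
        rw [div_eq_inv_mul]
      rw [this, hg, smul_zero]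
  rcases NEG_sign d ι u hu g hg with h | h
  · exact key g hg h hi0
  · apply key (fun i => -g i) _ (fun i => by linarith [h i]) (neg_ne_zero.2 hi0)
    simp only [neg_smul, Finset.sum_neg_distrib, hg, neg_zero]

end Pool.Agent.H41R2.OP
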