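import Pool.Agent.H41R2.OP.Defs

/-! Task PRE (helper329) -/

set_option autoImplicit false

noncomputable section

open MeasureTheory Set
open scoped ENNReal Topology

namespace Pool.Agent.H41R2.OP

theorem PRE_congr (k : ℕ) (x v : ℝ) (F G : ℝ → ℝ) (hx : 0 < x) (hv : 0 < v)
    (h : ∀ u : ℝ, 0 < u → F u = G u) : op k x F v = op k x G v := by
  unfold op
  refine intervalIntegral.integral_congr fun t ht => ?_
  rw [uIcc_of_le (zero_le_one)] at ht
  have h1 : 0 < x + t ^ 2 * (v - x) := by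
    have h2 : 0 ≤ t ^ 2 := sq_nonneg t
    have h3 : t ^ 2 ≤ 1 := by
      have := ht.1
      have := ht.2
      nlinarith
    have h4 : x + t ^ 2 * (v - x) = (1 - t ^ 2) * x + t ^ 2 * v := by ring
    rw [h4]
    by_cases h5 : t ^ 2 = 1
    · rw [h5]; linarith
    · have h6 : t ^ 2 < 1 := lt_of_le_of_ne h3 h5
      have h7 : 0 < (1 - t ^ 2) * x := mul_pos (by linarith) hx
      have h8 : 0 ≤ t ^ 2 * v := mul_nonneg h2 hv.le
      linarith
  rw [h _ h1]

theorem PRE (h1 : S_CNT) (h2 : S_LAPS) (h3 : S_LAPE) (h4 : S_MONv) : S_PRE := by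
  intro ps
  induction ps with
  | nil =>
    intro k F0 E0 c0 a x _ ha hax _ _ hL hF hM
    refine ⟨⟨c0, ?_⟩, hF, hM.mono (Ici_subset_Ici.2 hax)⟩
    simpa [fo] using hL
  | cons p ps ih =>
    intro k F0 E0 c0 a x hk ha hax hps hpw hL hF hM
    have hk1 : 1 ≤ k := by
      simp only [List.length_cons] at hk
      omega
    have hp := hps p (List.mem_cons_self)
    have hp0 : 0 < p := lt_of_lt_of_le ha hp.1
    have hLp := h2 k E0 c0 p hk1 hL hp0
    obtain ⟨hEpos, hEcont, -, -⟩ := h3 k E0 c0 hL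
    obtain ⟨hopos, -, -, -⟩ := h3 (k - 1) (op k p E0) (nextc c0 p) hLp
    have hq : ContinuousOn (fun v => F0 v / E0 v) (Ioi 0) :=
      hF.div hEcont fun u hu => (hEpos u hu).ne'
    have hmono : MonotoneOn (fun v => op k p F0 v / op k p E0 v) (Ici p) := by
      intro v hv v' hv' hvv
      have hv0 : 0 < v := lt_of_lt_of_le hp0 hv
      have hv0' : 0 < v' := lt_of_lt_of_le hp0 hv'
      have h5 := h4 k p v v' E0 (fun v => F0 v / E0 v) hp0 hv hvv hEcont hq hEpos
        (hM.mono fun u hu => hp.1.trans hu.1)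
      have h6 : ∀ w : ℝ, 0 < w → op k p (fun u => F0 u / E0 u * E0 u) w = op k p F0 w := by
        intro w hw
        exact PRE_congr k p w _ _ hp0 hw fun u hu => div_mul_cancel₀ _ (hEpos u hu).ne'
      rw [h6 v hv0, h6 v' hv0'] at h5
      show op k p F0 v / op k p E0 v ≤ op k p F0 v' / op k p E0 v'
      rw [div_le_div_iff₀ (hopos v hv0) (hopos v' hv0')]
      exact h5
    rw [List.pairwise_cons] at hpw
    have h7 := ih (k - 1) (op k p F0) (op k p E0) (nextc c0 p) p x
      (by simp only [List.length_cons] at hk; omega) hp0 hp.2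
      (fun p' hp' => ⟨hpw.1 p' hp', (hps p' (List.mem_cons_of_mem _ hp')).2⟩) hpw.2 hLp
      (h1 k p F0 hp0 hF) hmono
    have h8 : k - (p :: ps).length = k - 1 - ps.length := by
      simp only [List.length_cons]
      omega
    rw [h8]
    exact h7

end Pool.Agent.H41R2.OP
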