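import Pool.Agent.H41R2.OP.Defs

set_option autoImplicit false

open MeasureTheory Set
open scoped ENNReal Topology

namespace Pool.Agent.H41R2.OP

theorem VOR : S_VOR := by
  intro d n r c X A hc hX hA
  set B : Fin n → Set (E d) := fun i =>
    {y | ‖y - c i‖ ≤ r ∧ ∀ p ∈ X, p ≠ c i → ‖y - c i‖ < ‖y - p‖} with hB
  have hmeas : ∀ i, MeasurableSet (B i) := by
    intro i
    have h1 : B i = Metric.closedBall (c i) r ∩
        ⋂ p ∈ X, {y : E d | p ≠ c i → ‖y - c i‖ < ‖y - p‖} := by
      ext y
      simp only [hB, mem_inter_iff, Metric.mem_closedBall, dist_eq_norm, mem_iInter]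
      rfl
    rw [h1]
    refine Metric.isClosed_closedBall.measurableSet.inter
      (Finset.measurableSet_biInter _ fun p _ => ?_)
    by_cases hp : p = c i
    · have : {y : E d | p ≠ c i → ‖y - c i‖ < ‖y - p‖} = univ := by
        ext y
        simp [hp]
      rw [this]
      exact MeasurableSet.univ
    · have : {y : E d | p ≠ c i → ‖y - c i‖ < ‖y - p‖} = {y : E d | ‖y - c i‖ < ‖y - p‖} := by
        ext y
        constructor
        · intro h; exact h hp
        · intro h _; exact h
      rw [this]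
      exact (isOpen_lt (by fun_prop) (by fun_prop)).measurableSet
  have hvol : ∀ i, A ≤ volume (B i) := by
    intro i
    refine (hA i).trans (le_of_eq ?_)
    rw [← measure_preimage_add volume (c i) (B i)]
    congr 1
    ext z
    simp only [hB, mem_preimage]
    show (‖z‖ ≤ r ∧ ∀ p ∈ X, p ≠ c i → ‖z‖ < ‖c i + z - p‖) ↔
      (‖c i + z - c i‖ ≤ r ∧ ∀ p ∈ X, p ≠ c i → ‖c i + z - c i‖ < ‖c i + z - p‖)
    rw [add_sub_cancel_left]
  have hdis : Pairwise (fun i j => Disjoint (B i) (B j)) := by
    intro i j hij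
    rw [Set.disjoint_left]
    intro y hi hj
    have hne : c j ≠ c i := fun h => hij (hc h).symm
    have h1 := hi.2 (c j) ((hX _).2 ⟨j, rfl⟩) hne
    have h2 := hj.2 (c i) ((hX _).2 ⟨i, rfl⟩) hne.symm
    exact lt_asymm h1 h2
  calc (n : ℝ≥0∞) * A = ∑ _i : Fin n, A := by simp
    _ ≤ ∑ i : Fin n, volume (B i) := Finset.sum_le_sum fun i _ => hvol i
    _ = volume (⋃ i, B i) := by rw [measure_iUnion hdis hmeas, tsum_fintype]
    _ ≤ volume (⋃ i : Fin n, Metric.closedBall (c i) r) := by
        refine measure_mono (iUnion_mono fun i y hy => ?_)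
        rw [Metric.mem_closedBall, dist_eq_norm]
        exact hy.1

end Pool.Agent.H41R2.OP
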